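import Pool.Agent.LibZIS.Rep

/-!
Comparison of the two versions of the reduced group C*-algebra.
-/

set_option autoImplicit false

namespace Pool.Agent.LibZIS

universe u v w

lemma raw_shift {G : Type u} [Group G] {X : Type v} [MulAction G X] (g : G) (ξ : L2 X) :
    (Raw.tr g : Raw.L2 X →L[ℂ] Raw.L2 X) (ξ : Raw.L2 X) = (shift g ξ : Raw.L2 X) := rfl

lemma raw_tr {G : Type u} [Group G] (g : G) :
    (Raw.tr g : Raw.L2 G →L[ℂ] Raw.L2 G) = (tr g : Raw.L2 G →L[ℂ] Raw.L2 G) := by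
  refine ContinuousLinearMap.ext fun ξ => ?_
  rfl

lemma raw_mem {G : Type u} [Group G] {a : Op G} (ha : a ∈ crAlg G) :
    (a : Raw.L2 G →L[ℂ] Raw.L2 G) ∈ Raw.crAlg G := by
  have h1 : (Set.range (tr : G → Op G) : Set (Raw.L2 G →L[ℂ] Raw.L2 G)) =
      Set.range (Raw.tr : G → (Raw.L2 G →L[ℂ] Raw.L2 G)) := by
    ext a
    constructor
    · rintro ⟨g, rfl⟩; exact ⟨g, raw_tr g⟩
    · rintro ⟨g, rfl⟩; exact ⟨g, (raw_tr g).symm⟩
  rw [Raw.crAlg, ← h1]
  exact ha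

/-- the comparison homomorphism. -/
noncomputable def toRaw (G : Type u) [Group G] : Cr G →+* Raw.Cr G where
  toFun a := (⟨a.1, raw_mem a.2⟩ : Raw.crAlg G)
  map_one' := rfl
  map_zero' := rfl
  map_mul' _ _ := rfl
  map_add' _ _ := rfl

lemma toRaw_lam {G : Type u} [Group G] (g : G) : toRaw G (lam G g) = Raw.lam G g :=
  Subtype.ext (raw_tr g).symm

end Pool.Agent.LibZIS
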