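import Pool.Agent.LibZIS.Pairing
import Pool.Agent.LibZIS.Bridge

/-!
Homology with coefficients in the reduced group C*-algebra of spaces whose group acts on a set
with amenable stabilizers and a nontrivial almost invariant subset.
-/

set_option autoImplicit false

namespace Pool.Agent.LibZIS

open scoped Pointwise

universe u v w

variable {G : Type u} [Group G] {E : Type v} [TopologicalSpace E] [PathConnectedSpace E]
  [MulAction G E] [ContinuousConstSMul G E] {X : Type w} [MulAction G X]

/-- cocycles with values in `ℓ²(X)` are coboundaries when `H₀ = H₁ = 0`. -/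
lemma coboundary (hfree : ∀ (g : G) (e : E), g • e = e → g = 1)
    (hst : ∀ x : X, Amenable (MulAction.stabilizer G x))
    (h0 : ¬ Nontrivial (Hgy (lam G) E 0)) (h1 : ¬ Nontrivial (Hgy (lam G) E 1))
    (b : G → Raw.L2 X) (hb : ∀ g h : G, b (g * h) = b g + Raw.tr g (b h)) :
    ∃ v : Raw.L2 X, ∀ g : G, b g = Raw.tr g v - v := by
  let _ : Module (Cr G) (Raw.L2 X) :=
    Module.compHom (Raw.L2 X) ((Raw.rep (X := X) hst).comp (toRaw G))
  have hsm : ∀ (g : G) (v : Raw.L2 X), lam G g • v = Raw.tr g v := by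
    intro g v
    show Raw.rep hst (toRaw G (lam G g)) v = Raw.tr g v
    rw [toRaw_lam, Raw.rep_lam]
  obtain ⟨v, hv⟩ := coboundary_of_trivial (lam G) hfree h0 h1 b (fun g h => by rw [hsm, hb])
  exact ⟨v, fun g => by rw [← hsm, hv]⟩

open Classical in
/-- the vector `1_{gY} - 1_Y`. -/
noncomputable def wall (Y : Set X) (hY : ∀ g : G, (symmDiff Y (g • Y)).Finite) (g : G) : Raw.L2 X :=
  ⟨fun x => (if g⁻¹ • x ∈ Y then 1 else 0) - (if x ∈ Y then 1 else 0), memℓp_gen (by
    refine summable_of_hasFiniteSupport ((hY g).subset fun x hx => ?_)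
    by_contra h
    apply hx
    have h2 : g⁻¹ • x ∈ Y ↔ x ∈ Y := by
      rw [← Set.mem_smul_set_iff_inv_smul_mem]
      rw [Set.mem_symmDiff] at h
      tauto
    by_cases h3 : x ∈ Y <;> simp [h2, h3])⟩

open Classical in
lemma wall_apply (Y : Set X) (hY : ∀ g : G, (symmDiff Y (g • Y)).Finite) (g : G) (x : X) :
    wall Y hY g x = (if g⁻¹ • x ∈ Y then 1 else 0) - (if x ∈ Y then 1 else 0) := by
  rfl

lemma wall_mul (Y : Set X) (hY : ∀ g : G, (symmDiff Y (g • Y)).Finite) (g h : G) :
    wall Y hY (g * h) = wall Y hY g + Raw.tr g (wall Y hY h) := by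
  ext x
  rw [lp.coeFn_add, Pi.add_apply, Raw.tr_apply, wall_apply, wall_apply, wall_apply, mul_inv_rev,
    mul_smul]
  ring

/-- Cocycles which are not coboundaries give homology. -/
lemma of_cocycle (hfree : ∀ (g : G) (e : E), g • e = e → g = 1)
    (hst : ∀ x : X, Amenable (MulAction.stabilizer G x)) (b : G → Raw.L2 X)
    (hb : ∀ g h : G, b (g * h) = b g + Raw.tr g (b h))
    (hn : ¬ ∃ v : Raw.L2 X, ∀ g : G, b g = Raw.tr g v - v) :
    Nontrivial (Hgy (lam G) E 0) ∨ Nontrivial (Hgy (lam G) E 1) := by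
  by_contra h
  rw [not_or] at h
  exact hn (coboundary hfree hst h.1 h.2 b hb)

/-- Nontrivial almost invariant subsets give homology. -/
lemma of_wall (hfree : ∀ (g : G) (e : E), g • e = e → g = 1)
    (hst : ∀ x : X, Amenable (MulAction.stabilizer G x)) (Y : Set X)
    (hY : ∀ g : G, (symmDiff Y (g • Y)).Finite)
    (hne : ∀ Z : Set X, (∀ g : G, g • Z = Z) → ¬ (symmDiff Y Z).Finite) :
    Nontrivial (Hgy (lam G) E 0) ∨ Nontrivial (Hgy (lam G) E 1) := by
  classical
  refine of_cocycle hfree hst (wall Y hY) (wall_mul Y hY) ?_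
  rintro ⟨v, hv⟩
  -- the invariant function
  let u : X → ℂ := fun x => (if x ∈ Y then 1 else 0) - v x
  have hu : ∀ (g : G) (x : X), u (g⁻¹ • x) = u x := by
    intro g x
    have h1 := congrArg (fun ξ : Raw.L2 X => (ξ : ∀ _ : X, ℂ) x) (hv g)
    simp only [lp.coeFn_sub, Pi.sub_apply] at h1
    rw [wall_apply, Raw.tr_apply] at h1
    show (if g⁻¹ • x ∈ Y then 1 else 0) - v (g⁻¹ • x) = (if x ∈ Y then 1 else 0) - v x
    linear_combination h1
  refine hne {x | 1 / 2 < (u x).re} (fun g => ?_) ?_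
  · ext x
    rw [Set.mem_smul_set_iff_inv_smul_mem]
    show 1 / 2 < (u (g⁻¹ • x)).re ↔ 1 / 2 < (u x).re
    rw [hu]
  · have hfin : {x : X | (1 / 4 : ℝ) ≤ ‖v x‖ ^ 2}.Finite := by
      have hs := Raw.summable_sq v
      have h2 := hs.tendsto_cofinite_zero
      have h3 : ∀ᶠ x in Filter.cofinite, ‖v x‖ ^ 2 < 1 / 4 :=
        h2.eventually (gt_mem_nhds (by norm_num))
      rw [Filter.eventually_cofinite] at h3
      refine h3.subset fun x hx => ?_
      simpa using hx
    refine hfin.subset fun x hx => ?_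
    have h4 : (1 / 2 : ℝ) ≤ |(v x).re| := by
      rw [Set.mem_symmDiff] at hx
      rcases hx with ⟨hxY, hxZ⟩ | ⟨hxZ, hxY⟩
      · have h5 : ¬ 1 / 2 < (u x).re := hxZ
        have h6 : (u x).re = 1 - (v x).re := by
          show ((if x ∈ Y then 1 else 0) - v x).re = _
          rw [if_pos hxY, Complex.sub_re, Complex.one_re]
        rw [h6] at h5
        exact le_trans (by linarith) (le_abs_self _)
      · have h5 : 1 / 2 < (u x).re := hxZ
        have h6 : (u x).re = - (v x).re := by
          show ((if x ∈ Y then 1 else 0) - v x).re = _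
          rw [if_neg hxY, Complex.sub_re, Complex.zero_re, zero_sub]
        rw [h6] at h5
        exact le_trans (by linarith) (neg_le_abs _)
    have h7 : (1 / 2 : ℝ) ≤ ‖v x‖ := h4.trans (Complex.abs_re_le_norm _)
    show (1 / 4 : ℝ) ≤ ‖v x‖ ^ 2
    nlinarith

/-- amenability is invariant under isomorphism. -/
lemma amenable_congr {C : Type v} {D : Type w} [Group C] [Group D] (e : C ≃* D)
    (hC : Amenable C) : Amenable D := by
  classical
  intro S ε hε
  obtain ⟨F, hF, hS⟩ := hC (S.image e.symm) ε hε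
  refine ⟨F.image e, hF.image _, fun s hs => ?_⟩
  have h1 := hS (e.symm s) (Finset.mem_image_of_mem _ hs)
  have h2 : ((F.image e : Finset D) : Set D) \ {x | s * x ∈ F.image e} =
      e '' ((F : Set C) \ {x | e.symm s * x ∈ F}) := by
    ext y
    constructor
    · rintro ⟨hy, hy'⟩
      rw [Finset.mem_coe, Finset.mem_image] at hy
      obtain ⟨c, hc, rfl⟩ := hy
      refine ⟨c, ⟨hc, fun h => hy' ?_⟩, rfl⟩
      exact Finset.mem_image.2 ⟨_, h, by rw [map_mul, e.apply_symm_apply]⟩
    · rintro ⟨c, ⟨hc, hc'⟩, rfl⟩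
      refine ⟨Finset.mem_coe.2 (Finset.mem_image_of_mem _ hc), fun h => hc' ?_⟩
      obtain ⟨c', h3, h4⟩ := Finset.mem_image.1 h
      have h5 : c' = e.symm s * c := by
        apply e.injective
        rw [h4, map_mul, e.apply_symm_apply]
      show e.symm s * c ∈ F
      rw [← h5]
      exact h3
  rw [h2, Set.ncard_image_of_injective _ e.injective, Finset.card_image_of_injective _ e.injective]
  exact h1

/-- the point stabilizers of `G ⧸ C` are amenable if `C` is. -/
lemma amenable_stabilizer (C : Subgroup G) (hC : Amenable C) (x : G ⧸ C) :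
    Amenable (MulAction.stabilizer G x) := by
  obtain ⟨g, rfl⟩ := QuotientGroup.mk_surjective x
  have h1 : MulAction.stabilizer G ((1 : G) : G ⧸ C) = C := MulAction.stabilizer_quotient C
  have h2 : Amenable (MulAction.stabilizer G ((1 : G) : G ⧸ C)) := by
    rw [h1]; exact hC
  refine amenable_congr (MulAction.stabilizerEquivStabilizer (g := g) ?_) h2
  show (g : G ⧸ C) = ((g • (1 : G) : G) : G ⧸ C)
  rw [smul_eq_mul, mul_one]

end Pool.Agent.LibZIS
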