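import Pool.Agent.LibZIS.Contr
import Pool.Agent.LibZIS.Bridge

/-!
Almost contractions over the group algebra, and the vanishing of cohomology with coefficients in
weighted `ℓ²` spaces.
-/

set_option autoImplicit false

namespace Pool.Agent.LibZIS

universe u v w

noncomputable instance crAlgebra (G : Type u) [Group G] : Algebra ℂ (Cr G) := (crAlg G).algebra

section approx

variable {G : Type u} [Group G]

/-- elements of the reduced group C*-algebra as operators. -/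
noncomputable def nu (G : Type u) [Group G] : Cr G →+* (Raw.L2 G →L[ℂ] Raw.L2 G) where
  toFun a := (toRaw G a).1
  map_one' := rfl
  map_zero' := rfl
  map_mul' _ _ := rfl
  map_add' _ _ := rfl

lemma nu_smul (z : ℂ) (a : Cr G) : nu G (z • a) = z • nu G a := rfl

lemma nu_lam (g : G) : nu G (lam G g) = Raw.tr g := rfl

lemma nu_kap (f : MonoidAlgebra ℂ G) : nu G (kap (lam G) f) = Raw.T G G f := by
  induction f using MonoidAlgebra.induction_linear with
  | zero => rw [map_zero, map_zero, map_zero]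
  | add x y hx hy => rw [map_add, map_add, hx, hy, map_add]
  | single g z =>
    have h1 : kap (lam G) (MonoidAlgebra.single g z) = z • lam G g := by
      simp [kap]
    rw [h1, nu_smul, nu_lam, Raw.T, MonoidAlgebra.lift_single]
    rfl

lemma exists_approx (a : Cr G) {ε : ℝ} (hε : 0 < ε) :
    ∃ f : MonoidAlgebra ℂ G, ‖nu G (a - kap (lam G) f)‖ < ε := by
  have h1 : Algebra.adjoin ℂ (Set.range (Raw.tr : G → (Raw.L2 G →L[ℂ] Raw.L2 G))) ≤
      (Raw.T G G).range := by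
    refine Algebra.adjoin_le ?_
    rintro _ ⟨g, rfl⟩
    refine ⟨MonoidAlgebra.single g 1, ?_⟩
    show Raw.T G G _ = _
    rw [Raw.T, MonoidAlgebra.lift_single, one_smul]
    rfl
  have h2 : nu G a ∈ closure ((Raw.T G G).range : Set (Raw.L2 G →L[ℂ] Raw.L2 G)) :=
    closure_mono h1 (toRaw G a).2
  obtain ⟨_, ⟨f, rfl⟩, hf⟩ := Metric.mem_closure_iff.1 h2 ε hε
  refine ⟨f, ?_⟩
  rw [map_sub, nu_kap, ← dist_eq_norm]
  exact hf

/-- total norm of a matrix. -/
noncomputable def tnm {a b : ℕ} (D : Matrix (Fin a) (Fin b) (MonoidAlgebra ℂ G)) : ℝ :=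
  ∑ j, ∑ l, ‖Raw.T G G (D j l)‖

lemma tnm_nonneg {a b : ℕ} (D : Matrix (Fin a) (Fin b) (MonoidAlgebra ℂ G)) : 0 ≤ tnm D :=
  Finset.sum_nonneg fun _ _ => Finset.sum_nonneg fun _ _ => norm_nonneg _

lemma norm_mul_right_le {a b c : ℕ} (N : Matrix (Fin a) (Fin b) (Cr G))
    (D : Matrix (Fin b) (Fin c) (MonoidAlgebra ℂ G)) {ε : ℝ} (hε : 0 ≤ ε)
    (hN : ∀ j l, ‖nu G (N j l)‖ ≤ ε) (j : Fin a) (l : Fin c) :
    ‖nu G ((N * D.map (kap (lam G))) j l)‖ ≤ ε * tnm D := by
  rw [Matrix.mul_apply, map_sum]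
  refine (norm_sum_le _ _).trans ?_
  rw [tnm, Finset.mul_sum]
  refine Finset.sum_le_sum fun p _ => ?_
  rw [map_mul, Matrix.map_apply, nu_kap]
  refine (norm_mul_le _ _).trans ?_
  refine mul_le_mul (hN j p) ?_ (norm_nonneg _) hε
  exact Finset.single_le_sum (f := fun l => ‖Raw.T G G (D p l)‖) (fun _ _ => norm_nonneg _)
    (Finset.mem_univ l)

lemma norm_mul_left_le {a b c : ℕ} (D : Matrix (Fin a) (Fin b) (MonoidAlgebra ℂ G))
    (N : Matrix (Fin b) (Fin c) (Cr G)) {ε : ℝ}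
    (hN : ∀ j l, ‖nu G (N j l)‖ ≤ ε) (j : Fin a) (l : Fin c) :
    ‖nu G ((D.map (kap (lam G)) * N) j l)‖ ≤ ε * tnm D := by
  rw [Matrix.mul_apply, map_sum]
  refine (norm_sum_le _ _).trans ?_
  have h1 : ∑ p, ‖nu G (D.map (kap (lam G)) j p * N p l)‖ ≤ ∑ p, ε * ‖Raw.T G G (D j p)‖ := by
    refine Finset.sum_le_sum fun p _ => ?_
    rw [map_mul, Matrix.map_apply, nu_kap, mul_comm ε]
    exact (norm_mul_le _ _).trans (mul_le_mul_of_nonneg_left (hN p l) (norm_nonneg _))
  refine h1.trans ?_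
  rw [← Finset.mul_sum]
  rcases Nat.eq_zero_or_pos b with hb | hb
  · subst hb
    simp [tnm]
  · have hε : 0 ≤ ε := (norm_nonneg _).trans (hN ⟨0, hb⟩ l)
    refine mul_le_mul_of_nonneg_left ?_ hε
    exact Finset.single_le_sum (f := fun j => ∑ l, ‖Raw.T G G (D j l)‖)
      (fun _ _ => Finset.sum_nonneg fun _ _ => norm_nonneg _) (Finset.mem_univ j)

lemma gen0 {A : Type v} [Ring A] {a b : ℕ} (s t : Matrix (Fin a) (Fin b) A)
    (D : Matrix (Fin b) (Fin a) A) (h : s * D = 1) : 1 - t * D = (s - t) * D := by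
  rw [Matrix.sub_mul, h]

lemma gen1 {A : Type v} [Ring A] {a b c : ℕ} (s t : Matrix (Fin a) (Fin b) A)
    (D : Matrix (Fin b) (Fin a) A) (s' t' : Matrix (Fin c) (Fin a) A)
    (D' : Matrix (Fin a) (Fin c) A) (h : s * D + D' * s' = 1) :
    1 - (t * D + D' * t') = (s - t) * D + D' * (s' - t') := by
  rw [Matrix.sub_mul, Matrix.mul_sub, ← h]
  abel

/-- almost contractions over the group algebra. -/
lemma exists_small {k : ℕ} (F : Res G k) (s : ∀ i, Matrix (Fin (F.n i)) (Fin (F.n (i + 1))) (Cr G))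
    (hs0 : s 0 * (F.D 0).map (kap (lam G)) = 1)
    (hs : ∀ i, i + 1 ≤ k → s (i + 1) * (F.D (i + 1)).map (kap (lam G)) +
      (F.D i).map (kap (lam G)) * s i = 1) {η : ℝ} (hη : 0 < η) :
    ∃ s' : ∀ i, Matrix (Fin (F.n i)) (Fin (F.n (i + 1))) (MonoidAlgebra ℂ G),
      (∀ j l, ‖Raw.T G G ((1 - s' 0 * F.D 0 :
        Matrix (Fin (F.n 0)) (Fin (F.n 0)) (MonoidAlgebra ℂ G)) j l)‖ < η) ∧
      ∀ i, i + 1 ≤ k → ∀ j l,
        ‖Raw.T G G ((1 - (s' (i + 1) * F.D (i + 1) + F.D i * s' i) :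
          Matrix (Fin (F.n (i + 1))) (Fin (F.n (i + 1))) (MonoidAlgebra ℂ G)) j l)‖ < η := by
  classical
  have hmap : ∀ (a b c : ℕ) (P : Matrix (Fin a) (Fin b) (MonoidAlgebra ℂ G))
      (Q : Matrix (Fin b) (Fin c) (MonoidAlgebra ℂ G)),
      (P * Q).map (kap (lam G)) = P.map (kap (lam G)) * Q.map (kap (lam G)) :=
    fun a b c P Q => Matrix.map_mul
  have hone : ∀ a : ℕ, (1 : Matrix (Fin a) (Fin a) (MonoidAlgebra ℂ G)).map (kap (lam G)) = 1 :=
    fun a => Matrix.map_one _ (map_zero _) (map_one _)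
  set C : ℝ := 1 + ∑ i ∈ Finset.range (k + 1), 2 * tnm (F.D i) with hC
  have hC0 : 0 ≤ ∑ i ∈ Finset.range (k + 1), 2 * tnm (F.D i) :=
    Finset.sum_nonneg fun i _ => mul_nonneg (by norm_num) (tnm_nonneg _)
  have hC1 : 0 < C := by linarith
  set ε : ℝ := η / C with hεdef
  have hε : 0 < ε := div_pos hη hC1
  have hεC : ε * C = η := div_mul_cancel₀ _ hC1.ne'
  have hD : ∀ i, i ≤ k → 2 * tnm (F.D i) ≤ C - 1 := by
    intro i hi
    have h1 := Finset.single_le_sum (f := fun i => 2 * tnm (F.D i))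
      (fun i _ => mul_nonneg (by norm_num) (tnm_nonneg (F.D i)))
      (Finset.mem_range.2 (Nat.lt_succ_of_le hi))
    linarith
  choose f hf using fun (a : Cr G) => exists_approx a hε
  let s' : ∀ i, Matrix (Fin (F.n i)) (Fin (F.n (i + 1))) (MonoidAlgebra ℂ G) :=
    fun i => Matrix.of fun j l => f (s i j l)
  have hs' : ∀ i j l, ‖nu G ((s i - (s' i).map (kap (lam G))) j l)‖ ≤ ε :=
    fun i j l => (hf (s i j l)).le
  refine ⟨s', fun j l => ?_, fun i hi j l => ?_⟩
  · have h1 : (1 - s' 0 * F.D 0).map (kap (lam G)) =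
        (s 0 - (s' 0).map (kap (lam G))) * (F.D 0).map (kap (lam G)) := by
      rw [Matrix.map_sub _ (map_sub (kap (lam G))), hone, hmap]
      exact gen0 _ _ _ hs0
    have h2 : kap (lam G) ((1 - s' 0 * F.D 0 :
        Matrix (Fin (F.n 0)) (Fin (F.n 0)) (MonoidAlgebra ℂ G)) j l) =
        ((s 0 - (s' 0).map (kap (lam G))) * (F.D 0).map (kap (lam G))) j l := by
      rw [← h1]
      rfl
    rw [← nu_kap, h2]
    refine (norm_mul_right_le _ _ hε.le (hs' 0) j l).trans_lt ?_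
    have h3 := hD 0 (by omega)
    have h4 := tnm_nonneg (F.D 0)
    nlinarith
  · have h1 : (1 - (s' (i + 1) * F.D (i + 1) + F.D i * s' i)).map (kap (lam G)) =
        (s (i + 1) - (s' (i + 1)).map (kap (lam G))) * (F.D (i + 1)).map (kap (lam G)) +
        (F.D i).map (kap (lam G)) * (s i - (s' i).map (kap (lam G))) := by
      rw [Matrix.map_sub _ (map_sub (kap (lam G))), hone, Matrix.map_add _ (map_add (kap (lam G))),
        hmap, hmap]
      exact gen1 _ _ _ _ _ _ (hs i hi)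
    have h2 : kap (lam G) ((1 - (s' (i + 1) * F.D (i + 1) + F.D i * s' i) :
          Matrix (Fin (F.n (i + 1))) (Fin (F.n (i + 1))) (MonoidAlgebra ℂ G)) j l) =
        ((s (i + 1) - (s' (i + 1)).map (kap (lam G))) * (F.D (i + 1)).map (kap (lam G))) j l +
        ((F.D i).map (kap (lam G)) * (s i - (s' i).map (kap (lam G)))) j l := by
      rw [← Matrix.add_apply, ← h1]
      rfl
    rw [← nu_kap, h2, map_add]
    refine (norm_add_le _ _).trans_lt ?_
    have h5 := norm_mul_right_le _ (F.D (i + 1)) hε.le (hs' (i + 1)) j l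
    have h6 := norm_mul_left_le (F.D i) _ (hs' i) j l
    have h3 := hD (i + 1) hi
    have h4 := hD i (by omega)
    nlinarith [tnm_nonneg (F.D (i + 1)), tnm_nonneg (F.D i)]

end approx

section weighted

variable {G : Type u} [Group G] {E : Type v} [TopologicalSpace E] [MulAction G E]
  [ContinuousConstSMul G E] {X : Type w} [MulAction G X]

/-- If the homology with coefficients in the reduced group C*-algebra vanishes in degrees at most
`m + 1`, the cohomology in degree `m + 1` with coefficients in `ℓ²` spaces with small exponential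
weights vanishes. -/
theorem weighted_coboundary [PathConnectedSpace E]
    (hfree : ∀ (g : G) (e : E), g • e = e → g = 1) {m : ℕ} (hE : HZero E (m + 1))
    (h : ∀ i, i ≤ m + 1 → ¬ Nontrivial (Hgy (lam G) E i)) (F : Res G (m + 1))
    (hst : ∀ x : X, Amenable (MulAction.stabilizer G x)) {len : X → ℝ}
    (hlen : Raw.BddDisp G len) :
    ∀ᶠ δ : NNReal in nhds 0, ∀ b : Tup G (m + 1) → Raw.L2 X,
      (∀ g e, b (g • e) = Raw.tw hlen δ g (b e)) → (∀ e, dlt b e = 0) →
      ∃ c : Tup G m → Raw.L2 X, (∀ g e, c (g • e) = Raw.tw hlen δ g (c e)) ∧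
        ∀ e, dlt c e = b e := by
  classical
  obtain ⟨s, hs0, hs⟩ := exists_contraction_of_trivial (lam G) hfree hE h F
  set η : ℝ := 1 / (F.n m + F.n (m + 1) + 1) with hηdef
  have hden : (0 : ℝ) < F.n m + F.n (m + 1) + 1 := by positivity
  have hη : 0 < η := by positivity
  have hmη : (F.n m : ℝ) * η < 1 := by
    rw [hηdef, mul_one_div, div_lt_one hden]
    have : (0 : ℝ) ≤ F.n (m + 1) := Nat.cast_nonneg _
    linarith
  have hmη' : (F.n (m + 1) : ℝ) * η < 1 := by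
    rw [hηdef, mul_one_div, div_lt_one hden]
    have : (0 : ℝ) ≤ F.n m := Nat.cast_nonneg _
    linarith
  obtain ⟨s', hs'0, hs'⟩ := exists_small F s hs0 hs hη
  -- the error in degree `m`
  obtain ⟨Q, hQ, hQη⟩ : ∃ Q : Matrix (Fin (F.n m)) (Fin (F.n m)) (MonoidAlgebra ℂ G),
      F.D m * Q = F.D m * (1 - s' m * F.D m) ∧ ∀ j l, ‖Raw.T G G (Q j l)‖ < η := by
    rcases Nat.eq_zero_or_pos m with hm | hm
    · subst hm
      exact ⟨_, rfl, hs'0⟩
    · obtain ⟨q, rfl⟩ : ∃ q, m = q + 1 := ⟨m - 1, by omega⟩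
      refine ⟨_, ?_, hs' q (by omega)⟩
      rw [Matrix.mul_sub, Matrix.mul_add, ← Matrix.mul_assoc (F.D (q + 1)) (F.D q), F.comp,
        Matrix.zero_mul, add_zero, Matrix.mul_sub]
  have hP : ∀ᶠ δ : NNReal in nhds 0, ∀ j l, ‖Raw.Tw hlen δ
      ((1 - (s' (m + 1) * F.D (m + 1) + F.D m * s' m) :
        Matrix (Fin (F.n (m + 1))) (Fin (F.n (m + 1))) (MonoidAlgebra ℂ G)) j l)‖ < η := by
    rw [Filter.eventually_all]
    intro j
    rw [Filter.eventually_all]
    intro l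
    exact Raw.eventually_norm_Tw hlen hst _ (hs' m le_rfl j l)
  have hQ' : ∀ᶠ δ : NNReal in nhds 0, ∀ j l, ‖Raw.Tw hlen δ (Q j l)‖ < η := by
    rw [Filter.eventually_all]
    intro j
    rw [Filter.eventually_all]
    intro l
    exact Raw.eventually_norm_Tw hlen hst _ (hQη j l)
  filter_upwards [hP, hQ'] with δ hδP hδQ b hb hbd
  have hτ : ∀ g (v : Raw.L2 X), toEnd (Raw.Tw hlen δ) (MonoidAlgebra.single g 1) v =
      Raw.tw hlen δ g v := by
    intro g v
    rw [toEnd_apply, Raw.Tw, MonoidAlgebra.lift_single, one_smul]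
    rfl
  obtain ⟨c, hc1, hc2⟩ := coboundary_of_solve F (toEnd (Raw.Tw hlen δ)) (fun v hv =>
    solve (Raw.Tw hlen δ) (F.D m) (F.D (m + 1)) (s' m) (s' (m + 1))
      (1 - (s' (m + 1) * F.D (m + 1) + F.D m * s' m)) Q (by abel) (by
        rw [hQ, Matrix.sub_mul, Matrix.mul_sub, Matrix.add_mul, Matrix.one_mul, Matrix.mul_one,
          Matrix.mul_assoc (s' (m + 1)), F.comp, Matrix.mul_zero, zero_add, Matrix.mul_assoc])
      η hη.le (fun j l => (hδP j l).le) (fun j l => (hδQ j l).le) hmη hmη' v hv) b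
    (fun g e => by rw [hτ, hb]) hbd
  exact ⟨c, fun g e => by rw [hc1, hτ], hc2⟩

end weighted

end Pool.Agent.LibZIS
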