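import Pool.Agent.LibZIS.Defs

/-!
Pairing of one-dimensional chains with a group cocycle.
-/

set_option autoImplicit false

namespace Pool.Agent.LibZIS

universe u v w

open stdSimplex

variable {G : Type u} [Group G] {E : Type v} [TopologicalSpace E] [MulAction G E]
  [ContinuousConstSMul G E] {A : Type w} [Ring A] (ρ : G →* A)

/-- the vertices of a singular simplex. -/
noncomputable def vtx {n : ℕ} (s : Sing n E) (i : Fin (n + 1)) : E := s (vertex i)

lemma vtx_face {n : ℕ} (i : Fin (n + 2)) (s : Sing (n + 1) E) (j : Fin (n + 1)) :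
    vtx (face i s) j = vtx s (i.succAbove j) := by
  show s (stdSimplex.map i.succAbove (vertex j)) = s (vertex (i.succAbove j))
  rw [map_vertex]

lemma vtx_act {n : ℕ} (g : G) (s : Sing n E) (i : Fin (n + 1)) :
    vtx (act g s) i = g • vtx s i := rfl

/-- a point as a singular simplex. -/
def pt (x : E) : Sing 0 E := ContinuousMap.const _ x

lemma act_pt (g : G) (x : E) : act g (pt x) = pt (g • x) := rfl

lemma eq_pt (s : Sing 0 E) : s = pt (vtx s 0) := by
  ext t
  show s t = s (vertex 0)
  congr 1
  ext i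
  have h1 := t.2.2
  rw [Fin.sum_univ_one] at h1
  have h2 : i = 0 := Fin.eq_zero i
  subst h2
  show t.1 0 = (Pi.single (0 : Fin (0 + 1)) (1 : ℝ) : Fin (0 + 1) → ℝ) 0
  rw [Pi.single_eq_same]
  exact h1

/-- a path as a singular simplex. -/
noncomputable def ofPath {x y : E} (p : Path x y) : Sing 1 E :=
  ⟨fun t => p (stdSimplexHomeomorphUnitInterval t),
    p.continuous.comp stdSimplexHomeomorphUnitInterval.continuous⟩

lemma vtx_ofPath_zero {x y : E} (p : Path x y) : vtx (ofPath p) 0 = x := by
  show p (stdSimplexHomeomorphUnitInterval ⟨_, single_mem_stdSimplex _ 0⟩) = x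
  rw [stdSimplexHomeomorphUnitInterval_zero]
  exact p.source

lemma vtx_ofPath_one {x y : E} (p : Path x y) : vtx (ofPath p) 1 = y := by
  show p (stdSimplexHomeomorphUnitInterval ⟨_, single_mem_stdSimplex _ 1⟩) = y
  rw [stdSimplexHomeomorphUnitInterval_one]
  exact p.target

/-! ### left multiplication of coefficients -/

lemma bd_smul (n : ℕ) (a : A) (c : Sing (n + 1) E →₀ A) :
    bd A E n (a • c) = a • bd A E n c := by
  induction c using Finsupp.induction_linear with
  | zero => simp
  | add x y hx hy => rw [smul_add, map_add, map_add, hx, hy, smul_add]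
  | single s m =>
    rw [Finsupp.smul_single, bd_single, bd_single, Finset.smul_sum]
    refine Finset.sum_congr rfl fun i _ => ?_
    rw [Finsupp.smul_single, Finsupp.smul_single, Finsupp.smul_single, ← smul_comm]

lemma rel_smul (n : ℕ) (a : A) {c : Sing n E →₀ A} (hc : c ∈ rel ρ E n) :
    a • c ∈ rel ρ E n := by
  rw [rel] at hc
  induction hc using AddSubgroup.closure_induction with
  | mem x hx =>
    obtain ⟨g, s, m, rfl⟩ := hx
    rw [smul_sub, Finsupp.smul_single, Finsupp.smul_single]
    exact AddSubgroup.subset_closure ⟨g, s, a * m, by simp [mul_assoc]⟩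
  | zero => rw [smul_zero]; exact AddSubgroup.zero_mem _
  | add x y _ _ hx hy => rw [smul_add]; exact AddSubgroup.add_mem _ hx hy
  | neg x _ hx => rw [smul_neg]; exact AddSubgroup.neg_mem _ hx

/-! ### equivariant functions -/

omit [TopologicalSpace E] [ContinuousConstSMul G E] in
/-- for a free action every cocycle is realised by a function with values in the affine action. -/
lemma exists_affine (hfree : ∀ (g : G) (e : E), g • e = e → g = 1)
    {V : Type*} [AddCommGroup V] [Module A V] (b : G → V)
    (hb : ∀ g h, b (g * h) = b g + ρ g • b h) :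
    ∃ f : E → V, ∀ (g : G) (e : E), f (g • e) = ρ g • f e + b g := by
  have hex : ∀ e : E, ∃ g : G,
      g • (Quotient.out (s := MulAction.orbitRel G E) (Quotient.mk _ e)) = e := by
    intro e
    have h := Quotient.mk_out (s := MulAction.orbitRel G E) e
    have h2 : (MulAction.orbitRel G E).r e
      (Quotient.out (s := MulAction.orbitRel G E) (Quotient.mk _ e)) :=
      (MulAction.orbitRel G E).symm h
    exact h2
  choose γ hγ using hex
  refine ⟨fun e => b (γ e), fun g e => ?_⟩
  have h1 : (Quotient.mk (MulAction.orbitRel G E) (g • e)) = Quotient.mk _ e :=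
    Quotient.sound (s := MulAction.orbitRel G E) ⟨g, rfl⟩
  have h2 := hγ (g • e)
  rw [h1] at h2
  have h3 : ((g * γ e)⁻¹ * γ (g • e)) •
      (Quotient.out (s := MulAction.orbitRel G E) (Quotient.mk _ e)) =
      (Quotient.out (s := MulAction.orbitRel G E) (Quotient.mk _ e)) := by
    rw [mul_smul, h2, inv_smul_eq_iff, mul_smul, hγ e]
  have h4 := hfree _ _ h3
  rw [inv_mul_eq_one] at h4
  show b (γ (g • e)) = ρ g • b (γ e) + b g
  rw [← h4, hb, add_comm]

/-- the pairing of one-chains with a function. -/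
noncomputable def pair {V : Type*} [AddCommGroup V] [Module A V] (f : E → V) :
    (Sing 1 E →₀ A) →+ V :=
  Finsupp.liftAddHom fun s =>
    (AddMonoidHom.flip (smulAddHom A V) (f (vtx s 1) - f (vtx s 0)) : A →+ V)

lemma pair_single {V : Type*} [AddCommGroup V] [Module A V] (f : E → V) (s : Sing 1 E) (m : A) :
    pair f (Finsupp.single s m) = m • (f (vtx s 1) - f (vtx s 0)) := by
  simp [pair, smul_sub]

lemma pair_smul {V : Type*} [AddCommGroup V] [Module A V] (f : E → V) (a : A)
    (c : Sing 1 E →₀ A) : pair f (a • c) = a • pair f c := by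
  induction c using Finsupp.induction_linear with
  | zero => simp
  | add x y hx hy => rw [smul_add, map_add, map_add, hx, hy, smul_add]
  | single s m => rw [Finsupp.smul_single, pair_single, pair_single, smul_eq_mul, mul_smul]

lemma pair_rel {V : Type*} [AddCommGroup V] [Module A V] (b : G → V) (f : E → V)
    (hf : ∀ (g : G) (e : E), f (g • e) = ρ g • f e + b g) {c : Sing 1 E →₀ A}
    (hc : c ∈ rel ρ E 1) : pair f c = 0 := by
  have : rel ρ E 1 ≤ (pair f : (Sing 1 E →₀ A) →+ V).ker := by
    rw [rel, AddSubgroup.closure_le]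
    rintro _ ⟨g, s, m, rfl⟩
    show pair f _ = 0
    rw [map_sub, pair_single, pair_single, vtx_act, vtx_act, hf, hf, add_sub_add_right_eq_sub,
      ← smul_sub, mul_smul, sub_self]
  exact this hc

lemma pair_bd {V : Type*} [AddCommGroup V] [Module A V] (f : E → V) (d : Sing 2 E →₀ A) :
    pair f (bd A E 1 d) = 0 := by
  induction d using Finsupp.induction_linear with
  | zero => simp
  | add x y hx hy => rw [map_add, map_add, hx, hy, add_zero]
  | single s m =>
    rw [bd_single, Fin.sum_univ_three]
    simp only [map_add, map_zsmul, pair_single, vtx_face]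
    have e1 : (0 : Fin 3).succAbove 0 = 1 := rfl
    have e2 : (0 : Fin 3).succAbove 1 = 2 := rfl
    have e3 : (1 : Fin 3).succAbove 0 = 0 := rfl
    have e4 : (1 : Fin 3).succAbove 1 = 2 := rfl
    have e5 : (2 : Fin 3).succAbove 0 = 0 := rfl
    have e6 : (2 : Fin 3).succAbove 1 = 1 := rfl
    rw [e1, e2, e3, e4, e5, e6]
    simp only [Fin.val_zero, pow_zero, one_smul, Fin.val_one, pow_one, neg_smul, Fin.val_two,
      even_two, Even.neg_pow, one_pow, smul_sub]
    abel

/-- If the homology with coefficients in `A` vanishes in degrees zero and one, every cocycle with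
values in an `A`-module is a coboundary. -/
theorem coboundary_of_trivial [PathConnectedSpace E]
    (hfree : ∀ (g : G) (e : E), g • e = e → g = 1)
    (h0 : ¬ Nontrivial (Hgy ρ E 0)) (h1 : ¬ Nontrivial (Hgy ρ E 1))
    {V : Type*} [AddCommGroup V] [Module A V] (b : G → V)
    (hb : ∀ g h, b (g * h) = b g + ρ g • b h) : ∃ v : V, ∀ h, b h = ρ h • v - v := by
  obtain ⟨f, hf⟩ := exists_affine ρ hfree b hb
  rw [not_nontrivial_iff_subsingleton] at h0 h1
  have H0 : ∀ x : Ch ρ E 0, x ∈ (dif ρ E 0).range := by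
    intro x
    have : (QuotientAddGroup.mk x : Ch ρ E 0 ⧸ (dif ρ E 0).range) = QuotientAddGroup.mk 0 :=
      h0.elim _ _
    rw [QuotientAddGroup.eq] at this
    simpa using this
  have H1 : ∀ x : Ch ρ E 1, dif ρ E 0 x = 0 → x ∈ (dif ρ E 1).range := by
    intro x hx
    have : (QuotientAddGroup.mk (⟨x, hx⟩ : (dif ρ E 0).ker) :
      (dif ρ E 0).ker ⧸ ((dif ρ E 1).range.addSubgroupOf (dif ρ E 0).ker)) =
        QuotientAddGroup.mk 0 := h1.elim _ _
    rw [QuotientAddGroup.eq] at this
    rw [AddSubgroup.mem_addSubgroupOf] at this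
    simpa using this
  obtain ⟨x0⟩ : Nonempty E := inferInstance
  obtain ⟨c', hc'⟩ := H0 (QuotientAddGroup.mk (Finsupp.single (pt x0) (1 : A)))
  obtain ⟨c, rfl⟩ := QuotientAddGroup.mk_surjective c'
  have hc : -bd A E 0 c + Finsupp.single (pt x0) (1 : A) ∈ rel ρ E 0 := by
    rw [← QuotientAddGroup.eq]
    exact hc'
  refine ⟨pair f c - f x0, fun h => ?_⟩
  obtain ⟨p⟩ : Joined x0 (h • x0) := PathConnectedSpace.joined _ _
  set z : Sing 1 E →₀ A := (ρ h - 1) • c - Finsupp.single (ofPath p) 1 with hz
  have hbp : bd A E 0 (Finsupp.single (ofPath p) (1 : A)) =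
      Finsupp.single (pt (h • x0)) 1 - Finsupp.single (pt x0) 1 := by
    rw [bd_single, Fin.sum_univ_two]
    have e1 : face 0 (ofPath p) = pt (h • x0) := by
      rw [eq_pt (face 0 (ofPath p)), vtx_face]
      congr 1
      exact vtx_ofPath_one p
    have e2 : face 1 (ofPath p) = pt x0 := by
      rw [eq_pt (face 1 (ofPath p)), vtx_face]
      congr 1
      exact vtx_ofPath_zero p
    rw [e1, e2]
    simp [sub_eq_add_neg]
  have hker : bd A E 0 z ∈ rel ρ E 0 := by
    rw [hz, map_sub, bd_smul, hbp]
    have r1 := rel_smul ρ 0 (ρ h - 1) hc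
    have r2 : Finsupp.single (act h (pt x0)) (1 : A) - Finsupp.single (pt x0) (1 * ρ h) ∈
        rel ρ E 0 := AddSubgroup.subset_closure ⟨h, pt x0, 1, rfl⟩
    rw [act_pt] at r2
    have e : (ρ h - 1) • bd A E 0 c - (Finsupp.single (pt (h • x0)) 1 - Finsupp.single (pt x0) 1) =
        -(((ρ h - 1) • (-bd A E 0 c + Finsupp.single (pt x0) (1 : A))) +
          (Finsupp.single (pt (h • x0)) (1 : A) - Finsupp.single (pt x0) (1 * ρ h))) := by
      rw [smul_add, smul_neg, Finsupp.smul_single, smul_eq_mul, mul_one, one_mul,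
        Finsupp.single_sub]
      abel
    rw [e]
    exact AddSubgroup.neg_mem _ (AddSubgroup.add_mem _ r1 r2)
  have hker' : dif ρ E 0 (QuotientAddGroup.mk z) = 0 := by
    show (QuotientAddGroup.mk (bd A E 0 z) : Ch ρ E 0) = 0
    rw [QuotientAddGroup.eq_zero_iff]
    exact hker
  obtain ⟨d', hd'⟩ := H1 _ hker'
  obtain ⟨d, rfl⟩ := QuotientAddGroup.mk_surjective d'
  have hd : -bd A E 1 d + z ∈ rel ρ E 1 := by
    rw [← QuotientAddGroup.eq]
    exact hd'
  have hpz := pair_rel ρ b f hf hd
  rw [map_add, map_neg, pair_bd, neg_zero, zero_add, hz, map_sub, pair_smul, pair_single,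
    vtx_ofPath_one, vtx_ofPath_zero, one_smul, sub_smul, one_smul, hf] at hpz
  rw [smul_sub]
  have : b h = ρ h • pair f c - pair f c - (ρ h • f x0 - f x0) := by
    rw [sub_eq_zero] at hpz
    rw [hpz]
    abel
  rw [this]
  abel

end Pool.Agent.LibZIS
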