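import Pool.Agent.LibZIS.PairK

/-!
From the vanishing of homology with coefficients to contractions of finitely generated free
complexes; reduction of the coboundary equation to a finitely generated free resolution.
-/

set_option autoImplicit false

namespace Pool.Agent.LibZIS

universe u v w

section evl

variable {K : Type u} [Ring K] [Algebra ℂ K] {M : Type v} [AddCommGroup M] [Module ℂ M]
  (α : K →ₐ[ℂ] Module.End ℂ M) {n : ℕ}

/-- evaluation of row vectors on a tuple of elements of a module. -/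
noncomputable def evl (v : Fin n → M) : (Fin n → K) →ₗ[ℂ] M where
  toFun a := ∑ l, α (a l) (v l)
  map_add' a b := by simp [Finset.sum_add_distrib]
  map_smul' z a := by simp [Finset.smul_sum]

lemma evl_apply (v : Fin n → M) (a : Fin n → K) : evl α v a = ∑ l, α (a l) (v l) := rfl

lemma evl_vecMul {p : ℕ} (D : Matrix (Fin p) (Fin n) K) (v : Fin n → M) (a : Fin p → K) :
    evl α v (Matrix.vecMul a D) = evl α (mact α D v) a := by
  simp only [evl_apply, Matrix.vecMul, dotProduct, mact, map_sum, map_mul, LinearMap.sum_apply,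
    Module.End.mul_apply]
  rw [Finset.sum_comm]

lemma evl_row (v : Fin n → M) (κ : K) (a : Fin n → K) :
    evl α v (rowAlg K n κ a) = α κ (evl α v a) := by
  simp only [evl_apply, rowAlg_apply, map_mul, Module.End.mul_apply, map_sum]

lemma evl_map {M' : Type w} [AddCommGroup M'] [Module ℂ M'] (α' : K →ₐ[ℂ] Module.End ℂ M')
    (f : M →ₗ[ℂ] M') (hf : ∀ κ v, f (α κ v) = α' κ (f v)) (v : Fin n → M) (a : Fin n → K) :
    f (evl α v a) = evl α' (fun l => f (v l)) a := by
  simp [evl_apply, hf]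

end evl

variable {G : Type u} [Group G]

section phi

variable {k : ℕ} (F : Res G k)

/-- the chain map from the finite resolution to the standard resolution. -/
noncomputable def Phi : ∀ i, Fin (F.n i) → (Tup G i →₀ ℂ)
  | 0 => fun l => Finsupp.single 1 (F.e l)
  | (i + 1) => fun j => coneT G i (mact (permAlg G (Tup G i)) (F.D i) (Phi i) j)

lemma tot_Phi (l : Fin (F.n 0)) : tot (Tup G 0) (Phi F 0 l) = F.e l := tot_single _ _ _

lemma bdT_Phi (i : ℕ) (j : Fin (F.n (i + 1))) : bdT G i (Phi F (i + 1) j) =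
    mact (permAlg G (Tup G i)) (F.D i) (Phi F i) j := by
  induction i with
  | zero =>
    show bdT G 0 (coneT G 0 (mact (permAlg G (Tup G 0)) (F.D 0) (Phi F 0) j)) = _
    rw [bdT_cone_zero]
    have h1 : Finsupp.linearCombination ℂ (fun _ => (1 : ℂ))
        (mact (permAlg G (Tup G 0)) (F.D 0) (Phi F 0) j) = 0 := by
      have h2 : tot (Tup G 0) (mact (permAlg G (Tup G 0)) (F.D 0) (Phi F 0) j) = 0 := by
        rw [mact, map_sum, ← F.comp0 j]
        refine Finset.sum_congr rfl fun l _ => ?_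
        rw [tot_perm, tot_Phi]
      exact h2
    rw [h1, Finsupp.single_zero, sub_zero]
  | succ i ih =>
    show bdT G (i + 1) (coneT G (i + 1)
      (mact (permAlg G (Tup G (i + 1))) (F.D (i + 1)) (Phi F (i + 1)) j)) = _
    rw [bdT_cone_succ]
    have h1 : bdT G i (mact (permAlg G (Tup G (i + 1))) (F.D (i + 1)) (Phi F (i + 1)) j) = 0 := by
      rw [mact_map (permAlg G (Tup G (i + 1))) (permAlg G (Tup G i)) (bdT G i)
        (fun κ c => bdT_perm κ c)]
      have h2 : (fun l => bdT G i (Phi F (i + 1) l)) =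
          mact (permAlg G (Tup G i)) (F.D i) (Phi F i) := funext fun l => ih l
      rw [h2, ← mact_mul, F.comp, mact_zero]
      rfl
    rw [h1, map_zero, sub_zero]

variable (ψ : ∀ i, Tup G i → (Fin (F.n i) → MonoidAlgebra ℂ G))
  (hψ : ∀ i g e, ψ i (g • e) = rowAlg _ _ (MonoidAlgebra.single g 1) (ψ i e))
  (hψ0 : ∀ e, augL F (ψ 0 e) = 1)
  (hψD : ∀ i, i ≤ k → ∀ e, Matrix.vecMul (ψ (i + 1) e) (F.D i) = dlt (ψ i) e)

/-- the composition of the comparison maps. -/
noncomputable def Rmap (i : ℕ) (e : Tup G i) : Tup G i →₀ ℂ :=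
  evl (permAlg G (Tup G i)) (Phi F i) (ψ i e)

include hψ in
lemma Rmap_eqv (i : ℕ) : Eqv (permAlg G (Tup G i)) (Rmap F ψ i) := by
  intro g e
  rw [Rmap, hψ, evl_row]
  rfl

include hψ0 in
lemma tot_Rmap (e : Tup G 0) : tot (Tup G 0) (Rmap F ψ 0 e) = 1 := by
  rw [Rmap, evl_apply, map_sum, ← hψ0 e, augL_apply]
  refine Finset.sum_congr rfl fun l _ => ?_
  rw [tot_perm, tot_Phi]

include hψD in
lemma bdT_Rmap (i : ℕ) (hi : i + 1 ≤ k) (e : Tup G (i + 1)) :
    bdT G i (Rmap F ψ (i + 1) e) = dlt (Rmap F ψ i) e := by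
  rw [Rmap, evl_map (permAlg G (Tup G (i + 1))) (permAlg G (Tup G i)) (bdT G i)
    (fun κ c => bdT_perm κ c)]
  have h2 : (fun l => bdT G i (Phi F (i + 1) l)) =
      mact (permAlg G (Tup G i)) (F.D i) (Phi F i) := funext fun l => bdT_Phi F i l
  rw [h2, ← evl_vecMul, hψD i (by omega), dlt_map]
  rfl

end phi

/-- Solving the coboundary equation on the finite resolution is enough. -/
lemma coboundary_of_solve {m : ℕ} (F : Res G (m + 1)) {V : Type v} [AddCommGroup V] [Module ℂ V]
    (τ : MonoidAlgebra ℂ G →ₐ[ℂ] Module.End ℂ V)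
    (hsol : ∀ v : Fin (F.n (m + 1)) → V, mact τ (F.D (m + 1)) v = 0 →
      ∃ u : Fin (F.n m) → V, mact τ (F.D m) u = v)
    (b : Tup G (m + 1) → V) (hb : Eqv τ b) (hbd : ∀ e, dlt b e = 0) :
    ∃ c : Tup G m → V, Eqv τ c ∧ ∀ e, dlt c e = b e := by
  obtain ⟨ψ, hψ, hψ0, hψD⟩ := exists_psi F
  obtain ⟨u, hu⟩ := hsol (fun j => Finsupp.linearCombination ℂ b (Phi F (m + 1) j)) (by
    funext j
    rw [← mact_map (permAlg G (Tup G (m + 1))) τ (Finsupp.linearCombination ℂ b)
      (fun κ c => lc_perm τ b hb κ c), ← bdT_Phi, lc_cycle b hbd]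
    rfl)
  refine cob_of_pullback τ m (Rmap F ψ) (Rmap_eqv F ψ hψ) (tot_Rmap F ψ hψ0)
    (fun i hi e => bdT_Rmap F ψ hψD i hi e) b hb hbd (fun e => evl τ u (ψ m e)) (fun g e => ?_)
    (fun e => ?_)
  · show evl τ u (ψ m (g • e)) = _
    rw [hψ, evl_row]
  · rw [← dlt_map, ← hψD m (by omega), evl_vecMul, hu, Rmap,
      evl_map (permAlg G (Tup G (m + 1))) τ (Finsupp.linearCombination ℂ b)
      (fun κ c => lc_perm τ b hb κ c)]

section contraction

variable {E : Type v} [TopologicalSpace E] [MulAction G E]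
  [ContinuousConstSMul G E] {A : Type w} [Ring A] [Algebra ℂ A] (ρ : G →* A)

attribute [local instance] chC

lemma tot_lc {Y : Type v} {Z : Type w} (f : Y → (Z →₀ ℂ)) (hf : ∀ y, tot Z (f y) = 1)
    (c : Y →₀ ℂ) : tot Z (Finsupp.linearCombination ℂ f c) = tot Y c := by
  induction c using Finsupp.induction_linear with
  | zero => simp
  | add x y hx hy => rw [map_add, map_add, hx, hy, map_add]
  | single y a => rw [Finsupp.linearCombination_single, map_smul, hf, tot_single, smul_eq_mul,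
      mul_one]

lemma lc_map {Y : Type v} {M : Type w} [AddCommGroup M] [Module ℂ M] {M' : Type u}
    [AddCommGroup M'] [Module ℂ M'] (L : M →ₗ[ℂ] M') (f : Y → M) (c : Y →₀ ℂ) :
    L (Finsupp.linearCombination ℂ f c) = Finsupp.linearCombination ℂ (fun y => L (f y)) c := by
  simp [Finsupp.linearCombination_apply, Finsupp.sum, map_sum]

/-- If the homology with coefficients in `A` vanishes in degrees at most `k`, the complex
`A ⊗ F` has a contraction in these degrees. -/
theorem exists_contraction_of_trivial [PathConnectedSpace E]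
    (hfree : ∀ (g : G) (e : E), g • e = e → g = 1) {k : ℕ} (hE : HZero E k)
    (h : ∀ i, i ≤ k → ¬ Nontrivial (Hgy ρ E i)) (F : Res G k) :
    ∃ s : ∀ i, Matrix (Fin (F.n i)) (Fin (F.n (i + 1))) A,
      s 0 * (F.D 0).map (kap ρ) = 1 ∧
      ∀ i, i + 1 ≤ k → s (i + 1) * (F.D (i + 1)).map (kap ρ) + (F.D i).map (kap ρ) * s i = 1 := by
  classical
  obtain ⟨x₀⟩ : Nonempty E := inferInstance
  obtain ⟨r, hr, -⟩ := exists_equivariant (E := E) hfree x₀
  obtain ⟨φ, hφ, hφ0, hφ'⟩ := exists_phi (G := G) (E := E) k hE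
  obtain ⟨s, hs, hs0, hs'⟩ := exists_s ρ k h φ hφ hφ'
  obtain ⟨ψ, hψ, hψ0, hψD⟩ := exists_psi F
  -- the comparison map
  have hφl : ∀ i (κ : MonoidAlgebra ℂ G) (c : Tup G i →₀ ℂ),
      Finsupp.linearCombination ℂ (φ i) (permAlg G (Tup G i) κ c) =
        permAlg G (Sing i E) κ (Finsupp.linearCombination ℂ (φ i) c) :=
    fun i κ c => lc_perm (permAlg G (Sing i E)) (φ i) (hφ i) κ c
  have hsl : ∀ i (κ : MonoidAlgebra ℂ G) (c : Tup G i →₀ ℂ),
      Finsupp.linearCombination ℂ (s i) (permAlg G (Tup G i) κ c) =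
        chK ρ (i + 1) κ (Finsupp.linearCombination ℂ (s i) c) :=
    fun i κ c => lc_perm (chK ρ (i + 1)) (s i) (hs i) κ c
  let X : ∀ i, Fin (F.n i) → (Sing i E →₀ ℂ) := fun i l =>
    Finsupp.linearCombination ℂ (φ i) (Phi F i l)
  let Φ : ∀ i, Fin (F.n i) → (Tup G i →₀ ℂ) := fun i l => rp r i (X i l)
  have hX : ∀ i, i + 1 ≤ k → ∀ j, bdL E i (X (i + 1) j) =
      mact (permAlg G (Sing i E)) (F.D i) (X i) j := by
    intro i hi j
    show bdL E i (Finsupp.linearCombination ℂ (φ (i + 1)) (Phi F (i + 1) j)) = _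
    rw [lc_map]
    simp only [hφ' i hi]
    rw [← lc_bdT, bdT_Phi, mact_map (permAlg G (Tup G i)) (permAlg G (Sing i E))
      (Finsupp.linearCombination ℂ (φ i)) (hφl i)]
  have hΦ0 : ∀ l, Finsupp.linearCombination ℂ (fun _ => (1 : ℂ)) (Φ 0 l) = F.e l := by
    intro l
    show tot (Tup G 0) (rp r 0 (Finsupp.linearCombination ℂ (φ 0) (Phi F 0 l))) = _
    rw [tot_rp, tot_lc _ hφ0, tot_Phi]
  have hΦ : ∀ i, i + 1 ≤ k → ∀ j, bdT G i (Φ (i + 1) j) =
      mact (permAlg G (Tup G i)) (F.D i) (Φ i) j := by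
    intro i hi j
    show bdT G i (rp r (i + 1) (X (i + 1) j)) = _
    rw [← rp_bdL, hX i hi, mact_map (permAlg G (Sing i E)) (permAlg G (Tup G i)) (rp r i)
      (fun κ c => rp_perm r hr i κ c)]
  obtain ⟨Θ, hΘ0, hΘ⟩ := exists_theta F Φ hΦ0 hΦ ψ hψ hψ0 hψD
  -- the cochains with values in the free modules
  let W : ∀ i, Tup G i → (Fin (F.n i) → A) := fun i e l => kap ρ (ψ i e l)
  have hW : ∀ i g e, W i (g • e) = ρ g • W i e := by
    intro i g e
    funext l
    show kap ρ (ψ i (g • e) l) = ρ g * kap ρ (ψ i e l)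
    rw [hψ, rowAlg_apply, map_mul, kap_single]
  have hWD : ∀ i, i ≤ k → ∀ e, dlt (W i) e =
      Matrix.vecMul (W (i + 1) e) ((F.D i).map (kap ρ)) := by
    intro i hi e
    funext l
    have h1 : dlt (W i) e l = kap ρ (dlt (ψ i) e l) := by
      simp only [dlt, Finset.sum_apply, Pi.smul_apply, map_sum, map_smul]
      rfl
    rw [h1, ← hψD i hi]
    simp only [Matrix.vecMul, dotProduct, map_sum, map_mul, Matrix.map_apply]
    rfl
  have hprW : ∀ i, i ≤ k → ∀ x : Ch ρ E (i + 1),
      Matrix.vecMul (pr ρ r hr (W (i + 1)) (hW (i + 1)) x) ((F.D i).map (kap ρ)) =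
        pr ρ r hr (W i) (hW i) (difL ρ i x) := by
    intro i hi x
    rw [pr_dif]
    obtain ⟨c, rfl⟩ := cls_surj ρ _ x
    rw [pr_cls, pr_cls]
    induction c using Finsupp.induction_linear with
    | zero => simp
    | add x y hx hy => rw [map_add, Matrix.add_vecMul, hx, hy, map_add]
    | single σ a =>
      rw [prr_single, prr_single, Matrix.smul_vecMul, hWD i hi]
  -- the contraction
  let S : ∀ i, Matrix (Fin (F.n i)) (Fin (F.n (i + 1))) A := fun i =>
    Matrix.of fun j => pr ρ r hr (W (i + 1)) (hW (i + 1))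
      (Finsupp.linearCombination ℂ (s i) (Phi F i j))
  have hiot : ∀ i (j : Fin (F.n i)), pr ρ r hr (W i) (hW i) (iot ρ i (X i j)) =
      fun l => kap ρ (cmat F Φ ψ i j l) := by
    intro i j
    rw [← prL_apply, prL_iot]
    show Finsupp.linearCombination ℂ (W i) (Φ i j) =
      fun l => kap ρ (Finsupp.linearCombination ℂ (ψ i) (Φ i j) l)
    generalize Φ i j = c
    induction c using Finsupp.induction_linear with
    | zero => simp; rfl
    | add x y hx hy =>
      rw [map_add, hx, hy, map_add]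
      funext l
      simp
    | single e a =>
      rw [Finsupp.linearCombination_single, Finsupp.linearCombination_single]
      funext l
      simp [W]
  have hS0 : S 0 * (F.D 0).map (kap ρ) = (cmat F Φ ψ 0).map (kap ρ) := by
    refine funext fun j => ?_
    have h1 : (S 0 * (F.D 0).map (kap ρ)) j =
        Matrix.vecMul (S 0 j) ((F.D 0).map (kap ρ)) := rfl
    rw [h1]
    show Matrix.vecMul (pr ρ r hr (W 1) (hW 1) _) _ = _
    rw [hprW 0 (by omega), lc_map]
    simp only [hs0]
    rw [← lc_map]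
    exact hiot 0 j
  have hS : ∀ i, i + 1 ≤ k → S (i + 1) * (F.D (i + 1)).map (kap ρ) +
      (F.D i).map (kap ρ) * S i = (cmat F Φ ψ (i + 1)).map (kap ρ) := by
    intro i hi
    refine funext fun j => ?_
    have h1 : (S (i + 1) * (F.D (i + 1)).map (kap ρ) + (F.D i).map (kap ρ) * S i) j =
        Matrix.vecMul (S (i + 1) j) ((F.D (i + 1)).map (kap ρ)) +
        Matrix.vecMul ((F.D i).map (kap ρ) j) (S i) := rfl
    rw [h1]
    have h2 : Matrix.vecMul (S (i + 1) j) ((F.D (i + 1)).map (kap ρ)) =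
        pr ρ r hr (W (i + 1)) (hW (i + 1)) (difL ρ (i + 1)
          (Finsupp.linearCombination ℂ (s (i + 1)) (Phi F (i + 1) j))) := hprW (i + 1) (by omega) _
    have h3 : difL ρ (i + 1) (Finsupp.linearCombination ℂ (s (i + 1)) (Phi F (i + 1) j)) =
        iot ρ (i + 1) (X (i + 1) j) -
          mact (chK ρ (i + 1)) (F.D i)
            (fun l => Finsupp.linearCombination ℂ (s i) (Phi F i l)) j := by
      rw [← mact_map (permAlg G (Tup G i)) (chK ρ (i + 1)) (Finsupp.linearCombination ℂ (s i))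
        (hsl i), ← bdT_Phi, lc_bdT, lc_map, lc_map, eq_sub_iff_add_eq]
      have h4 : ∀ e, difL ρ (i + 1) (s (i + 1) e) + dlt (s i) e =
        iot ρ (i + 1) (φ (i + 1) e) := hs' i hi
      simp only [← h4]
      simp only [Finsupp.linearCombination_apply, Finsupp.sum, smul_add, Finset.sum_add_distrib]
    have h5 : pr ρ r hr (W (i + 1)) (hW (i + 1)) (mact (chK ρ (i + 1)) (F.D i)
            (fun l => Finsupp.linearCombination ℂ (s i) (Phi F i l)) j) =
        Matrix.vecMul ((F.D i).map (kap ρ) j) (S i) := by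
      rw [mact, map_sum]
      funext q
      rw [Finset.sum_apply]
      refine Finset.sum_congr rfl fun l _ => ?_
      rw [chK_apply, pr_lsm]
      rfl
    rw [h2, h3, map_sub, h5, hiot, sub_add_cancel]
    rfl
  have hmap : ∀ (a b c : ℕ) (P : Matrix (Fin a) (Fin b) (MonoidAlgebra ℂ G))
      (Q : Matrix (Fin b) (Fin c) (MonoidAlgebra ℂ G)),
      (P * Q).map (kap ρ) = P.map (kap ρ) * Q.map (kap ρ) := fun a b c P Q => Matrix.map_mul
  have hone : ∀ a : ℕ, (1 : Matrix (Fin a) (Fin a) (MonoidAlgebra ℂ G)).map (kap ρ) = 1 :=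
    fun a => Matrix.map_one _ (map_zero _) (map_one _)
  refine ⟨fun i => S i - (Θ i).map (kap ρ), ?_, fun i hi => ?_⟩
  · have h1 := congrArg (fun P => P.map (kap ρ)) hΘ0
    simp only [hmap] at h1
    rw [Matrix.sub_mul, hS0, h1, Matrix.map_sub _ (map_sub _), hone]
    abel
  · have h1 := congrArg (fun P => P.map (kap ρ)) (hΘ i hi)
    simp only [Matrix.map_add _ (map_add (kap ρ)), hmap, Matrix.map_sub _ (map_sub (kap ρ)),
      hone] at h1
    rw [Matrix.sub_mul, Matrix.mul_sub]
    have h2 : S (i + 1) * (F.D (i + 1)).map (kap ρ) -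
        (Θ (i + 1)).map (kap ρ) * (F.D (i + 1)).map (kap ρ) +
        ((F.D i).map (kap ρ) * S i - (F.D i).map (kap ρ) * (Θ i).map (kap ρ)) =
        (S (i + 1) * (F.D (i + 1)).map (kap ρ) + (F.D i).map (kap ρ) * S i) -
        ((Θ (i + 1)).map (kap ρ) * (F.D (i + 1)).map (kap ρ) +
          (F.D i).map (kap ρ) * (Θ i).map (kap ρ)) := by abel
    rw [h2, hS i hi, h1]
    abel

end contraction

end Pool.Agent.LibZIS
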