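import Mathlib

/-!
The reduced group C*-algebra of a discrete group, the chain complex
`C*_r(G) ⊗_{ℤG} C_*(E)` of a space `E` with an action of `G`, and its homology.
-/

set_option autoImplicit false

namespace Pool.Agent.LibZIS

universe u v w

/-- The Hilbert space `ℓ²(X)`. -/
def L2 (X : Type u) : Type u := lp (fun _ : X => ℂ) 2

noncomputable instance (X : Type u) : NormedAddCommGroup (L2 X) := lp.normedAddCommGroup

noncomputable instance (X : Type u) : NormedSpace ℂ (L2 X) := lp.instNormedSpace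

/-- The translate `x ↦ ξ (g⁻¹ x)` of a vector `ξ` of `ℓ²(X)`, for a `G`-set `X`. -/
noncomputable def shift {G : Type u} [Group G] {X : Type v} [MulAction G X] (g : G)
    (ξ : L2 X) : L2 X :=
  ⟨fun x => ξ.1 (g⁻¹ • x), memℓp_gen (by
    have h := (memℓp_gen_iff (by simp)).1 ξ.2
    exact ((MulAction.toPerm g⁻¹).summable_iff (f := fun x => ‖ξ.1 x‖ ^ (2 : ENNReal).toReal)).2
      h)⟩

lemma norm_shift {G : Type u} [Group G] {X : Type v} [MulAction G X] (g : G) (ξ : L2 X) :
    ‖shift g ξ‖ = ‖ξ‖ := by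
  have hp : (0 : ℝ) < (2 : ENNReal).toReal := by simp
  refine (lp.norm_eq_tsum_rpow hp (shift g ξ)).trans
    (Eq.trans ?_ (lp.norm_eq_tsum_rpow hp ξ).symm)
  congr 1
  exact (MulAction.toPerm g⁻¹).tsum_eq (fun x => ‖ξ.1 x‖ ^ (2 : ENNReal).toReal)

/-- The bounded operators on `ℓ²(G)`. -/
def Op (G : Type u) : Type u := L2 G →L[ℂ] L2 G

noncomputable instance (G : Type u) : NormedRing (Op G) := ContinuousLinearMap.toNormedRing

noncomputable instance (G : Type u) : NormedAlgebra ℂ (Op G) :=
  ContinuousLinearMap.toNormedAlgebra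

instance (G : Type u) : @IsSemitopologicalSemiring (Op G) _
    (NonAssocSemiring.toNonUnitalNonAssocSemiring) :=
  (inferInstance : IsTopologicalSemiring (Op G)).toIsSemitopologicalSemiring

/-- The left translation of `ℓ²(G)` by `g`. -/
noncomputable def tr {G : Type u} [Group G] (g : G) : Op G :=
  (LinearMap.mkContinuous ⟨⟨shift g, fun _ _ => rfl⟩, fun _ _ => rfl⟩ 1
    (fun ξ => by rw [one_mul]; exact (norm_shift g ξ).le) : L2 G →L[ℂ] L2 G)

/-- The reduced group C*-algebra of `G`, as a subalgebra of the bounded operators on `ℓ²(G)`: the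
closure, in the operator norm, of the algebra generated by (equivalently, of the linear span of)
the left translations. -/
noncomputable def crAlg (G : Type u) [Group G] : Subalgebra ℂ (Op G) :=
  (Algebra.adjoin ℂ (Set.range (tr : G → Op G))).topologicalClosure

/-- The reduced group C*-algebra of `G`. -/
def Cr (G : Type u) [Group G] : Type u := crAlg G

noncomputable instance (G : Type u) [Group G] : Ring (Cr G) := (crAlg G).toRing

/-- The group elements in the reduced group C*-algebra. -/
noncomputable def lam (G : Type u) [Group G] : G →* Cr G where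
  toFun g := (⟨tr g, subset_closure (Algebra.subset_adjoin ⟨g, rfl⟩)⟩ : crAlg G)
  map_one' := Subtype.ext (by
    refine ContinuousLinearMap.ext fun ξ => Subtype.ext (funext fun x => ?_)
    show ξ.1 ((1 : G)⁻¹ • x) = ξ.1 x
    rw [inv_one, one_smul])
  map_mul' g h := Subtype.ext (by
    refine ContinuousLinearMap.ext fun ξ => Subtype.ext (funext fun x => ?_)
    show ξ.1 ((g * h)⁻¹ • x) = ξ.1 (h⁻¹ • g⁻¹ • x)
    rw [mul_inv_rev, mul_smul])

/-- Singular `n`-simplices. -/
abbrev Sing (n : ℕ) (E : Type v) [TopologicalSpace E] := C(stdSimplex ℝ (Fin (n + 1)), E)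

/-- The `i`-th face of a singular simplex. -/
noncomputable def face {E : Type v} [TopologicalSpace E] {n : ℕ} (i : Fin (n + 2))
    (s : Sing (n + 1) E) : Sing n E :=
  s.comp ⟨stdSimplex.map i.succAbove, stdSimplex.continuous_map _⟩

/-- The translate of a singular simplex. -/
def act {G : Type u} [Group G] {E : Type v} [TopologicalSpace E] [MulAction G E]
    [ContinuousConstSMul G E] {n : ℕ} (g : G) (s : Sing n E) : Sing n E :=
  ⟨fun t => g • s t, s.continuous.const_smul g⟩

section complex

variable {G : Type u} [Group G] {A : Type w} [Ring A] (ρ : G →* A)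
  (E : Type v) [TopologicalSpace E] [MulAction G E] [ContinuousConstSMul G E]

/-- The relations `m ⊗ g s = m g ⊗ s` defining the tensor product over the group ring. -/
noncomputable def rel (n : ℕ) : AddSubgroup (Sing n E →₀ A) :=
  AddSubgroup.closure {c | ∃ (g : G) (s : Sing n E) (m : A),
    c = Finsupp.single (act g s) m - Finsupp.single s (m * ρ g)}

/-- The group `A ⊗_{ℤG} C_n(E)`: finite formal sums of singular simplices with coefficients
in `A`, modulo the relations `m ⊗ g s = m g ⊗ s`. -/
abbrev Ch (n : ℕ) := (Sing n E →₀ A) ⧸ rel ρ E n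

/-- The alternating sum of the faces. -/
noncomputable def bd (A : Type w) [Ring A] (E : Type v) [TopologicalSpace E] (n : ℕ) :
    (Sing (n + 1) E →₀ A) →+ (Sing n E →₀ A) :=
  ∑ i : Fin (n + 2), (-1 : ℤ) ^ (i : ℕ) • Finsupp.mapDomain.addMonoidHom (face i)

lemma bd_single (A : Type w) [Ring A] (E : Type v) [TopologicalSpace E] (n : ℕ)
    (s : Sing (n + 1) E) (m : A) :
    bd A E n (Finsupp.single s m) =
      ∑ i : Fin (n + 2), (-1 : ℤ) ^ (i : ℕ) • Finsupp.single (face i s) m := by
  simp [bd, Finsupp.mapDomain.addMonoidHom, Finsupp.mapDomain_single]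

lemma bd_rel (n : ℕ) : rel ρ E (n + 1) ≤ (rel ρ E n).comap (bd A E n) := by
  rw [rel, AddSubgroup.closure_le]
  rintro _ ⟨g, s, m, rfl⟩
  show bd A E n _ ∈ rel ρ E n
  rw [map_sub, bd_single, bd_single, ← Finset.sum_sub_distrib]
  refine AddSubgroup.sum_mem _ fun i _ => ?_
  rw [← zsmul_sub]
  have h : Finsupp.single (face i (act g s)) m - Finsupp.single (face i s) (m * ρ g) ∈
      rel ρ E n := AddSubgroup.subset_closure ⟨g, face i s, m, rfl⟩
  exact AddSubgroup.zsmul_mem _ h _

/-- The differential of `A ⊗_{ℤG} C_*(E)`. -/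
noncomputable def dif (n : ℕ) : Ch ρ E (n + 1) →+ Ch ρ E n :=
  QuotientAddGroup.map _ _ (bd A E n) (bd_rel ρ E n)

/-- The homology groups of the complex `A ⊗_{ℤG} C_*(E)`. -/
def Hgy : ℕ → Type (max v w)
  | 0 => Ch ρ E 0 ⧸ (dif ρ E 0).range
  | (n + 1) => (dif ρ E n).ker ⧸ ((dif ρ E (n + 1)).range.addSubgroupOf (dif ρ E n).ker)

end complex

/-- Følner's condition: the group `C` is amenable. -/
def Amenable (C : Type u) [Group C] : Prop :=
  ∀ (S : Finset C) (ε : ℝ), 0 < ε → ∃ F : Finset C, F.Nonempty ∧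
    ∀ s ∈ S, (((F : Set C) \ {x | s * x ∈ F}).ncard : ℝ) ≤ ε * F.card

end Pool.Agent.LibZIS
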