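import Pool.Agent.LibZIS.EvalRec

/-!
Cocycles detected on cycles: commuting pairs, recurrent sets, sets of subexponential growth.
-/

set_option autoImplicit false

namespace Pool.Agent.LibZIS

universe u v w

section group

variable {G : Type u} [Group G] {X : Type w} [MulAction G X]

lemma evO_tw_set {len : X → ℝ} (hlen : Raw.BddDisp G len) (δ : NNReal) (O : Set X)
    (hO : Summable fun y : O => Real.exp (-(2 * (δ : ℝ) * len y))) (s : G)
    (hs : ∀ x : X, s • x ∈ O ↔ x ∈ O) (ξ : Raw.L2 X) :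
    evO O hO (Raw.tw hlen δ s ξ) = evO O hO ξ := by
  rw [evO_apply, evO_apply]
  have hs' : ∀ x : X, s⁻¹ • x ∈ O ↔ x ∈ O := by
    intro x
    rw [← hs (s⁻¹ • x), smul_inv_smul]
  let σ : Equiv.Perm O :=
    { toFun := fun y => ⟨s⁻¹ • (y : X), (hs' y).2 y.2⟩
      invFun := fun y => ⟨s • (y : X), (hs y).2 y.2⟩
      left_inv := fun y => Subtype.ext (smul_inv_smul s (y : X))
      right_inv := fun y => Subtype.ext (inv_smul_smul s (y : X)) }
  have h1 : ∀ y : O, (Real.exp (-(δ * len y)) : ℂ) * Raw.tw hlen δ s ξ y =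
      (Real.exp (-(δ * len (σ y : X))) : ℂ) * ξ (σ y : X) := by
    intro y
    have h2 : (σ y : X) = s⁻¹ • (y : X) := rfl
    rw [h2, Raw.tw_apply, ← mul_assoc, ← Complex.ofReal_mul, ← Real.exp_add]
    congr 3
    ring
  rw [tsum_congr h1]
  exact σ.tsum_eq (fun y : O => (Real.exp (-(δ * len y)) : ℂ) * ξ y)

lemma inv_functional_set {m : ℕ} (S : Set G) (Λ : Tup G m → ℂ)
    (hΛ : ∀ a ∈ S, ∀ e, Λ (a • e) = Λ e) (c : Tup G m →₀ ℂ)
    (hc : c ∈ Submodule.span ℂ {c | ∃ a ∈ S, ∃ e : Tup G m,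
      c = Finsupp.single (a • e) (1 : ℂ) - Finsupp.single e 1}) :
    Finsupp.linearCombination ℂ Λ c = 0 := by
  induction hc using Submodule.span_induction with
  | mem x hx =>
    obtain ⟨a, ha, e, rfl⟩ := hx
    rw [map_sub, Finsupp.linearCombination_single, Finsupp.linearCombination_single,
      hΛ a ha, sub_self]
  | zero => simp
  | add x y _ _ hx hy => rw [map_add, hx, hy, add_zero]
  | smul z x _ hx => rw [map_smul, hx, smul_zero]

variable {E : Type v} [TopologicalSpace E] [PathConnectedSpace E] [MulAction G E]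
  [ContinuousConstSMul G E]

/-- cocycles detected on cycles over sets of subexponential growth. -/
theorem of_subexp_set (hfree : ∀ (g : G) (e : E), g • e = e → g = 1) {m : ℕ}
    (hE : HZero E (m + 1)) (F : Res G (m + 1))
    (hst : ∀ x : X, Amenable (MulAction.stabilizer G x)) {len : X → ℝ}
    (hlen : ∀ g : G, ∃ c : ℝ, ∀ x : X, |len (g • x) - len x| ≤ c)
    (b : Tup G (m + 1) → X → ℂ)
    (hdec : ∃ δ₀ : ℝ, 0 < δ₀ ∧ ∀ e, Summable fun x => Real.exp (δ₀ * |len x|) * ‖b e x‖ ^ 2)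
    (hb : ∀ (g : G) (e : Tup G (m + 1)) (x : X), b (g • e) x = b e (g⁻¹ • x))
    (hbd : ∀ e, dlt b e = 0) (S : Set G) (O : Set X)
    (hO : ∀ s ∈ S, ∀ x : X, s • x ∈ O ↔ x ∈ O)
    (hsum : ∀ δ : ℝ, 0 < δ → Summable fun y : O => Real.exp (-(δ * len (y : X))))
    (z : Tup G (m + 1) →₀ ℂ)
    (hz : bdT G m z ∈ Submodule.span ℂ {c | ∃ a ∈ S, ∃ e : Tup G m,
      c = Finsupp.single (a • e) (1 : ℂ) - Finsupp.single e 1})
    (hne : (∑' y : O, z.sum fun e a => a * b e y) ≠ 0) :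
    ∃ i, i ≤ m + 1 ∧ Nontrivial (Hgy (lam G) E i) := by
  by_contra hcon
  push Not at hcon
  have htriv : ∀ i, i ≤ m + 1 → ¬ Nontrivial (Hgy (lam G) E i) := fun i hi => by
    have := hcon i hi
    rwa [not_nontrivial_iff_subsingleton]
  obtain ⟨δ₀, hδ₀, hdec⟩ := hdec
  have hlen' : Raw.BddDisp G len := hlen
  have hev := weighted_coboundary hfree hE htriv F hst hlen'
  obtain ⟨δ, hδ0, hδs, hδ⟩ : ∃ δ : NNReal, 0 < δ ∧ 2 * (δ : ℝ) ≤ δ₀ ∧
      ∀ b : Tup G (m + 1) → Raw.L2 X,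
      (∀ g e, b (g • e) = Raw.tw hlen' δ g (b e)) → (∀ e, dlt b e = 0) →
      ∃ c : Tup G m → Raw.L2 X, (∀ g e, c (g • e) = Raw.tw hlen' δ g (c e)) ∧
        ∀ e, dlt c e = b e := by
    rw [Metric.eventually_nhds_iff] at hev
    obtain ⟨ε, hε, h⟩ := hev
    have hε2 : 0 < min ε δ₀ / 2 := half_pos (lt_min hε hδ₀)
    refine ⟨Real.toNNReal (min ε δ₀ / 2), Real.toNNReal_pos.2 hε2, ?_, h ?_⟩
    · rw [Real.coe_toNNReal _ hε2.le]
      have := min_le_right ε δ₀
      linarith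
    · rw [NNReal.dist_eq, NNReal.coe_zero, sub_zero, Real.coe_toNNReal _ hε2.le,
        abs_of_pos hε2]
      have := min_le_left ε δ₀
      linarith
  have hbs : ∀ e, Summable fun x => Real.exp (2 * δ * len x) * ‖b e x‖ ^ 2 :=
    fun e => summable_interp δ.2 hδs (hdec e)
  obtain ⟨c, hc1, hc2⟩ := hδ (fun e => wf len δ (b e) (hbs e))
    (fun g e => (tw_wf hlen' δ g _ _ (fun x => hb g e x) _ _).symm)
    (fun e => by
      ext x
      rw [← crdL_apply, dlt_map]
      have h1 : (fun e => crdL x (wf len δ (b e) (hbs e))) =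
          fun e => (Real.exp (δ * len x) : ℂ) • b e x := rfl
      rw [h1]
      have h2 : dlt (fun e => (Real.exp (δ * len x) : ℂ) • b e x) e =
          (Real.exp (δ * len x) : ℂ) • dlt b e x := by
        simp only [dlt, Finset.sum_apply, Pi.smul_apply, Finset.smul_sum]
        exact Finset.sum_congr rfl fun j _ => smul_comm _ _ _
      rw [h2, hbd, Pi.zero_apply, smul_zero]
      rfl)
  have hδ2 : (0 : ℝ) < 2 * δ := by
    have : (0 : ℝ) < δ := NNReal.coe_pos.2 hδ0
    linarith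
  have hOs : Summable fun y : O => Real.exp (-(2 * (δ : ℝ) * len (y : X))) :=
    hsum (2 * δ) hδ2
  apply hne
  have h0 : Finsupp.linearCombination ℂ (fun e => evO O hOs (c e)) (bdT G m z) = 0 :=
    inv_functional_set S _
      (fun a ha e => by rw [hc1, evO_tw_set hlen' δ O hOs a (hO a ha)]) _ hz
  rw [lc_bdT] at h0
  have h1 : dlt (fun e => evO O hOs (c e)) = fun e => ∑' y : O, b e y := by
    funext e
    rw [← dlt_map, hc2, evO_wf]
  rw [h1, Finsupp.linearCombination_apply, Finsupp.sum] at h0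
  rw [← h0]
  simp only [Finsupp.sum]
  rw [Summable.tsum_finsetSum fun e _ =>
    (summable_O O hOs (b e) (hbs e)).mul_left _]
  refine Finset.sum_congr rfl fun e _ => ?_
  rw [tsum_mul_left, smul_eq_mul]

end group

end Pool.Agent.LibZIS
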