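import Pool.Agent.LibZIS.Resol

/-!
Equivariant maps and homotopies from the standard resolution.
-/

set_option autoImplicit false

namespace Pool.Agent.LibZIS

universe u v w

section equivariant

variable {G : Type u} [Group G]

/-- equivariance of a homogeneous cochain. -/
def Eqv {i : ℕ} {M : Type v} [AddCommGroup M] [Module ℂ M]
    (α : MonoidAlgebra ℂ G →ₐ[ℂ] Module.End ℂ M) (f : Tup G i → M) : Prop :=
  ∀ g e, f (g • e) = α (MonoidAlgebra.single g 1) (f e)

lemma single_mul_one (g h : G) : (MonoidAlgebra.single (g * h) 1 : MonoidAlgebra ℂ G) =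
    MonoidAlgebra.single g 1 * MonoidAlgebra.single h 1 := by simp

lemma exists_eqv_choice {i : ℕ} {M : Type v} [AddCommGroup M] [Module ℂ M]
    {M' : Type w} [AddCommGroup M'] [Module ℂ M']
    (α : MonoidAlgebra ℂ G →ₐ[ℂ] Module.End ℂ M) (α' : MonoidAlgebra ℂ G →ₐ[ℂ] Module.End ℂ M')
    (d : M' →ₗ[ℂ] M)
    (hd : ∀ g x, d (α' (MonoidAlgebra.single g 1) x) = α (MonoidAlgebra.single g 1) (d x))
    (T : Tup G i → M) (hT : Eqv α T) (h : ∀ e, ∃ y, d y = T e) :
    ∃ H : Tup G i → M', Eqv α' H ∧ ∀ e, d (H e) = T e := by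
  choose b hb using h
  refine ⟨fun e => α' (MonoidAlgebra.single (e 0) 1) (b ((e 0)⁻¹ • e)), fun g e => ?_,
    fun e => ?_⟩
  · have h1 : (g • e) 0 = g * e 0 := rfl
    show α' (MonoidAlgebra.single ((g • e) 0) 1) (b (((g • e) 0)⁻¹ • g • e)) = _
    rw [h1, single_mul_one, map_mul, mul_inv_rev, mul_smul, inv_smul_smul]
    rfl
  · show d (α' (MonoidAlgebra.single (e 0) 1) (b ((e 0)⁻¹ • e))) = _
    rw [hd, hb, ← hT, smul_inv_smul]

variable (M : ℕ → Type v) [∀ i, AddCommGroup (M i)] [∀ i, Module ℂ (M i)]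
  (α : ∀ i, MonoidAlgebra ℂ G →ₐ[ℂ] Module.End ℂ (M i)) (d : ∀ i, M (i + 1) →ₗ[ℂ] M i)
  (hd : ∀ i g x, d i (α (i + 1) (MonoidAlgebra.single g 1) x) =
    α i (MonoidAlgebra.single g 1) (d i x))

include hd in
/-- equivariant chain maps from the standard resolution. -/
lemma exists_lift (k : ℕ) (f0 : Tup G 0 → M 0) (hf0 : Eqv (α 0) f0)
    (h0 : ∀ e : Tup G 1, ∃ y, d 0 y = dlt f0 e)
    (hex : ∀ i, i + 2 ≤ k → ∀ x : M (i + 1), d i x = 0 → ∃ y, d (i + 1) y = x) :
    ∃ f : ∀ i, Tup G i → M i, (∀ i, Eqv (α i) (f i)) ∧ f 0 = f0 ∧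
      ∀ i, i + 1 ≤ k → ∀ e, d i (f (i + 1) e) = dlt (f i) e := by
  classical
  induction k with
  | zero =>
    refine ⟨Function.update (fun _ _ => 0) 0 f0, fun i => ?_, ?_, fun i hi => absurd hi (by omega)⟩
    · rcases Nat.eq_zero_or_pos i with hi | hi
      · subst hi
        rw [Function.update_self]
        exact hf0
      · rw [Function.update_of_ne (by omega)]
        intro g e
        simp
    · rw [Function.update_self]
  | succ k ih =>
    obtain ⟨f, h1, h2, h3⟩ := ih (fun i hi => hex i (by omega))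
    have hT : Eqv (α k) (dlt (f k)) := fun g e => dlt_smul (α k) (f k) (h1 k) g e
    have hex' : ∀ e : Tup G (k + 1), ∃ y, d k y = dlt (f k) e := by
      intro e
      rcases Nat.eq_zero_or_pos k with hk | hk
      · subst hk
        rw [h2]
        exact h0 e
      · obtain ⟨m, rfl⟩ : ∃ m, k = m + 1 := ⟨k - 1, by omega⟩
        refine hex m (by omega) _ ?_
        rw [dlt_map]
        simp only [h3 m le_rfl]
        exact dlt_dlt _ e
    obtain ⟨H, hH1, hH2⟩ := exists_eqv_choice (α k) (α (k + 1)) (d k) (hd k) _ hT hex'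
    refine ⟨Function.update f (k + 1) H, fun i => ?_, ?_, fun i hi e => ?_⟩
    · by_cases hi : i = k + 1
      · subst hi
        rw [Function.update_self]
        exact hH1
      · rw [Function.update_of_ne hi]
        exact h1 i
    · rw [Function.update_of_ne (by omega)]
      exact h2
    · by_cases hik : i = k
      · subst hik
        rw [Function.update_self, Function.update_of_ne (by omega)]
        exact hH2 e
      · rw [Function.update_of_ne (by omega), Function.update_of_ne (by omega)]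
        exact h3 i (by omega) e

include hd in
/-- equivariant null homotopies. -/
lemma exists_hpy (k : ℕ) (N : ∀ i, Tup G i → M i) (hN : ∀ i, Eqv (α i) (N i))
    (hN' : ∀ i, i + 1 ≤ k → ∀ e, d i (N (i + 1) e) = dlt (N i) e)
    (h0 : ∀ e, ∃ y, d 0 y = N 0 e)
    (hex : ∀ i, i + 1 ≤ k → ∀ x : M (i + 1), d i x = 0 → ∃ y, d (i + 1) y = x) :
    ∃ H : ∀ i, Tup G i → M (i + 1), (∀ i, Eqv (α (i + 1)) (H i)) ∧ (∀ e, d 0 (H 0 e) = N 0 e) ∧
      ∀ i, i + 1 ≤ k → ∀ e, d (i + 1) (H (i + 1) e) + dlt (H i) e = N (i + 1) e := by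
  classical
  induction k with
  | zero =>
    obtain ⟨H, hH1, hH2⟩ := exists_eqv_choice (α 0) (α 1) (d 0) (hd 0) _ (hN 0) h0
    refine ⟨Function.update (fun _ _ => 0) 0 H, fun i => ?_, ?_, fun i hi => absurd hi (by omega)⟩
    · rcases Nat.eq_zero_or_pos i with hi | hi
      · subst hi
        rw [Function.update_self]
        exact hH1
      · rw [Function.update_of_ne (by omega)]
        intro g e
        simp
    · rw [Function.update_self]
      exact hH2
  | succ k ih =>
    obtain ⟨H, h1, h2, h3⟩ := ih (fun i hi => hN' i (by omega)) (fun i hi => hex i (by omega))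
    have hT : Eqv (α (k + 1)) (fun e => N (k + 1) e - dlt (H k) e) := by
      intro g e
      show N (k + 1) (g • e) - dlt (H k) (g • e) = _
      rw [hN (k + 1), dlt_smul (α (k + 1)) (H k) (h1 k) g e, map_sub]
    have hex' : ∀ e : Tup G (k + 1), ∃ y, d (k + 1) y = N (k + 1) e - dlt (H k) e := by
      intro e
      refine hex k le_rfl _ ?_
      rw [map_sub, hN' k le_rfl, dlt_map]
      rcases Nat.eq_zero_or_pos k with hk | hk
      · subst hk
        simp only [h2]
        exact sub_self _
      · obtain ⟨m, rfl⟩ : ∃ m, k = m + 1 := ⟨k - 1, by omega⟩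
        have h4 : (fun e => d (m + 1) (H (m + 1) e)) = fun e => N (m + 1) e - dlt (H m) e := by
          funext e
          rw [← h3 m le_rfl e, add_sub_cancel_right]
        rw [h4]
        have h5 : dlt (fun e => N (m + 1) e - dlt (H m) e) e =
            dlt (N (m + 1)) e - dlt (dlt (H m)) e := by
          simp only [dlt, smul_sub, Finset.sum_sub_distrib]
        rw [h5, dlt_dlt, sub_zero, sub_self]
    obtain ⟨H', hH1, hH2⟩ := exists_eqv_choice (α (k + 1)) (α (k + 2)) (d (k + 1)) (hd (k + 1))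
      _ hT hex'
    refine ⟨Function.update H (k + 1) H', fun i => ?_, ?_, fun i hi e => ?_⟩
    · by_cases hi : i = k + 1
      · subst hi
        rw [Function.update_self]
        exact hH1
      · rw [Function.update_of_ne hi]
        exact h1 i
    · rw [Function.update_of_ne (by omega)]
      exact h2
    · by_cases hik : i = k
      · subst hik
        rw [Function.update_self, Function.update_of_ne (by omega), hH2]
        abel
      · rw [Function.update_of_ne (by omega), Function.update_of_ne (by omega)]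
        exact h3 i (by omega) e

end equivariant

section standard

variable {G : Type u} [Group G]

/-- total coefficient of a chain. -/
noncomputable def tot (Y : Type v) : (Y →₀ ℂ) →ₗ[ℂ] ℂ :=
  Finsupp.linearCombination ℂ (fun _ => (1 : ℂ))

lemma tot_single (Y : Type v) (y : Y) (a : ℂ) : tot Y (Finsupp.single y a) = a := by
  simp [tot]

lemma tot_perm {Y : Type v} [MulAction G Y] (κ : MonoidAlgebra ℂ G) (c : Y →₀ ℂ) :
    tot Y (permAlg G Y κ c) = aug G κ * tot Y c := by
  induction κ using MonoidAlgebra.induction_linear with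
  | zero => simp
  | add x y hx hy => rw [map_add, LinearMap.add_apply, map_add, hx, hy, map_add, add_mul]
  | single g z =>
    induction c using Finsupp.induction_linear with
    | zero => simp
    | add x y hx hy => rw [map_add, map_add, hx, hy, map_add, mul_add]
    | single y a => rw [permAlg_single, tot_single, tot_single, aug_single]

/-- An equivariant chain map from the standard resolution to itself over the identity of `ℂ` is
homotopic to the identity. -/
lemma exists_hpy_id (k : ℕ) (R : ∀ i, Tup G i → (Tup G i →₀ ℂ))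
    (hR : ∀ i, Eqv (permAlg G (Tup G i)) (R i)) (hR0 : ∀ e, tot (Tup G 0) (R 0 e) = 1)
    (hR' : ∀ i, i + 1 ≤ k → ∀ e, bdT G i (R (i + 1) e) = dlt (R i) e) :
    ∃ h : ∀ i, Tup G i → (Tup G (i + 1) →₀ ℂ), (∀ i, Eqv (permAlg G (Tup G (i + 1))) (h i)) ∧
      (∀ e, bdT G 0 (h 0 e) = R 0 e - Finsupp.single e 1) ∧
      ∀ i, i + 1 ≤ k → ∀ e, bdT G (i + 1) (h (i + 1) e) + dlt (h i) e =
        R (i + 1) e - Finsupp.single e 1 := by
  refine exists_hpy (fun i => Tup G i →₀ ℂ) (fun i => permAlg G (Tup G i)) (fun i => bdT G i)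
    (fun i g x => bdT_perm _ _) k (fun i e => R i e - Finsupp.single e 1) (fun i g e => ?_)
    (fun i hi e => ?_) (fun e => ?_) (fun i hi x hx => ?_)
  · show R i (g • e) - Finsupp.single (g • e) 1 = _
    rw [map_sub, hR i, permAlg_single, one_mul]
  · show bdT G i (R (i + 1) e - Finsupp.single e 1) = dlt (fun e => R i e - Finsupp.single e 1) e
    rw [map_sub, hR' i hi]
    have h1 : bdT G i (Finsupp.single e 1) = dlt (fun e => Finsupp.single e (1 : ℂ)) e := by
      rw [bdT, Finsupp.linearCombination_single, one_smul]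
    rw [h1]
    simp only [dlt, smul_sub, Finset.sum_sub_distrib]
  · refine ⟨coneT G 0 (R 0 e - Finsupp.single e 1), ?_⟩
    rw [bdT_cone_zero]
    have h1 : Finsupp.linearCombination ℂ (fun _ => (1 : ℂ)) (R 0 e - Finsupp.single e 1) = 0 := by
      have h2 : tot (Tup G 0) (R 0 e - Finsupp.single e 1) = 0 := by
        rw [map_sub, hR0, tot_single, sub_self]
      exact h2
    rw [h1, Finsupp.single_zero, sub_zero]
  · refine ⟨coneT G (i + 1) x, ?_⟩
    rw [bdT_cone_succ, hx, map_zero, sub_zero]

/-- cocycles kill cycles of positive degree. -/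
lemma lc_cycle {V : Type v} [AddCommGroup V] [Module ℂ V] {i : ℕ} (b : Tup G (i + 1) → V)
    (hb : ∀ e, dlt b e = 0) (c : Tup G (i + 2) →₀ ℂ) :
    Finsupp.linearCombination ℂ b (bdT G (i + 1) c) = 0 := by
  rw [lc_bdT]
  have h1 : dlt b = 0 := funext hb
  rw [h1]
  simp

/-- A cocycle pulled back along an equivariant chain map over the identity is cohomologous to the
cocycle. -/
lemma cob_of_pullback {V : Type v} [AddCommGroup V] [Module ℂ V]
    (τ : MonoidAlgebra ℂ G →ₐ[ℂ] Module.End ℂ V) (m : ℕ)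
    (R : ∀ i, Tup G i → (Tup G i →₀ ℂ))
    (hR : ∀ i, Eqv (permAlg G (Tup G i)) (R i)) (hR0 : ∀ e, tot (Tup G 0) (R 0 e) = 1)
    (hR' : ∀ i, i + 1 ≤ m + 1 → ∀ e, bdT G i (R (i + 1) e) = dlt (R i) e)
    (b : Tup G (m + 1) → V) (hb : Eqv τ b) (hbd : ∀ e, dlt b e = 0)
    (c : Tup G m → V) (hc : Eqv τ c)
    (hcb : ∀ e, dlt c e = Finsupp.linearCombination ℂ b (R (m + 1) e)) :
    ∃ c' : Tup G m → V, Eqv τ c' ∧ ∀ e, dlt c' e = b e := by
  obtain ⟨h, h1, _, h3⟩ := exists_hpy_id (m + 1) R hR hR0 hR'
  refine ⟨fun e => c e - Finsupp.linearCombination ℂ b (h m e), fun g e => ?_, fun e => ?_⟩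
  · show c (g • e) - Finsupp.linearCombination ℂ b (h m (g • e)) = _
    rw [hc, h1 m, lc_perm τ b hb, map_sub]
  · have h4 : dlt (fun e => c e - Finsupp.linearCombination ℂ b (h m e)) e =
        dlt c e - dlt (fun e => Finsupp.linearCombination ℂ b (h m e)) e := by
      simp only [dlt, smul_sub, Finset.sum_sub_distrib]
    rw [h4, hcb, ← dlt_map]
    have h5 := congrArg (Finsupp.linearCombination ℂ b) (h3 m le_rfl e)
    rw [map_add, lc_cycle b hbd, zero_add, map_sub, Finsupp.linearCombination_single,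
      one_smul] at h5
    rw [h5]
    abel

end standard

end Pool.Agent.LibZIS
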