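import Pool.Agent.LibZIS.Approx

/-!
Evaluation of cocycles on cycles of subgroups with orbits of subexponential growth.
-/

set_option autoImplicit false

namespace Pool.Agent.LibZIS

universe u v w

section vectors

variable {X : Type w}

/-- the weighted vector of a function with decay. -/
noncomputable def wf (len : X → ℝ) (δ : ℝ) (f : X → ℂ)
    (hf : Summable fun x => Real.exp (2 * δ * len x) * ‖f x‖ ^ 2) : Raw.L2 X :=
  ⟨fun x => (Real.exp (δ * len x) : ℂ) * f x, memℓp_gen (by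
    refine hf.congr fun x => ?_
    rw [norm_mul, Complex.norm_real, Real.norm_eq_abs, Real.abs_exp]
    simp only [ENNReal.toReal_ofNat, Real.rpow_ofNat]
    rw [mul_pow, ← Real.exp_nat_mul]
    congr 2
    push_cast
    ring)⟩

lemma wf_apply (len : X → ℝ) (δ : ℝ) (f : X → ℂ)
    (hf : Summable fun x => Real.exp (2 * δ * len x) * ‖f x‖ ^ 2) (x : X) :
    wf len δ f hf x = (Real.exp (δ * len x) : ℂ) * f x := rfl

variable (O : Set X) {len : X → ℝ} {δ : ℝ}

lemma summable_ev (hO : Summable fun y : O => Real.exp (-(2 * δ * len y))) (ξ : Raw.L2 X) :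
    Summable fun y : O => (Real.exp (-(δ * len y)) : ℂ) * ξ y := by
  have h1 : Summable fun y : O => ‖ξ (y : X)‖ ^ 2 :=
    (Raw.summable_sq ξ).comp_injective Subtype.val_injective
  refine Summable.of_norm ((hO.add h1).of_nonneg_of_le (fun y => norm_nonneg _) fun y => ?_)
  rw [norm_mul, Complex.norm_real, Real.norm_eq_abs, Real.abs_exp]
  have h2 : Real.exp (-(2 * δ * len y)) = Real.exp (-(δ * len y)) ^ 2 := by
    rw [← Real.exp_nat_mul]
    congr 1
    push_cast
    ring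
  rw [h2]
  nlinarith [sq_nonneg (Real.exp (-(δ * len y)) - ‖ξ (y : X)‖), sq_nonneg (Real.exp (-(δ * len y))),
    sq_nonneg ‖ξ (y : X)‖]

/-- the weighted sum over `O`. -/
noncomputable def evO (hO : Summable fun y : O => Real.exp (-(2 * δ * len y))) :
    Raw.L2 X →ₗ[ℂ] ℂ where
  toFun ξ := ∑' y : O, (Real.exp (-(δ * len y)) : ℂ) * ξ y
  map_add' ξ η := by
    rw [← (summable_ev O hO ξ).tsum_add (summable_ev O hO η)]
    refine tsum_congr fun y => ?_
    rw [lp.coeFn_add, Pi.add_apply, mul_add]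
  map_smul' c ξ := by
    rw [RingHom.id_apply, smul_eq_mul, ← tsum_mul_left]
    refine tsum_congr fun y => ?_
    rw [lp.coeFn_smul, Pi.smul_apply, smul_eq_mul]
    ring

lemma evO_apply (hO : Summable fun y : O => Real.exp (-(2 * δ * len y))) (ξ : Raw.L2 X) :
    evO O hO ξ = ∑' y : O, (Real.exp (-(δ * len y)) : ℂ) * ξ y := rfl

lemma exp_mul_wf (f : X → ℂ)
    (hf : Summable fun x => Real.exp (2 * δ * len x) * ‖f x‖ ^ 2) (y : X) :
    (Real.exp (-(δ * len y)) : ℂ) * wf len δ f hf y = f y := by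
  rw [wf_apply, ← mul_assoc, ← Complex.ofReal_mul, ← Real.exp_add, neg_add_cancel,
    Real.exp_zero, Complex.ofReal_one, one_mul]

lemma summable_O (hO : Summable fun y : O => Real.exp (-(2 * δ * len y))) (f : X → ℂ)
    (hf : Summable fun x => Real.exp (2 * δ * len x) * ‖f x‖ ^ 2) :
    Summable fun y : O => f y :=
  (summable_ev O hO (wf len δ f hf)).congr fun y => exp_mul_wf f hf y

lemma evO_wf (hO : Summable fun y : O => Real.exp (-(2 * δ * len y))) (f : X → ℂ)
    (hf : Summable fun x => Real.exp (2 * δ * len x) * ‖f x‖ ^ 2) :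
    evO O hO (wf len δ f hf) = ∑' y : O, f y := by
  rw [evO_apply]
  exact tsum_congr fun y => exp_mul_wf f hf y

/-- the coordinates. -/
noncomputable def crdL (x : X) : Raw.L2 X →ₗ[ℂ] ℂ where
  toFun ξ := ξ x
  map_add' ξ η := by rw [lp.coeFn_add, Pi.add_apply]
  map_smul' c ξ := by rw [lp.coeFn_smul, Pi.smul_apply, RingHom.id_apply]

lemma crdL_apply (x : X) (ξ : Raw.L2 X) : crdL x ξ = ξ x := rfl

end vectors

section group

variable {G : Type u} [Group G] {X : Type w} [MulAction G X]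

lemma tw_wf {len : X → ℝ} (hlen : Raw.BddDisp G len) (δ : NNReal) (g : G) (f f' : X → ℂ)
    (hf : ∀ x, f' x = f (g⁻¹ • x))
    (h1 : Summable fun x => Real.exp (2 * δ * len x) * ‖f x‖ ^ 2)
    (h2 : Summable fun x => Real.exp (2 * δ * len x) * ‖f' x‖ ^ 2) :
    Raw.tw hlen δ g (wf len δ f h1) = wf len δ f' h2 := by
  ext x
  rw [Raw.tw_apply, wf_apply, wf_apply, hf, ← mul_assoc, ← Complex.ofReal_mul, ← Real.exp_add]
  congr 3
  ring

lemma evO_tw {len : X → ℝ} (hlen : Raw.BddDisp G len) (δ : NNReal) (A : Subgroup G) (x₀ : X)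
    (hO : Summable fun y : MulAction.orbit A x₀ => Real.exp (-(2 * (δ : ℝ) * len y))) (a : G)
    (ha : a ∈ A) (ξ : Raw.L2 X) :
    evO (MulAction.orbit A x₀) hO (Raw.tw hlen δ a ξ) = evO (MulAction.orbit A x₀) hO ξ := by
  rw [evO_apply, evO_apply]
  let a' : A := ⟨a, ha⟩
  let σ : Equiv.Perm (MulAction.orbit A x₀) := MulAction.toPerm a'⁻¹
  have h1 : ∀ y : MulAction.orbit A x₀, (Real.exp (-(δ * len y)) : ℂ) * Raw.tw hlen δ a ξ y =
      (Real.exp (-(δ * len (σ y : X))) : ℂ) * ξ (σ y : X) := by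
    intro y
    have h2 : (σ y : X) = a⁻¹ • (y : X) := rfl
    rw [h2, Raw.tw_apply, ← mul_assoc, ← Complex.ofReal_mul, ← Real.exp_add]
    congr 3
    ring
  rw [tsum_congr h1]
  exact σ.tsum_eq
    (fun y : MulAction.orbit A x₀ => (Real.exp (-(δ * len y)) : ℂ) * ξ y)

variable {E : Type v} [TopologicalSpace E] [MulAction G E] [ContinuousConstSMul G E]

/-- functionals invariant under a subgroup vanish on boundaries of relative cycles. -/
lemma inv_functional {m : ℕ} (A : Subgroup G) (Λ : Tup G m → ℂ)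
    (hΛ : ∀ a ∈ A, ∀ e, Λ (a • e) = Λ e) (c : Tup G m →₀ ℂ)
    (hc : c ∈ Submodule.span ℂ {c | ∃ a ∈ A, ∃ e : Tup G m,
      c = Finsupp.single (a • e) (1 : ℂ) - Finsupp.single e 1}) :
    Finsupp.linearCombination ℂ Λ c = 0 := by
  induction hc using Submodule.span_induction with
  | mem x hx =>
    obtain ⟨a, ha, e, rfl⟩ := hx
    rw [map_sub, Finsupp.linearCombination_single, Finsupp.linearCombination_single,
      hΛ a ha, sub_self]
  | zero => simp
  | add x y _ _ hx hy => rw [map_add, hx, hy, add_zero]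
  | smul z x _ hx => rw [map_smul, hx, smul_zero]

/-- interpolation of the decay. -/
lemma summable_interp {len : X → ℝ} {f : X → ℂ} {δ₀ δ : ℝ} (hδ : 0 ≤ δ) (hδ₀ : 2 * δ ≤ δ₀)
    (hf : Summable fun x => Real.exp (δ₀ * |len x|) * ‖f x‖ ^ 2) :
    Summable fun x => Real.exp (2 * δ * len x) * ‖f x‖ ^ 2 := by
  refine hf.of_nonneg_of_le (fun x => by positivity) fun x => ?_
  refine mul_le_mul_of_nonneg_right (Real.exp_le_exp.2 ?_) (by positivity)
  have h1 : 2 * δ * len x ≤ 2 * δ * |len x| :=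
    mul_le_mul_of_nonneg_left (le_abs_self _) (by positivity)
  have h2 : 2 * δ * |len x| ≤ δ₀ * |len x| := mul_le_mul_of_nonneg_right hδ₀ (abs_nonneg _)
  linarith

/-- cocycles detected on cycles with orbits of subexponential growth. -/
theorem of_subexp [PathConnectedSpace E]
    (hfree : ∀ (g : G) (e : E), g • e = e → g = 1) {m : ℕ} (hE : HZero E (m + 1))
    (F : Res G (m + 1)) (hst : ∀ x : X, Amenable (MulAction.stabilizer G x)) {len : X → ℝ}
    (hlen : ∀ g : G, ∃ c : ℝ, ∀ x : X, |len (g • x) - len x| ≤ c)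
    (b : Tup G (m + 1) → X → ℂ)
    (hdec : ∃ δ₀ : ℝ, 0 < δ₀ ∧ ∀ e, Summable fun x => Real.exp (δ₀ * |len x|) * ‖b e x‖ ^ 2)
    (hb : ∀ (g : G) (e : Tup G (m + 1)) (x : X), b (g • e) x = b e (g⁻¹ • x))
    (hbd : ∀ e, dlt b e = 0) (A : Subgroup G) (x₀ : X)
    (hsum : ∀ δ : ℝ, 0 < δ →
      Summable fun y : MulAction.orbit A x₀ => Real.exp (-(δ * len (y : X))))
    (z : Tup G (m + 1) →₀ ℂ)
    (hz : bdT G m z ∈ Submodule.span ℂ {c | ∃ a ∈ A, ∃ e : Tup G m,
      c = Finsupp.single (a • e) (1 : ℂ) - Finsupp.single e 1})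
    (hne : (∑' y : MulAction.orbit A x₀, z.sum fun e a => a * b e y) ≠ 0) :
    ∃ i, i ≤ m + 1 ∧ Nontrivial (Hgy (lam G) E i) := by
  by_contra hcon
  push Not at hcon
  have htriv : ∀ i, i ≤ m + 1 → ¬ Nontrivial (Hgy (lam G) E i) := fun i hi => by
    have := hcon i hi
    rwa [not_nontrivial_iff_subsingleton]
  obtain ⟨δ₀, hδ₀, hdec⟩ := hdec
  have hlen' : Raw.BddDisp G len := hlen
  have hev := weighted_coboundary hfree hE htriv F hst hlen'
  obtain ⟨δ, hδ0, hδs, hδ⟩ : ∃ δ : NNReal, 0 < δ ∧ 2 * (δ : ℝ) ≤ δ₀ ∧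
      ∀ b : Tup G (m + 1) → Raw.L2 X,
      (∀ g e, b (g • e) = Raw.tw hlen' δ g (b e)) → (∀ e, dlt b e = 0) →
      ∃ c : Tup G m → Raw.L2 X, (∀ g e, c (g • e) = Raw.tw hlen' δ g (c e)) ∧
        ∀ e, dlt c e = b e := by
    rw [Metric.eventually_nhds_iff] at hev
    obtain ⟨ε, hε, h⟩ := hev
    have hε2 : 0 < min ε δ₀ / 2 := half_pos (lt_min hε hδ₀)
    refine ⟨Real.toNNReal (min ε δ₀ / 2), Real.toNNReal_pos.2 hε2, ?_, h ?_⟩
    · rw [Real.coe_toNNReal _ hε2.le]
      have := min_le_right ε δ₀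
      linarith
    · rw [NNReal.dist_eq, NNReal.coe_zero, sub_zero, Real.coe_toNNReal _ hε2.le,
        abs_of_pos hε2]
      have := min_le_left ε δ₀
      linarith
  have hbs : ∀ e, Summable fun x => Real.exp (2 * δ * len x) * ‖b e x‖ ^ 2 :=
    fun e => summable_interp δ.2 hδs (hdec e)
  obtain ⟨c, hc1, hc2⟩ := hδ (fun e => wf len δ (b e) (hbs e))
    (fun g e => (tw_wf hlen' δ g _ _ (fun x => hb g e x) _ _).symm)
    (fun e => by
      ext x
      rw [← crdL_apply, dlt_map]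
      have h1 : (fun e => crdL x (wf len δ (b e) (hbs e))) =
          fun e => (Real.exp (δ * len x) : ℂ) • b e x := rfl
      rw [h1]
      have h2 : dlt (fun e => (Real.exp (δ * len x) : ℂ) • b e x) e =
          (Real.exp (δ * len x) : ℂ) • dlt b e x := by
        simp only [dlt, Finset.sum_apply, Pi.smul_apply, Finset.smul_sum]
        exact Finset.sum_congr rfl fun j _ => smul_comm _ _ _
      rw [h2, hbd, Pi.zero_apply, smul_zero]
      rfl)
  have hδ2 : (0 : ℝ) < 2 * δ := by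
    have : (0 : ℝ) < δ := NNReal.coe_pos.2 hδ0
    linarith
  have hO : Summable fun y : MulAction.orbit A x₀ => Real.exp (-(2 * (δ : ℝ) * len (y : X))) :=
    hsum (2 * δ) hδ2
  apply hne
  have h0 : Finsupp.linearCombination ℂ (fun e => evO (MulAction.orbit A x₀) hO (c e))
      (bdT G m z) = 0 :=
    inv_functional A _ (fun a ha e => by rw [hc1, evO_tw hlen' δ A x₀ hO a ha]) _ hz
  rw [lc_bdT] at h0
  have h1 : dlt (fun e => evO (MulAction.orbit A x₀) hO (c e)) =
      fun e => ∑' y : MulAction.orbit A x₀, b e y := by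
    funext e
    rw [← dlt_map, hc2, evO_wf]
  rw [h1, Finsupp.linearCombination_apply, Finsupp.sum] at h0
  rw [← h0]
  simp only [Finsupp.sum]
  rw [Summable.tsum_finsetSum fun e _ =>
    (summable_O (MulAction.orbit A x₀) hO (b e) (hbs e)).mul_left _]
  refine Finset.sum_congr rfl fun e _ => ?_
  rw [tsum_mul_left, smul_eq_mul]

end group

end Pool.Agent.LibZIS
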