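import Pool.Agent.LibZIS.Two
import Pool.Agent.LibZIS.Walls

/-!
The sum over an invariant set of a finitely supported function is continuous along recurrent
orbits, and the evaluation of two-cocycles on cycles with recurrent orbits.
-/

set_option autoImplicit false

namespace Pool.Agent.LibZIS

universe u v w

section weak

variable {X : Type w}

/-- square summable functions are almost orthogonal to flat functions of bounded norm. -/
lemma weak_small (u : X → ℂ) (hu : Summable fun x => ‖u x‖ ^ 2) (C δ : ℝ) (hδ : 0 < δ) :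
    ∃ ε : ℝ, 0 < ε ∧ ∀ D : X →₀ ℂ, (∀ x, ‖D x‖ ≤ ε) → (∀ P : Finset X, ∑ x ∈ P, ‖D x‖ ^ 2 ≤ C) →
      ‖Finsupp.linearCombination ℂ u D‖ ≤ δ := by
  classical
  have hC : 0 ≤ max C 0 := le_max_right _ _
  set M : ℝ := max C 0 with hM
  set η : ℝ := δ / (2 * (M + 1)) with hη
  have hη0 : 0 < η := by positivity
  obtain ⟨A, hA⟩ := summable_iff_vanishing_norm.1 hu (η ^ 2) (by positivity)
  set K : ℝ := ∑ x ∈ A, ‖u x‖ with hK
  have hK0 : 0 ≤ K := Finset.sum_nonneg fun _ _ => norm_nonneg _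
  refine ⟨δ / (2 * (K + 1)), by positivity, fun D hD hDC => ?_⟩
  have h1 : ‖Finsupp.linearCombination ℂ u D‖ ≤ ∑ x ∈ D.support, ‖D x‖ * ‖u x‖ := by
    rw [Finsupp.linearCombination_apply, Finsupp.sum]
    refine (norm_sum_le _ _).trans (le_of_eq ?_)
    refine Finset.sum_congr rfl fun x _ => ?_
    rw [smul_eq_mul, norm_mul]
  have h2 : ∑ x ∈ D.support, ‖D x‖ * ‖u x‖ ≤ ∑ x ∈ A ∪ (D.support \ A), ‖D x‖ * ‖u x‖ := by
    refine Finset.sum_le_sum_of_subset_of_nonneg (fun x hx => ?_)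
      (fun _ _ _ => mul_nonneg (norm_nonneg _) (norm_nonneg _))
    rw [Finset.mem_union, Finset.mem_sdiff]
    tauto
  rw [Finset.sum_union Finset.disjoint_sdiff] at h2
  have h3 : ∑ x ∈ A, ‖D x‖ * ‖u x‖ ≤ δ / 2 := by
    have h4 : ∑ x ∈ A, ‖D x‖ * ‖u x‖ ≤ ∑ x ∈ A, δ / (2 * (K + 1)) * ‖u x‖ :=
      Finset.sum_le_sum fun x _ => mul_le_mul_of_nonneg_right (hD x) (norm_nonneg _)
    rw [← Finset.mul_sum, ← hK] at h4
    refine h4.trans ?_
    rw [div_mul_eq_mul_div, div_le_div_iff₀ (by positivity) (by positivity)]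
    nlinarith
  have h5 : ∑ x ∈ D.support \ A, ‖D x‖ * ‖u x‖ ≤ δ / 2 := by
    have h6 := Finset.sum_mul_sq_le_sq_mul_sq (D.support \ A) (fun x => ‖D x‖) (fun x => ‖u x‖)
    have h7 : ∑ x ∈ D.support \ A, ‖u x‖ ^ 2 ≤ η ^ 2 := by
      have h8 := hA (D.support \ A) Finset.sdiff_disjoint
      rw [Real.norm_eq_abs] at h8
      exact ((le_abs_self _).trans h8.le)
    have h9 : ∑ x ∈ D.support \ A, ‖D x‖ ^ 2 ≤ (M + 1) ^ 2 := by
      refine (hDC _).trans ?_
      have : C ≤ M := le_max_left _ _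
      nlinarith
    have h10 : (∑ x ∈ D.support \ A, ‖D x‖ * ‖u x‖) ^ 2 ≤ (δ / 2) ^ 2 := by
      refine h6.trans ?_
      have h11 : (δ / 2) ^ 2 = (M + 1) ^ 2 * η ^ 2 := by
        rw [hη]
        field_simp
      rw [h11]
      refine mul_le_mul h9 h7 (Finset.sum_nonneg fun _ _ => by positivity) (by positivity)
    exact le_of_sq_le_sq h10 (by positivity)
  linarith

end weak

section eval

variable {G : Type u} [Group G] {X : Type w} [MulAction G X]

/-- weak recurrence of the graph of the action of the elements of `S`. -/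
def WRec (S : Set G) (O : Set X) : Prop :=
  ∀ F : Finset X, (F : Set X) ⊆ O → ∃ C : ℝ, ∀ ε : ℝ, 0 < ε → ∃ T : X →₀ ℂ, (∀ x ∈ F, T x = 1) ∧
    ∀ g ∈ S, (∀ x, ‖T (g • x) - T x‖ ≤ ε) ∧ ∀ P : Finset X, ∑ x ∈ P, ‖T (g • x) - T x‖ ^ 2 ≤ C

lemma WRec.of_rec (S : Set G) (O : Set X)
    (h : ∀ F : Finset X, (F : Set X) ⊆ O → ∀ ε : ℝ, 0 < ε → ∃ T : X →₀ ℂ, (∀ x ∈ F, T x = 1) ∧
      ∀ g ∈ S, ∀ P : Finset X, ∑ x ∈ P, ‖T (g • x) - T x‖ ^ 2 ≤ ε) : WRec S O := by
  intro F hF
  refine ⟨1, fun ε hε => ?_⟩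
  obtain ⟨T, h1, h2⟩ := h F hF (min 1 (ε ^ 2)) (by positivity)
  refine ⟨T, h1, fun g hg => ⟨fun x => ?_, fun P => (h2 g hg P).trans (min_le_left _ _)⟩⟩
  have h3 := (h2 g hg {x}).trans (min_le_right _ _)
  rw [Finset.sum_singleton] at h3
  exact le_of_sq_le_sq h3 hε.le

/-- a trivial two-cocycle evaluates to zero on a cycle with recurrent orbits. -/
theorem eval_zero (b : G → G → (X →₀ ℂ)) (c : G → X → ℂ)
    (hc : ∀ g, Summable fun x => ‖c g x‖ ^ 2)
    (hbc : ∀ g h x, b g h x = c h (g⁻¹ • x) - c (g * h) x + c g x)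
    (z : G × G →₀ ℤ)
    (hz : (z.sum fun p m => m • (Finsupp.single p.2 (1 : ℤ) - Finsupp.single (p.1 * p.2) 1 +
      Finsupp.single p.1 1)) = 0)
    (O : Set X) (hO : ∀ p ∈ z.support, ∀ x : X, p.1 • x ∈ O ↔ x ∈ O)
    (hrec : WRec (Prod.fst '' (z.support : Set (G × G))) O) :
    (∑ᶠ x ∈ O, z.sum fun p m => m • b p.1 p.2 x) = 0 := by
  classical
  -- the function which is summed
  let f : X →₀ ℂ := z.sum fun p m => m • b p.1 p.2
  have hf : ∀ x, f x = z.sum fun p m => m • b p.1 p.2 x := by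
    intro x
    show (z.sum fun p m => m • b p.1 p.2) x = _
    rw [Finsupp.sum, Finsupp.sum, Finsupp.finsetSum_apply]
    rfl
  have hsum : (∑ᶠ x ∈ O, z.sum fun p m => m • b p.1 p.2 x) =
      ∑ x ∈ f.support.filter (· ∈ O), f x := by
    have h1 : (∑ᶠ x ∈ O, z.sum fun p m => m • b p.1 p.2 x) = ∑ᶠ x ∈ O, f x :=
      finsum_congr fun x => by rw [hf]
    rw [h1, finsum_mem_eq_sum_of_inter_support_eq]
    ext x
    simp
    tauto
  rw [hsum]
  obtain ⟨C, hC⟩ := hrec (f.support.filter (· ∈ O)) (fun x hx => by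
    simp at hx; exact hx.2)
  -- it is enough to bound the norm
  refine norm_le_zero_iff.1 (le_of_forall_pos_le_add fun δ hδ => ?_)
  rw [zero_add]
  set L : ℝ := z.sum (fun _ m => |(m : ℝ)|) + 1 with hL
  have hL0 : 0 < L := by
    have : 0 ≤ z.sum (fun _ m => |(m : ℝ)|) := Finset.sum_nonneg fun _ _ => abs_nonneg _
    linarith
  have hex : ∃ ε : ℝ, 0 < ε ∧ ∀ p ∈ z.support, ∀ D : X →₀ ℂ, (∀ x, ‖D x‖ ≤ ε) →
      (∀ P : Finset X, ∑ x ∈ P, ‖D x‖ ^ 2 ≤ C) →
      ‖Finsupp.linearCombination ℂ (c p.2) D‖ ≤ δ / L := by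
    choose e he0 he using fun p : G × G =>
      weak_small (c p.2) (hc p.2) C (δ / L) (by positivity)
    rcases z.support.eq_empty_or_nonempty with h0 | h0
    · exact ⟨1, one_pos, by simp [h0]⟩
    · refine ⟨z.support.inf' h0 e, (Finset.lt_inf'_iff h0).2 fun p _ => he0 p,
        fun p hp D hD hDC => he p D (fun x => (hD x).trans (Finset.inf'_le e hp)) hDC⟩
  obtain ⟨ε, hε, hεD⟩ := hex
  obtain ⟨T₀, hT1, hT2⟩ := hC ε hε
  -- the restriction to `O`
  let T : X →₀ ℂ := T₀.filter (· ∈ O)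
  have hTO : ∀ x ∈ O, T x = T₀ x := fun x hx => Finsupp.filter_apply_pos _ _ hx
  have hTO' : ∀ x, x ∉ O → T x = 0 := fun x hx => Finsupp.filter_apply_neg _ _ hx
  let Λ : (X → ℂ) →ₗ[ℂ] ℂ := ∑ x ∈ T.support, T x • LinearMap.proj x
  have hΛ : ∀ u : X → ℂ, Λ u = Finsupp.linearCombination ℂ u T := by
    intro u
    show (∑ x ∈ T.support, T x • LinearMap.proj x : (X → ℂ) →ₗ[ℂ] ℂ) u = _
    rw [LinearMap.sum_apply, Finsupp.linearCombination_apply, Finsupp.sum]
    rfl
  -- the difference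
  let D : G → (X →₀ ℂ) := fun g => T.mapDomain (fun x => g⁻¹ • x) - T
  have hDap : ∀ g x, D g x = T (g • x) - T x := by
    intro g x
    show (T.mapDomain (fun x => g⁻¹ • x) - T) x = _
    rw [Finsupp.sub_apply]
    congr 1
    have h1 := Finsupp.mapDomain_apply (f := fun x : X => g⁻¹ • x) (MulAction.injective g⁻¹) T
      (g • x)
    simp only [inv_smul_smul] at h1
    exact h1
  have hDΛ : ∀ (g : G) (u : X → ℂ), Λ (fun x => u (g⁻¹ • x)) - Λ u =
      Finsupp.linearCombination ℂ u (D g) := by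
    intro g u
    rw [hΛ, hΛ]
    show _ = Finsupp.linearCombination ℂ u (T.mapDomain (fun x => g⁻¹ • x) - T)
    rw [map_sub, Finsupp.linearCombination_mapDomain]
    rfl
  have hDb : ∀ p ∈ z.support, ‖Finsupp.linearCombination ℂ (c p.2) (D p.1)‖ ≤ δ / L := by
    intro p hp
    have hval : ∀ x, ‖D p.1 x‖ ≤ ‖T₀ (p.1 • x) - T₀ x‖ := by
      intro x
      rw [hDap]
      by_cases hx : x ∈ O
      · rw [hTO x hx, hTO _ ((hO p hp x).2 hx)]
      · rw [hTO' x hx, hTO' _ (fun h => hx ((hO p hp x).1 h)), sub_self, norm_zero]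
        exact norm_nonneg _
    obtain ⟨h1, h2⟩ := hT2 p.1 ⟨p, hp, rfl⟩
    refine hεD p hp (D p.1) (fun x => (hval x).trans (h1 x)) fun P => ?_
    refine (Finset.sum_le_sum fun x _ => ?_).trans (h2 P)
    exact pow_le_pow_left₀ (norm_nonneg _) (hval x) 2
  -- the sum is the value at `f`
  have hfΛ : ∑ x ∈ f.support.filter (· ∈ O), f x = Λ f := by
    show _ = (∑ x ∈ T.support, T x • LinearMap.proj x : (X → ℂ) →ₗ[ℂ] ℂ) f
    rw [LinearMap.sum_apply]
    have h1 : ∑ x ∈ T.support, (T x • LinearMap.proj x : (X → ℂ) →ₗ[ℂ] ℂ) f =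
        ∑ x ∈ T.support ∪ f.support.filter (· ∈ O), T x * f x := by
      refine Finset.sum_subset Finset.subset_union_left fun x _ hx => ?_
      show T x * f x = 0
      rw [Finsupp.notMem_support_iff.1 hx, zero_mul]
    rw [h1]
    have h2 : ∀ x ∈ f.support.filter (· ∈ O), f x = T x * f x := by
      intro x hx
      rw [hTO x (Finset.mem_filter.1 hx).2, hT1 x hx, one_mul]
    rw [Finset.sum_congr rfl h2]
    refine Finset.sum_subset Finset.subset_union_right fun x _ hx => ?_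
    by_cases hxO : x ∈ O
    · have : f x = 0 := by
        by_contra h
        exact hx (Finset.mem_filter.2 ⟨Finsupp.mem_support_iff.2 h, hxO⟩)
      rw [this, mul_zero]
    · rw [hTO' x hxO, zero_mul]
  have hfz : Λ f = z.sum fun p m => (m : ℂ) * Λ (b p.1 p.2) := by
    have h1 : (f : X → ℂ) = z.sum fun p m => m • (b p.1 p.2 : X → ℂ) := by
      ext x
      rw [hf, Finsupp.sum, Finsupp.sum, Finset.sum_apply]
      rfl
    rw [h1, Finsupp.sum, Finsupp.sum, map_sum]
    refine Finset.sum_congr rfl fun p _ => ?_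
    rw [map_zsmul, zsmul_eq_mul]
  have hbΛ : ∀ g h, Λ (b g h) = (Λ (fun x => c h (g⁻¹ • x)) - Λ (c h)) +
      (Λ (c h) - Λ (c (g * h)) + Λ (c g)) := by
    intro g h
    have h1 : (b g h : X → ℂ) = (fun x => c h (g⁻¹ • x)) - c (g * h) + c g := by
      ext x
      rw [hbc]
      rfl
    rw [h1, map_add, map_sub]
    ring
  have hcyc : (z.sum fun p m => (m : ℂ) * (Λ (c p.2) - Λ (c (p.1 * p.2)) + Λ (c p.1))) = 0 := by
    let Ψ : (G →₀ ℤ) →+ ℂ := Finsupp.liftAddHom fun k =>
      (AddMonoidHom.flip (smulAddHom ℤ ℂ) (Λ (c k)) : ℤ →+ ℂ)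
    have hΨ : ∀ k, Ψ (Finsupp.single k 1) = Λ (c k) := by
      intro k
      simp [Ψ]
    have h1 := congrArg Ψ hz
    rw [map_zero, Finsupp.sum, map_sum] at h1
    rw [Finsupp.sum, ← h1]
    refine Finset.sum_congr rfl fun p _ => ?_
    rw [map_zsmul, map_add, map_sub, hΨ, hΨ, hΨ, zsmul_eq_mul]
  have hfin : Λ f = z.sum fun p m => (m : ℂ) * Finsupp.linearCombination ℂ (c p.2) (D p.1) := by
    rw [hfz, ← sub_zero (z.sum fun p m => (m : ℂ) * Λ (b p.1 p.2)), ← hcyc, Finsupp.sum,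
      Finsupp.sum, Finsupp.sum, ← Finset.sum_sub_distrib]
    refine Finset.sum_congr rfl fun p _ => ?_
    rw [hbΛ, ← hDΛ]
    ring
  rw [hfΛ, hfin, Finsupp.sum]
  refine (norm_sum_le _ _).trans ?_
  have h8 : ∀ p ∈ z.support, ‖(z p : ℂ) * Finsupp.linearCombination ℂ (c p.2) (D p.1)‖ ≤
      |(z p : ℝ)| * (δ / L) := by
    intro p hp
    rw [norm_mul, Complex.norm_intCast]
    exact mul_le_mul_of_nonneg_left (hDb p hp) (abs_nonneg _)
  refine (Finset.sum_le_sum h8).trans ?_
  rw [← Finset.sum_mul]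
  have h9 : ∑ p ∈ z.support, |(z p : ℝ)| ≤ L := by
    rw [hL, Finsupp.sum]
    linarith
  calc (∑ p ∈ z.support, |(z p : ℝ)|) * (δ / L) ≤ L * (δ / L) :=
        mul_le_mul_of_nonneg_right h9 (by positivity)
    _ = δ := by field_simp

end eval

section grid

variable {G : Type u} [Group G] {X : Type w} [MulAction G X]

open Classical in
/-- the points reached from `F` by the powers of two commuting elements. -/
noncomputable def box (s t : G) (F : Finset X) (k : ℕ) : Finset X :=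
  ((Finset.Icc (-(k : ℤ)) k ×ˢ Finset.Icc (-(k : ℤ)) k) ×ˢ F).image
    fun p => (s ^ p.1.1 * t ^ p.1.2) • p.2

lemma mem_box {s t : G} {F : Finset X} {k : ℕ} {x : X} :
    x ∈ box s t F k ↔ ∃ i j : ℤ, ∃ y ∈ F, -(k : ℤ) ≤ i ∧ i ≤ k ∧ -(k : ℤ) ≤ j ∧ j ≤ k ∧
      (s ^ i * t ^ j) • y = x := by
  classical
  rw [box, Finset.mem_image]
  constructor
  · rintro ⟨⟨⟨i, j⟩, y⟩, h, rfl⟩
    rw [Finset.mem_product, Finset.mem_product, Finset.mem_Icc, Finset.mem_Icc] at h
    exact ⟨i, j, y, h.2, h.1.1.1, h.1.1.2, h.1.2.1, h.1.2.2, rfl⟩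
  · rintro ⟨i, j, y, hy, h1, h2, h3, h4, rfl⟩
    refine ⟨⟨⟨i, j⟩, y⟩, ?_, rfl⟩
    rw [Finset.mem_product, Finset.mem_product, Finset.mem_Icc, Finset.mem_Icc]
    exact ⟨⟨⟨h1, h2⟩, ⟨h3, h4⟩⟩, hy⟩

lemma card_box (s t : G) (F : Finset X) (k : ℕ) :
    (box s t F k).card ≤ (2 * k + 1) ^ 2 * F.card := by
  classical
  refine Finset.card_image_le.trans ?_
  rw [Finset.card_product, Finset.card_product, Int.card_Icc]
  have : ((k : ℤ) + 1 - -(k : ℤ)).toNat = 2 * k + 1 := by omega
  rw [this, pow_two]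

lemma box_mono (s t : G) (F : Finset X) {k l : ℕ} (h : k ≤ l) : box s t F k ⊆ box s t F l := by
  intro x hx
  rw [mem_box] at hx ⊢
  obtain ⟨i, j, y, hy, h1, h2, h3, h4, h5⟩ := hx
  exact ⟨i, j, y, hy, by omega, by omega, by omega, by omega, h5⟩

lemma subset_box (s t : G) (F : Finset X) (k : ℕ) : F ⊆ box s t F k := by
  intro x hx
  rw [mem_box]
  exact ⟨0, 0, x, hx, by omega, by omega, by omega, by omega, by simp⟩

lemma box_left (s t : G) (F : Finset X) (k : ℕ) {x : X} {e : ℤ} (he : e = 1 ∨ e = -1)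
    (hx : x ∈ box s t F k) : s ^ e • x ∈ box s t F (k + 1) := by
  rw [mem_box] at hx ⊢
  obtain ⟨i, j, y, hy, h1, h2, h3, h4, rfl⟩ := hx
  refine ⟨e + i, j, y, hy, by push_cast; omega, by push_cast; omega, by push_cast; omega,
    by push_cast; omega, ?_⟩
  rw [zpow_add, mul_assoc, mul_smul]

lemma box_right (s t : G) (hst : Commute s t) (F : Finset X) (k : ℕ) {x : X} {e : ℤ}
    (he : e = 1 ∨ e = -1) (hx : x ∈ box s t F k) : t ^ e • x ∈ box s t F (k + 1) := by
  rw [mem_box] at hx ⊢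
  obtain ⟨i, j, y, hy, h1, h2, h3, h4, rfl⟩ := hx
  refine ⟨i, e + j, y, hy, by push_cast; omega, by push_cast; omega, by push_cast; omega,
    by push_cast; omega, ?_⟩
  have h6 : s ^ i * t ^ (e + j) = t ^ e * (s ^ i * t ^ j) := by
    rw [zpow_add, ← mul_assoc, ← mul_assoc, (hst.zpow_zpow i e).eq]
  rw [h6, mul_smul]

open Classical in
/-- the number of boxes containing a point. -/
noncomputable def cnt (s t : G) (F : Finset X) (R : ℕ) (x : X) : ℕ :=
  ((Finset.range R).filter fun k => x ∈ box s t F k).card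

lemma cnt_le {s t : G} {F : Finset X} {x y : X} (h : ∀ k, x ∈ box s t F k → y ∈ box s t F (k + 1))
    (R : ℕ) : cnt s t F R x ≤ cnt s t F R y + 1 := by
  classical
  have h1 : ((Finset.range R).filter fun k => x ∈ box s t F k).image (fun k => k + 1) ⊆
      insert R ((Finset.range R).filter fun k => y ∈ box s t F k) := by
    intro k hk
    rw [Finset.mem_image] at hk
    obtain ⟨l, hl, rfl⟩ := hk
    rw [Finset.mem_filter, Finset.mem_range] at hl
    rw [Finset.mem_insert, Finset.mem_filter, Finset.mem_range]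
    rcases Nat.lt_or_ge (l + 1) R with h2 | h2
    · exact Or.inr ⟨h2, h l hl.2⟩
    · left; omega
  have h2 := Finset.card_le_card h1
  rw [Finset.card_image_of_injective _ (fun a b h => by simpa using h)] at h2
  exact h2.trans (Finset.card_insert_le _ _)

/-- the tent function. -/
noncomputable def tent (s t : G) (F : Finset X) (R : ℕ) : X →₀ ℂ :=
  Finsupp.onFinset (box s t F R) (fun x => ((cnt s t F R x : ℝ) / R : ℝ)) (by
    classical
    intro x hx
    have h1 : cnt s t F R x ≠ 0 := by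
      intro h
      apply hx
      rw [h]
      simp
    rw [cnt, Finset.card_ne_zero] at h1
    obtain ⟨k, hk⟩ := h1
    rw [Finset.mem_filter, Finset.mem_range] at hk
    exact box_mono s t F hk.1.le hk.2)

lemma tent_apply (s t : G) (F : Finset X) (R : ℕ) (x : X) :
    tent s t F R x = ((cnt s t F R x : ℝ) / R : ℝ) := rfl

lemma tent_one (s t : G) (F : Finset X) {R : ℕ} (hR : 0 < R) {x : X} (hx : x ∈ F) :
    tent s t F R x = 1 := by
  classical
  have h1 : cnt s t F R x = R := by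
    rw [cnt, Finset.filter_true_of_mem, Finset.card_range]
    exact fun k _ => subset_box s t F k hx
  rw [tent_apply, h1, div_self (by positivity), Complex.ofReal_one]

lemma tent_diff {s t : G} {F : Finset X} {R : ℕ} (hR : 0 < R) {g : G}
    (h1 : ∀ k x, x ∈ box s t F k → g • x ∈ box s t F (k + 1))
    (h2 : ∀ k x, g • x ∈ box s t F k → x ∈ box s t F (k + 1)) (x : X) :
    ‖tent s t F R (g • x) - tent s t F R x‖ ≤ 1 / R := by
  rw [tent_apply, tent_apply, ← Complex.ofReal_sub, Complex.norm_real, ← sub_div, Real.norm_eq_abs,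
    abs_div, Nat.abs_cast]
  refine div_le_div_of_nonneg_right ?_ (by positivity)
  have h3 := cnt_le (fun k => h1 k x) R
  have h4 := cnt_le (fun k => h2 k x) R
  rw [abs_le]
  constructor
  · have : (cnt s t F R x : ℝ) ≤ cnt s t F R (g • x) + 1 := by exact_mod_cast h3
    linarith
  · have : (cnt s t F R (g • x) : ℝ) ≤ cnt s t F R x + 1 := by exact_mod_cast h4
    linarith

lemma tent_energy {s t : G} {F : Finset X} {R : ℕ} (hR : 0 < R) {g : G}
    (h1 : ∀ k x, x ∈ box s t F k → g • x ∈ box s t F (k + 1))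
    (h2 : ∀ k x, g • x ∈ box s t F k → x ∈ box s t F (k + 1)) (P : Finset X) :
    ∑ x ∈ P, ‖tent s t F R (g • x) - tent s t F R x‖ ^ 2 ≤ 9 * F.card := by
  classical
  have h3 : ∀ x, x ∉ box s t F R → tent s t F R (g • x) - tent s t F R x = 0 := by
    intro x hx
    have h4 : cnt s t F R x = 0 := by
      rw [cnt, Finset.card_eq_zero, Finset.filter_eq_empty_iff]
      intro k hk h
      exact hx (box_mono s t F (Finset.mem_range.1 hk).le h)
    have h5 : cnt s t F R (g • x) = 0 := by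
      rw [cnt, Finset.card_eq_zero, Finset.filter_eq_empty_iff]
      intro k hk h
      exact hx (box_mono s t F (Finset.mem_range.1 hk) (h2 k x h))
    rw [tent_apply, tent_apply, h4, h5, sub_self]
  have h4 : ∑ x ∈ P, ‖tent s t F R (g • x) - tent s t F R x‖ ^ 2 ≤
      ∑ x ∈ box s t F R, (1 / (R : ℝ)) ^ 2 := by
    calc ∑ x ∈ P, ‖tent s t F R (g • x) - tent s t F R x‖ ^ 2 ≤
        ∑ x ∈ P ∪ box s t F R, ‖tent s t F R (g • x) - tent s t F R x‖ ^ 2 :=
          Finset.sum_le_sum_of_subset_of_nonneg Finset.subset_union_left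
            (fun _ _ _ => by positivity)
      _ = ∑ x ∈ box s t F R, ‖tent s t F R (g • x) - tent s t F R x‖ ^ 2 := by
          refine (Finset.sum_subset Finset.subset_union_right fun x _ hx => ?_).symm
          rw [h3 x hx, norm_zero]
          norm_num
      _ ≤ _ := Finset.sum_le_sum fun x _ =>
          pow_le_pow_left₀ (norm_nonneg _) (tent_diff hR h1 h2 x) 2
  refine h4.trans ?_
  rw [Finset.sum_const, nsmul_eq_mul]
  have h5 : ((box s t F R).card : ℝ) ≤ (3 * R) ^ 2 * F.card := by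
    have h6 : ((box s t F R).card : ℝ) ≤ (2 * R + 1) ^ 2 * F.card := by
      exact_mod_cast card_box s t F R
    refine h6.trans (mul_le_mul_of_nonneg_right ?_ (by positivity))
    have : (1 : ℝ) ≤ R := by exact_mod_cast hR
    exact pow_le_pow_left₀ (by positivity) (by linarith) 2
  have hR' : (0 : ℝ) < R := by exact_mod_cast hR
  calc ((box s t F R).card : ℝ) * (1 / (R : ℝ)) ^ 2 ≤ ((3 * R) ^ 2 * F.card) * (1 / (R : ℝ)) ^ 2 :=
        mul_le_mul_of_nonneg_right h5 (by positivity)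
    _ = 9 * F.card := by field_simp; ring

/-- the orbits of two commuting elements are recurrent. -/
lemma wrec_commute (s t : G) (hst : Commute s t) (O : Set X) : WRec ({s, t} : Set G) O := by
  intro F _
  refine ⟨9 * F.card, fun ε hε => ?_⟩
  obtain ⟨n, hn⟩ := exists_nat_one_div_lt hε
  have hR : 0 < n + 1 := Nat.succ_pos n
  refine ⟨tent s t F (n + 1), fun x hx => tent_one s t F hR hx, ?_⟩
  have key : ∀ g : G, (∀ k x, x ∈ box s t F k → g • x ∈ box s t F (k + 1)) →
      (∀ k x, g • x ∈ box s t F k → x ∈ box s t F (k + 1)) →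
      (∀ x, ‖tent s t F (n + 1) (g • x) - tent s t F (n + 1) x‖ ≤ ε) ∧
      ∀ P : Finset X, ∑ x ∈ P, ‖tent s t F (n + 1) (g • x) - tent s t F (n + 1) x‖ ^ 2 ≤
        9 * F.card := by
    intro g h1 h2
    refine ⟨fun x => (tent_diff hR h1 h2 x).trans ?_, tent_energy hR h1 h2⟩
    push_cast
    exact hn.le
  rintro g (rfl | rfl)
  · refine key g (fun k x hx => ?_) (fun k x hx => ?_)
    · have := box_left g t F k (e := 1) (Or.inl rfl) hx
      rwa [zpow_one] at this
    · have := box_left g t F k (e := -1) (Or.inr rfl) hx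
      rwa [zpow_neg_one, inv_smul_smul] at this
  · refine key g (fun k x hx => ?_) (fun k x hx => ?_)
    · have := box_right s g hst F k (e := 1) (Or.inl rfl) hx
      rwa [zpow_one] at this
    · have := box_right s g hst F k (e := -1) (Or.inr rfl) hx
      rwa [zpow_neg_one, inv_smul_smul] at this

end grid

lemma WRec.mono {G : Type u} [Group G] {X : Type w} [MulAction G X] {S S' : Set G} (h : S' ⊆ S)
    {O : Set X} (hS : WRec S O) : WRec S' O := by
  intro F hF
  obtain ⟨C, hC⟩ := hS F hF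
  refine ⟨C, fun ε hε => ?_⟩
  obtain ⟨T, h1, h2⟩ := hC ε hε
  exact ⟨T, h1, fun g hg => h2 g (h hg)⟩

lemma sum_torus {G : Type u} {M : Type*} [AddCommGroup M] (s t : G) (φ : G × G → M) :
    ((Finsupp.single (s, t) 1 - Finsupp.single (t, s) 1 : G × G →₀ ℤ).sum fun p m => m • φ p) =
      φ (s, t) - φ (t, s) := by
  rw [Finsupp.sum_sub_index (fun _ _ _ => sub_smul _ _ _),
    Finsupp.sum_single_index (by rw [zero_smul]), Finsupp.sum_single_index (by rw [zero_smul]),
    one_smul, one_smul]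

section final

variable {G : Type u} [Group G] {E : Type v} [TopologicalSpace E] [PathConnectedSpace E]
  [MulAction G E] [ContinuousConstSMul G E] {X : Type w} [MulAction G X]

/-- two-cocycles with values in `ℓ²(X)` are coboundaries when `H₀ = H₁ = H₂ = 0`. -/
lemma coboundary2 (hfree : ∀ (g : G) (e : E), g • e = e → g = 1) (hE : H1Zero E)
    (hst : ∀ x : X, Amenable (MulAction.stabilizer G x))
    (h0 : ¬ Nontrivial (Hgy (lam G) E 0)) (h1 : ¬ Nontrivial (Hgy (lam G) E 1))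
    (h2 : ¬ Nontrivial (Hgy (lam G) E 2)) (b : G → G → Raw.L2 X)
    (hb : ∀ g h k : G, Raw.tr g (b h k) - b (g * h) k + b g (h * k) - b g h = 0) :
    ∃ c : G → Raw.L2 X, ∀ g h : G, b g h = Raw.tr g (c h) - c (g * h) + c g := by
  let _ : Module (Cr G) (Raw.L2 X) :=
    Module.compHom (Raw.L2 X) ((Raw.rep (X := X) hst).comp (toRaw G))
  have hsm : ∀ (g : G) (v : Raw.L2 X), lam G g • v = Raw.tr g v := by
    intro g v
    show Raw.rep hst (toRaw G (lam G g)) v = Raw.tr g v
    rw [toRaw_lam, Raw.rep_lam]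
  obtain ⟨c, hc⟩ := coboundary2_of_trivial (lam G) hfree hE h0 h1 h2 b
    (fun g h k => by rw [hsm, hb])
  exact ⟨c, fun g h => by rw [← hsm, hc]⟩

/-- two-cocycles which are not coboundaries give homology. -/
lemma of_cocycle2 (hfree : ∀ (g : G) (e : E), g • e = e → g = 1) (hE : H1Zero E)
    (hst : ∀ x : X, Amenable (MulAction.stabilizer G x)) (b : G → G → Raw.L2 X)
    (hb : ∀ g h k : G, Raw.tr g (b h k) - b (g * h) k + b g (h * k) - b g h = 0)
    (hn : ¬ ∃ c : G → Raw.L2 X, ∀ g h : G, b g h = Raw.tr g (c h) - c (g * h) + c g) :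
    Nontrivial (Hgy (lam G) E 0) ∨ Nontrivial (Hgy (lam G) E 1) ∨
      Nontrivial (Hgy (lam G) E 2) := by
  by_contra h
  rw [not_or, not_or] at h
  exact hn (coboundary2 hfree hE hst h.1 h.2.1 h.2.2 b hb)

/-- finitely supported functions as square summable functions. -/
noncomputable def emb (f : X →₀ ℂ) : Raw.L2 X :=
  ⟨fun x => f x, memℓp_gen (by
    refine summable_of_hasFiniteSupport (f.support.finite_toSet.subset fun x hx => ?_)
    rw [Finset.mem_coe, Finsupp.mem_support_iff]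
    intro h
    apply hx
    simp [h])⟩

/-- two-cocycles with finitely supported values which do not vanish on a cycle with recurrent
orbits give homology. -/
lemma of_cycle (hfree : ∀ (g : G) (e : E), g • e = e → g = 1) (hE : H1Zero E)
    (hst : ∀ x : X, Amenable (MulAction.stabilizer G x)) (b : G → G → (X →₀ ℂ))
    (hb : ∀ (g h k : G) (x : X),
      b h k (g⁻¹ • x) - b (g * h) k x + b g (h * k) x - b g h x = 0)
    (z : G × G →₀ ℤ)
    (hz : (z.sum fun p m => m • (Finsupp.single p.2 (1 : ℤ) - Finsupp.single (p.1 * p.2) 1 +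
      Finsupp.single p.1 1)) = 0)
    (O : Set X) (hO : ∀ p ∈ z.support, ∀ x : X, p.1 • x ∈ O ↔ x ∈ O)
    (hrec : WRec (Prod.fst '' (z.support : Set (G × G))) O)
    (hne : (∑ᶠ x ∈ O, z.sum fun p m => m • b p.1 p.2 x) ≠ 0) :
    Nontrivial (Hgy (lam G) E 0) ∨ Nontrivial (Hgy (lam G) E 1) ∨
      Nontrivial (Hgy (lam G) E 2) := by
  refine of_cocycle2 hfree hE hst (fun g h => emb (b g h)) (fun g h k => ?_) ?_
  · ext x
    exact hb g h k x
  · rintro ⟨c, hc⟩
    refine hne (eval_zero b (fun g => c g) (fun g => Raw.summable_sq (c g)) (fun g h x => ?_)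
      z hz O hO hrec)
    exact congrArg (fun ξ : Raw.L2 X => (ξ : ∀ _ : X, ℂ) x) (hc g h)

/-- two-cocycles with finitely supported values which do not vanish on a torus give homology. -/
lemma of_torus (hfree : ∀ (g : G) (e : E), g • e = e → g = 1) (hE : H1Zero E)
    (hst : ∀ x : X, Amenable (MulAction.stabilizer G x)) (b : G → G → (X →₀ ℂ))
    (hb : ∀ (g h k : G) (x : X),
      b h k (g⁻¹ • x) - b (g * h) k x + b g (h * k) x - b g h x = 0)
    (s t : G) (hst' : s * t = t * s) (O : Set X) (hs : ∀ x : X, s • x ∈ O ↔ x ∈ O)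
    (ht : ∀ x : X, t • x ∈ O ↔ x ∈ O) (hne : (∑ᶠ x ∈ O, (b s t x - b t s x)) ≠ 0) :
    Nontrivial (Hgy (lam G) E 0) ∨ Nontrivial (Hgy (lam G) E 1) ∨
      Nontrivial (Hgy (lam G) E 2) := by
  classical
  have hsupp : ∀ p ∈ (Finsupp.single (s, t) 1 - Finsupp.single (t, s) 1 : G × G →₀ ℤ).support,
      p = (s, t) ∨ p = (t, s) := by
    intro p hp
    have h1 := Finsupp.support_sub hp
    rw [Finset.mem_union] at h1
    rcases h1 with h1 | h1
    · left
      have h2 := Finsupp.support_single_subset h1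
      rwa [Finset.mem_singleton] at h2
    · right
      have h2 := Finsupp.support_single_subset h1
      rwa [Finset.mem_singleton] at h2
  refine of_cycle hfree hE hst b hb (Finsupp.single (s, t) 1 - Finsupp.single (t, s) 1) ?_ O ?_
    ((wrec_commute s t hst' O).mono ?_) ?_
  · rw [sum_torus s t fun p : G × G => (Finsupp.single p.2 (1 : ℤ) - Finsupp.single (p.1 * p.2) 1 +
      Finsupp.single p.1 1)]
    simp only
    rw [hst']
    abel
  · intro p hp x
    rcases hsupp p hp with rfl | rfl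
    · exact hs x
    · exact ht x
  · rintro _ ⟨p, hp, rfl⟩
    rcases hsupp p hp with rfl | rfl
    · exact Or.inl rfl
    · exact Or.inr rfl
  · have h1 : ∀ x : X, ((Finsupp.single (s, t) 1 - Finsupp.single (t, s) 1 : G × G →₀ ℤ).sum
        fun p m => m • b p.1 p.2 x) = b s t x - b t s x := fun x =>
      sum_torus s t fun p : G × G => b p.1 p.2 x
    simp only [h1]
    exact hne

end final

end Pool.Agent.LibZIS
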