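import Pool.Agent.LibZIS.Eval
import Pool.Agent.LibZIS.Recur

/-!
Cocycles with values in `ℓ²(X)` in every degree, and their evaluation on cycles with recurrent
orbits.
-/

set_option autoImplicit false

namespace Pool.Agent.LibZIS

universe u v w

section rep

variable {G : Type u} [Group G] {X : Type w} [MulAction G X]

lemma rep_smul (hst : ∀ x : X, Amenable (MulAction.stabilizer G x)) (z : ℂ) (a : Cr G) :
    Raw.rep hst (toRaw G (z • a)) = z • Raw.rep hst (toRaw G a) := by
  refine Raw.gr_unique hst (a := z • (toRaw G a).1)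
    (Raw.gr_exists (X := X) hst (toRaw G (z • a)).2).choose_spec ?_
  exact Subalgebra.smul_mem (Raw.gr G X)
    (Raw.gr_exists (X := X) hst (toRaw G a).2).choose_spec z

variable {E : Type v} [TopologicalSpace E] [PathConnectedSpace E]
  [MulAction G E] [ContinuousConstSMul G E]

/-- cocycles with values in `ℓ²(X)` are coboundaries when the homology vanishes. -/
lemma coboundary_deg (hfree : ∀ (g : G) (e : E), g • e = e → g = 1) {m : ℕ}
    (hE : HZero E (m + 1)) (h : ∀ i, i ≤ m + 1 → ¬ Nontrivial (Hgy (lam G) E i))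
    (hst : ∀ x : X, Amenable (MulAction.stabilizer G x))
    (b : Tup G (m + 1) → Raw.L2 X)
    (hb : ∀ (g : G) (e : Tup G (m + 1)), b (g • e) = Raw.tr g (b e))
    (hbd : ∀ e, dlt b e = 0) :
    ∃ c : Tup G m → Raw.L2 X, (∀ (g : G) (e : Tup G m), c (g • e) = Raw.tr g (c e)) ∧
      ∀ e, dlt c e = b e := by
  let _ : Module (Cr G) (Raw.L2 X) :=
    Module.compHom (Raw.L2 X) ((Raw.rep (X := X) hst).comp (toRaw G))
  have hsm : ∀ (g : G) (v : Raw.L2 X), lam G g • v = Raw.tr g v := by
    intro g v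
    show Raw.rep hst (toRaw G (lam G g)) v = Raw.tr g v
    rw [toRaw_lam, Raw.rep_lam]
  have _ : IsScalarTower ℂ (Cr G) (Raw.L2 X) := by
    refine ⟨fun z a v => ?_⟩
    show Raw.rep hst (toRaw G (z • a)) v = z • Raw.rep hst (toRaw G a) v
    rw [rep_smul]
    rfl
  obtain ⟨c, hc1, hc2⟩ := coboundary_of_trivial_deg (lam G) hfree m hE h b
    (fun g e => by rw [hsm, hb]) hbd
  exact ⟨c, fun g e => by rw [← hsm, hc1], hc2⟩

end rep

section eval

variable {G : Type u} [Group G] {X : Type w} [MulAction G X]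

/-- pairing with a finitely supported function. -/
noncomputable def pT (T : X →₀ ℂ) : (X → ℂ) →ₗ[ℂ] ℂ := ∑ x ∈ T.support, T x • LinearMap.proj x

lemma pT_eq (T : X →₀ ℂ) (u : X → ℂ) : pT T u = Finsupp.linearCombination ℂ u T := by
  show (∑ x ∈ T.support, T x • LinearMap.proj x : (X → ℂ) →ₗ[ℂ] ℂ) u = _
  rw [LinearMap.sum_apply, Finsupp.linearCombination_apply, Finsupp.sum]
  rfl

/-- The pairings of an equivariant square summable cochain with flat functions of bounded energy
are almost invariant. -/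
lemma almost_inv {m : ℕ} (c : Tup G m → X → ℂ) (hc : ∀ e, Summable fun x => ‖c e x‖ ^ 2)
    (hceq : ∀ (g : G) (e : Tup G m) (x : X), c (g • e) x = c e (g⁻¹ • x)) (S : Set G) (C : ℝ)
    (y : Tup G m →₀ ℂ)
    (hy : y ∈ Submodule.span ℂ {c | ∃ a ∈ S, ∃ e : Tup G m,
      c = Finsupp.single (a • e) (1 : ℂ) - Finsupp.single e 1}) :
    ∀ δ : ℝ, 0 < δ → ∃ ε : ℝ, 0 < ε ∧ ∀ T : X →₀ ℂ,
      (∀ s ∈ S, (∀ x, ‖T (s • x) - T x‖ ≤ ε) ∧ ∀ P : Finset X, ∑ x ∈ P,
        ‖T (s • x) - T x‖ ^ 2 ≤ C) →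
      ‖Finsupp.linearCombination ℂ (fun e => pT T (c e)) y‖ ≤ δ := by
  induction hy using Submodule.span_induction with
  | mem y hy =>
    obtain ⟨s, hs, e, rfl⟩ := hy
    intro δ hδ
    obtain ⟨ε, hε, h⟩ := weak_small (c e) (hc e) C δ hδ
    refine ⟨ε, hε, fun T hT => ?_⟩
    let D : X →₀ ℂ := T.mapDomain (fun x => s⁻¹ • x) - T
    have hDap : ∀ x, D x = T (s • x) - T x := by
      intro x
      show (T.mapDomain (fun x => s⁻¹ • x) - T) x = _
      rw [Finsupp.sub_apply]
      congr 1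
      have h1 := Finsupp.mapDomain_apply (f := fun x : X => s⁻¹ • x) (MulAction.injective s⁻¹) T
        (s • x)
      simp only [inv_smul_smul] at h1
      exact h1
    have h2 : pT T (c (s • e)) - pT T (c e) = Finsupp.linearCombination ℂ (c e) D := by
      have h3 : c (s • e) = fun x => c e (s⁻¹ • x) := funext fun x => hceq s e x
      rw [pT_eq, pT_eq, h3]
      show _ = Finsupp.linearCombination ℂ (c e) (T.mapDomain (fun x => s⁻¹ • x) - T)
      rw [map_sub, Finsupp.linearCombination_mapDomain]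
      rfl
    rw [map_sub, Finsupp.linearCombination_single, Finsupp.linearCombination_single, one_smul,
      one_smul, h2]
    obtain ⟨h4, h5⟩ := hT s hs
    exact h D (fun x => by rw [hDap]; exact h4 x) (fun P => by simp only [hDap]; exact h5 P)
  | zero =>
    intro δ hδ
    exact ⟨1, one_pos, fun T _ => by rw [map_zero, norm_zero]; exact hδ.le⟩
  | add x y _ _ hx hy =>
    intro δ hδ
    obtain ⟨ε₁, hε₁, h₁⟩ := hx (δ / 2) (half_pos hδ)
    obtain ⟨ε₂, hε₂, h₂⟩ := hy (δ / 2) (half_pos hδ)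
    refine ⟨min ε₁ ε₂, lt_min hε₁ hε₂, fun T hT => ?_⟩
    rw [map_add]
    refine (norm_add_le _ _).trans ?_
    have h3 := h₁ T fun s hs =>
      ⟨fun x => ((hT s hs).1 x).trans (min_le_left _ _), (hT s hs).2⟩
    have h4 := h₂ T fun s hs =>
      ⟨fun x => ((hT s hs).1 x).trans (min_le_right _ _), (hT s hs).2⟩
    linarith
  | smul z x _ hx =>
    intro δ hδ
    obtain ⟨ε, hε, h⟩ := hx (δ / (‖z‖ + 1)) (by positivity)
    refine ⟨ε, hε, fun T hT => ?_⟩
    rw [map_smul, norm_smul]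
    have h1 := h T hT
    have h2 : ‖z‖ * (δ / (‖z‖ + 1)) ≤ δ := by
      rw [mul_div_assoc', div_le_iff₀ (by positivity)]
      nlinarith [norm_nonneg z]
    exact (mul_le_mul_of_nonneg_left h1 (norm_nonneg z)).trans h2

/-- a trivial cocycle evaluates to zero on a cycle with recurrent orbits. -/
theorem eval_zero_deg {m : ℕ} (c : Tup G m → X → ℂ) (hc : ∀ e, Summable fun x => ‖c e x‖ ^ 2)
    (hceq : ∀ (g : G) (e : Tup G m) (x : X), c (g • e) x = c e (g⁻¹ • x)) (S : Set G) (O : Set X)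
    (hO : ∀ s ∈ S, ∀ x : X, s • x ∈ O ↔ x ∈ O) (hrec : WRec S O)
    (z : Tup G (m + 1) →₀ ℂ)
    (hz : bdT G m z ∈ Submodule.span ℂ {c | ∃ a ∈ S, ∃ e : Tup G m,
      c = Finsupp.single (a • e) (1 : ℂ) - Finsupp.single e 1})
    (f : X →₀ ℂ) (hf : (f : X → ℂ) = Finsupp.linearCombination ℂ (dlt c) z) :
    (∑' x : O, f x) = 0 := by
  classical
  have hsum : (∑' x : O, f x) = ∑ x ∈ f.support.filter (· ∈ O), f x := by
    rw [tsum_subtype O (fun x => f x), tsum_eq_sum (s := f.support.filter (· ∈ O))]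
    · refine Finset.sum_congr rfl fun x hx => ?_
      rw [Set.indicator_of_mem (Finset.mem_filter.1 hx).2]
    · intro x hx
      by_cases hxO : x ∈ O
      · rw [Set.indicator_of_mem hxO]
        by_contra h
        exact hx (Finset.mem_filter.2 ⟨Finsupp.mem_support_iff.2 h, hxO⟩)
      · exact Set.indicator_of_notMem hxO _
  rw [hsum]
  obtain ⟨C, hC⟩ := hrec (f.support.filter (· ∈ O)) (fun x hx => by
    simp at hx; exact hx.2)
  refine norm_le_zero_iff.1 (le_of_forall_pos_le_add fun δ hδ => ?_)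
  rw [zero_add]
  obtain ⟨ε, hε, hεT⟩ := almost_inv c hc hceq S C _ hz δ hδ
  obtain ⟨T₀, hT1, hT2⟩ := hC ε hε
  let T : X →₀ ℂ := T₀.filter (· ∈ O)
  have hTO : ∀ x ∈ O, T x = T₀ x := fun x hx => Finsupp.filter_apply_pos _ _ hx
  have hTO' : ∀ x, x ∉ O → T x = 0 := fun x hx => Finsupp.filter_apply_neg _ _ hx
  have hval : ∀ s ∈ S, ∀ x, ‖T (s • x) - T x‖ ≤ ‖T₀ (s • x) - T₀ x‖ := by
    intro s hs x
    by_cases hx : x ∈ O
    · rw [hTO x hx, hTO _ ((hO s hs x).2 hx)]
    · rw [hTO' x hx, hTO' _ (fun h => hx ((hO s hs x).1 h)), sub_self, norm_zero]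
      exact norm_nonneg _
  have hfΛ : ∑ x ∈ f.support.filter (· ∈ O), f x = pT T f := by
    show _ = (∑ x ∈ T.support, T x • LinearMap.proj x : (X → ℂ) →ₗ[ℂ] ℂ) f
    rw [LinearMap.sum_apply]
    have h1 : ∑ x ∈ T.support, (T x • LinearMap.proj x : (X → ℂ) →ₗ[ℂ] ℂ) f =
        ∑ x ∈ T.support ∪ f.support.filter (· ∈ O), T x * f x := by
      refine Finset.sum_subset Finset.subset_union_left fun x _ hx => ?_
      show T x * f x = 0
      rw [Finsupp.notMem_support_iff.1 hx, zero_mul]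
    rw [h1]
    have h2 : ∀ x ∈ f.support.filter (· ∈ O), f x = T x * f x := by
      intro x hx
      rw [hTO x (Finset.mem_filter.1 hx).2, hT1 x hx, one_mul]
    rw [Finset.sum_congr rfl h2]
    refine Finset.sum_subset Finset.subset_union_right fun x _ hx => ?_
    by_cases hxO : x ∈ O
    · have : f x = 0 := by
        by_contra h
        exact hx (Finset.mem_filter.2 ⟨Finsupp.mem_support_iff.2 h, hxO⟩)
      rw [this, mul_zero]
    · rw [hTO' x hxO, zero_mul]
  have h3 : pT T f = Finsupp.linearCombination ℂ (fun e => pT T (c e)) (bdT G m z) := by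
    rw [hf, lc_bdT, lc_map]
    congr 2
    funext e
    rw [dlt_map]
  rw [hfΛ, h3]
  refine hεT T fun s hs => ⟨fun x => (hval s hs x).trans ((hT2 s hs).1 x), fun P => ?_⟩
  refine (Finset.sum_le_sum fun x _ => ?_).trans ((hT2 s hs).2 P)
  exact pow_le_pow_left₀ (norm_nonneg _) (hval s hs x) 2

end eval

section final

variable {G : Type u} [Group G] {E : Type v} [TopologicalSpace E] [PathConnectedSpace E]
  [MulAction G E] [ContinuousConstSMul G E] {X : Type w} [MulAction G X]

/-- functions of finite support as vectors. -/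
noncomputable def embf (f : X → ℂ) (hf : {x | f x ≠ 0}.Finite) : Raw.L2 X :=
  ⟨f, memℓp_gen (by
    refine summable_of_hasFiniteSupport (hf.subset fun x hx => ?_)
    intro h
    apply hx
    simp [h])⟩

lemma embf_apply (f : X → ℂ) (hf : {x | f x ≠ 0}.Finite) (x : X) : embf f hf x = f x := rfl

/-- cocycles with finitely supported values detected on cycles with recurrent orbits. -/
theorem of_recurrent_deg (hfree : ∀ (g : G) (e : E), g • e = e → g = 1) {m : ℕ}
    (hE : HZero E (m + 1)) (hst : ∀ x : X, Amenable (MulAction.stabilizer G x))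
    (b : Tup G (m + 1) → X → ℂ) (hfin : ∀ e, {x | b e x ≠ 0}.Finite)
    (hb : ∀ (g : G) (e : Tup G (m + 1)) (x : X), b (g • e) x = b e (g⁻¹ • x))
    (hbd : ∀ e, dlt b e = 0) (S : Set G) (O : Set X)
    (hO : ∀ s ∈ S, ∀ x : X, s • x ∈ O ↔ x ∈ O) (hrec : WRec S O)
    (z : Tup G (m + 1) →₀ ℂ)
    (hz : bdT G m z ∈ Submodule.span ℂ {c | ∃ a ∈ S, ∃ e : Tup G m,
      c = Finsupp.single (a • e) (1 : ℂ) - Finsupp.single e 1})
    (hne : (∑' x : O, z.sum fun e a => a * b e x) ≠ 0) :
    ∃ i, i ≤ m + 1 ∧ Nontrivial (Hgy (lam G) E i) := by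
  classical
  by_contra hcon
  push Not at hcon
  have htriv : ∀ i, i ≤ m + 1 → ¬ Nontrivial (Hgy (lam G) E i) := fun i hi => by
    have := hcon i hi
    rwa [not_nontrivial_iff_subsingleton]
  obtain ⟨c, hc1, hc2⟩ := coboundary_deg hfree hE htriv hst (fun e => embf (b e) (hfin e))
    (fun g e => by
      ext x
      exact hb g e x)
    (fun e => by
      ext x
      rw [← crdL_apply, dlt_map]
      have h1 := congrFun (hbd e) x
      rw [dlt, Finset.sum_apply] at h1
      exact h1)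
  let f : X →₀ ℂ := z.sum fun e a => a • Finsupp.onFinset (hfin e).toFinset (b e)
    (fun x hx => by rw [Set.Finite.mem_toFinset]; exact hx)
  have hf : ∀ x, f x = z.sum fun e a => a * b e x := by
    intro x
    show (z.sum fun e a => a • Finsupp.onFinset (hfin e).toFinset (b e) _) x = _
    rw [Finsupp.sum, Finsupp.sum, Finsupp.finsetSum_apply]
    rfl
  apply hne
  have h1 : (∑' x : O, z.sum fun e a => a * b e x) = ∑' x : O, f x :=
    tsum_congr fun x => (hf x).symm
  rw [h1]
  refine eval_zero_deg (fun e x => c e x) (fun e => Raw.summable_sq (c e)) (fun g e x => ?_)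
    S O hO hrec z hz f ?_
  · show c (g • e) x = c e (g⁻¹ • x)
    rw [hc1]
    rfl
  · funext x
    rw [hf, Finsupp.linearCombination_apply, Finsupp.sum, Finsupp.sum, Finset.sum_apply]
    refine Finset.sum_congr rfl fun e _ => ?_
    rw [Pi.smul_apply, smul_eq_mul]
    congr 1
    have h2 := congrArg (fun ξ : Raw.L2 X => (ξ : ∀ _ : X, ℂ) x) (hc2 e)
    have h3 : dlt (fun e x => c e x) e x = crdL x (dlt c e) := by
      rw [dlt_map, dlt, Finset.sum_apply]
      rfl
    rw [h3]
    exact h2.symm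

end final

end Pool.Agent.LibZIS
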