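import Mathlib

/-!
Working versions of the translation operators and of the reduced group C*-algebra.
-/

set_option autoImplicit false

namespace Pool.Agent.LibZIS.Raw

universe u v w

/-- The Hilbert space `ℓ²(X)`. -/
noncomputable abbrev L2 (X : Type u) := lp (fun _ : X => ℂ) 2

/-- The isometry of `ℓ²(X)` induced by a permutation of `X`: `(perm σ ξ) x = ξ (σ⁻¹ x)`. -/
noncomputable def perm {X : Type u} (σ : Equiv.Perm X) : L2 X →ₗᵢ[ℂ] L2 X where
  toFun ξ := ⟨fun x => ξ (σ.symm x), memℓp_gen (by
    have h := (memℓp_gen_iff (by simp)).1 (lp.memℓp ξ)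
    exact (σ.symm.summable_iff (f := fun x => ‖ξ x‖ ^ (2 : ENNReal).toReal)).2 h)⟩
  map_add' ξ η := rfl
  map_smul' c ξ := rfl
  norm_map' ξ := by
    have hp : (0 : ℝ) < (2 : ENNReal).toReal := by simp
    rw [lp.norm_eq_tsum_rpow hp, lp.norm_eq_tsum_rpow hp]
    congr 1
    exact σ.symm.tsum_eq (fun x => ‖ξ x‖ ^ (2 : ENNReal).toReal)

/-- The translation operator `(tr g ξ) x = ξ (g⁻¹ • x)` on `ℓ²(X)` for a `G`-set `X`. For `X = G`
this is the left regular representation of `G`. -/
noncomputable def tr {G : Type u} [Group G] {X : Type v} [MulAction G X] (g : G) :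
    L2 X →L[ℂ] L2 X := (perm (MulAction.toPerm g)).toContinuousLinearMap

lemma tr_apply {G : Type u} [Group G] {X : Type v} [MulAction G X] (g : G) (ξ : L2 X) (x : X) :
    tr g ξ x = ξ (g⁻¹ • x) := rfl

lemma norm_tr {G : Type u} [Group G] {X : Type v} [MulAction G X] (g : G) (ξ : L2 X) :
    ‖(tr g ξ : L2 X)‖ = ‖ξ‖ := (perm (MulAction.toPerm g)).norm_map ξ

lemma tr_one {G : Type u} [Group G] {X : Type v} [MulAction G X] :
    (tr (1 : G) : L2 X →L[ℂ] L2 X) = 1 := by
  ext ξ x
  rw [tr_apply, inv_one, one_smul]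
  rfl

lemma tr_mul {G : Type u} [Group G] {X : Type v} [MulAction G X] (g h : G) :
    (tr (g * h) : L2 X →L[ℂ] L2 X) = tr g * tr h := by
  ext ξ x
  rw [tr_apply, mul_inv_rev, mul_smul]
  rfl

/-- The reduced group C*-algebra of `G`, as a subalgebra of the bounded operators on `ℓ²(G)`: the
closure, in the operator norm, of the algebra generated by (equivalently, of the linear span of)
the left translations. -/
noncomputable def crAlg (G : Type u) [Group G] : Subalgebra ℂ (L2 G →L[ℂ] L2 G) :=
  (Algebra.adjoin ℂ (Set.range (tr : G → (L2 G →L[ℂ] L2 G)))).topologicalClosure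

/-- The reduced group C*-algebra of `G`. -/
def Cr (G : Type u) [Group G] : Type u := ↥(crAlg G)

noncomputable instance (G : Type u) [Group G] : Ring (Cr G) := inferInstanceAs (Ring ↥(crAlg G))

/-- The group elements in the reduced group C*-algebra. -/
noncomputable def lam (G : Type u) [Group G] : G →* Cr G where
  toFun g := ⟨tr g, subset_closure (Algebra.subset_adjoin ⟨g, rfl⟩)⟩
  map_one' := Subtype.ext tr_one
  map_mul' g h := Subtype.ext (tr_mul g h)

end Pool.Agent.LibZIS.Raw
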