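import Pool.Agent.LibZIS.Defs
import Pool.Agent.LibZIS.Raw

/-!
Følner's condition gives almost invariant unit vectors.
-/

set_option autoImplicit false

namespace Pool.Agent.LibZIS.Raw

universe u v w

/-- the point mass at `x`. -/
noncomputable def pm {X : Type u} [DecidableEq X] (x : X) : L2 X := lp.single 2 x (1 : ℂ)

/-- the vector with value `c` on the finite set `F`. -/
noncomputable def ind {X : Type u} [DecidableEq X] (F : Finset X) : L2 X :=
  ∑ x ∈ F, lp.single 2 x (1 : ℂ)

lemma lpsum_apply {X : Type u} [DecidableEq X] (F : Finset X) (f : X → ℂ) (x : X) :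
    (∑ y ∈ F, lp.single 2 y (f y) : L2 X) x = if x ∈ F then f x else 0 := by
  have h1 : ((∑ y ∈ F, lp.single 2 y (f y) : L2 X) : ∀ _ : X, ℂ) =
      ∑ y ∈ F, ((lp.single 2 y (f y) : L2 X) : ∀ _ : X, ℂ) := by
    exact map_sum (lp.coeFnAddMonoidHom (fun _ : X => ℂ) 2) _ _
  rw [h1, Finset.sum_apply]
  split_ifs with h
  · rw [Finset.sum_eq_single x]
    · rw [lp.single_apply_self]
    · intro y _ hy
      rw [lp.single_apply_ne 2 y _ (Ne.symm hy)]
    · intro h'; exact absurd h h'
  · refine Finset.sum_eq_zero fun y hy => ?_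
    rw [lp.single_apply_ne]
    rintro rfl; exact h hy

lemma ind_apply {X : Type u} [DecidableEq X] (F : Finset X) (x : X) :
    ind F x = if x ∈ F then 1 else 0 := lpsum_apply F (fun _ => 1) x

lemma norm_lpsum_sq {X : Type u} [DecidableEq X] (F : Finset X) (f : X → ℂ) :
    ‖(∑ y ∈ F, lp.single 2 y (f y) : L2 X)‖ ^ 2 = ∑ y ∈ F, ‖f y‖ ^ 2 := by
  have h := lp.norm_sum_single (E := fun _ : X => ℂ) (p := 2) (by simp) f F
  simpa using h

lemma norm_ind_sq {X : Type u} [DecidableEq X] (F : Finset X) : ‖ind F‖ ^ 2 = F.card := by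
  have := norm_lpsum_sq F (fun _ => (1 : ℂ))
  simpa [ind] using this

lemma norm_ind_sub_sq {X : Type u} [DecidableEq X] (F F' : Finset X) :
    ‖ind F - ind F'‖ ^ 2 = (F \ F').card + (F' \ F).card := by
  have h1 : ind F - ind F' = ∑ y ∈ F ∪ F', lp.single 2 y
      ((if y ∈ F then 1 else 0) - (if y ∈ F' then 1 else 0) : ℂ) := by
    ext x
    rw [lp.coeFn_sub, Pi.sub_apply, ind_apply, ind_apply, lpsum_apply]
    by_cases h : x ∈ F <;> by_cases h' : x ∈ F' <;> simp [h, h']
  rw [h1, norm_lpsum_sq]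
  have h2 : ∀ y : X, ‖((if y ∈ F then 1 else 0) - (if y ∈ F' then 1 else 0) : ℂ)‖ ^ 2 =
      (if y ∈ F \ F' then (1 : ℝ) else 0) + (if y ∈ F' \ F then (1 : ℝ) else 0) := by
    intro y
    by_cases h : y ∈ F <;> by_cases h' : y ∈ F' <;> simp [h, h']
  rw [Finset.sum_congr rfl fun y _ => h2 y, Finset.sum_add_distrib, ← Finset.sum_filter,
    ← Finset.sum_filter, Finset.sum_const, Finset.sum_const]
  congr 1
  · rw [nsmul_eq_mul, mul_one]
    congr 2
    ext y
    simp only [Finset.mem_filter, Finset.mem_union, Finset.mem_sdiff]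
    tauto
  · rw [nsmul_eq_mul, mul_one]
    congr 2
    ext y
    simp only [Finset.mem_filter, Finset.mem_union, Finset.mem_sdiff]
    tauto

lemma tr_single {G : Type u} [Group G] {X : Type v} [DecidableEq X] [MulAction G X] (g : G)
    (x : X) (c : ℂ) : tr g (lp.single 2 x c : L2 X) = lp.single 2 (g • x) c := by
  ext y
  rw [tr_apply]
  by_cases h : y = g • x
  · subst h
    rw [inv_smul_smul, lp.single_apply_self, lp.single_apply_self]
  · rw [lp.single_apply_ne, lp.single_apply_ne]
    · exact h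
    · intro h'
      apply h
      rw [← h', smul_inv_smul]

lemma tr_ind {G : Type u} [Group G] {X : Type v} [DecidableEq X] [MulAction G X] (g : G)
    (F : Finset X) : tr g (ind F) = ind (F.image fun x => g • x) := by
  rw [ind, ind, map_sum, Finset.sum_image fun x _ y _ h => smul_left_cancel g h]
  exact Finset.sum_congr rfl fun x _ => tr_single g x 1

/-- Følner's condition gives almost invariant unit vectors. -/
theorem exists_almost_inv {C : Type u} [Group C] (hC : Amenable C) (S : Finset C) {ε : ℝ}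
    (hε : 0 < ε) : ∃ w : L2 C, ‖w‖ = 1 ∧ ∀ s ∈ S, ‖(tr s w : L2 C) - w‖ ≤ ε := by
  classical
  obtain ⟨F, hF, hS⟩ := hC S (ε ^ 2 / 2) (by positivity)
  have hcard : (0 : ℝ) < F.card := by exact_mod_cast hF.card_pos
  have hsq : ‖ind F‖ ^ 2 = F.card := norm_ind_sq F
  have hn : 0 < ‖ind F‖ := by
    rcases (norm_nonneg (ind F)).lt_or_eq with h | h
    · exact h
    · rw [← h] at hsq
      norm_num at hsq
      rw [← hsq] at hcard
      simp at hcard
  have hn0 : ‖ind F‖ ≠ 0 := hn.ne'
  refine ⟨((‖ind F‖⁻¹ : ℝ) : ℂ) • ind F, ?_, fun s hs => ?_⟩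
  · rw [norm_smul, Complex.norm_real, Real.norm_eq_abs, abs_of_pos (inv_pos.2 hn),
      inv_mul_cancel₀ hn0]
  · rw [map_smul, ← smul_sub, norm_smul, Complex.norm_real, Real.norm_eq_abs,
      abs_of_pos (inv_pos.2 hn), tr_ind]
    have h1 := norm_ind_sub_sq (F.image fun x => s • x) F
    have himg : (F.image fun x => s • x).card = F.card :=
      Finset.card_image_of_injective _ (MulAction.injective s)
    have h2 : (F \ F.image fun x => s • x).card = ((F.image fun x => s • x) \ F).card :=
      Finset.card_sdiff_comm himg.symm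
    have h3 : (((F.image fun x => s • x) \ F).card : ℝ) ≤ ε ^ 2 / 2 * F.card := by
      refine le_trans ?_ (hS s hs)
      have h4 : (F.image fun x => s • x) \ F = (F.filter fun x => s * x ∉ F).image
          fun x => s • x := by
        ext y
        simp only [Finset.mem_sdiff, Finset.mem_image, Finset.mem_filter, smul_eq_mul]
        constructor
        · rintro ⟨⟨x, hx, rfl⟩, h⟩
          exact ⟨x, ⟨hx, h⟩, rfl⟩
        · rintro ⟨x, ⟨hx, h⟩, rfl⟩
          exact ⟨⟨x, hx, rfl⟩, h⟩
      have h5 : ((F : Set C) \ {x | s * x ∈ F}) = ((F.filter fun x => s * x ∉ F : Finset C) :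
          Set C) := by
        ext y; simp
      rw [h4, h5, Set.ncard_coe_finset]
      exact_mod_cast Finset.card_image_le
    rw [h2] at h1
    have h6 : ‖ind (F.image fun x => s • x) - ind F‖ ^ 2 ≤ (ε * ‖ind F‖) ^ 2 := by
      rw [h1, mul_pow, hsq]
      linarith
    have h7 : ‖ind (F.image fun x => s • x) - ind F‖ ≤ ε * ‖ind F‖ :=
      le_of_sq_le_sq h6 (by positivity)
    calc ‖ind F‖⁻¹ * ‖ind (F.image fun x => s • x) - ind F‖
        ≤ ‖ind F‖⁻¹ * (ε * ‖ind F‖) := mul_le_mul_of_nonneg_left h7 (by positivity)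
      _ = ε := by field_simp

end Pool.Agent.LibZIS.Raw
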