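import Pool.Agent.LibZIS.Folner

/-!
For a transitive piece of a `G`-set with amenable stabilizer, the permutation representation
lifts approximately to the regular representation.
-/

set_option autoImplicit false

namespace Pool.Agent.LibZIS.Raw

universe u v w

section lift

variable {G : Type u} [Group G] {X : Type v} [MulAction G X] (o : X)

/-- a group element carrying the base point to `x`, if there is one. -/
noncomputable def sec (x : X) : G :=
  open Classical in if h : ∃ g : G, g • o = x then h.choose else 1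

lemma sec_smul (x : X) (hx : x ∈ MulAction.orbit G o) : (sec o x : G) • o = x := by
  have h : ∃ g : G, g • o = x := hx
  rw [sec, dif_pos h]
  exact h.choose_spec

/-- the coordinate of `h` in the stabilizer. -/
noncomputable def crd (h : G) : MulAction.stabilizer G o :=
  ⟨(sec o (h • o))⁻¹ * h, by
    rw [MulAction.mem_stabilizer_iff, mul_smul, inv_smul_eq_iff]
    exact (sec_smul o (h • o) ⟨h, rfl⟩).symm⟩

/-- `G` is the product of the orbit and the stabilizer. -/
noncomputable def coords : G ≃ MulAction.orbit G o × MulAction.stabilizer G o where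
  toFun h := (⟨h • o, ⟨h, rfl⟩⟩, crd o h)
  invFun p := sec o (p.1 : X) * (p.2 : G)
  left_inv h := by
    show sec o (h • o) * ((sec o (h • o))⁻¹ * h) = h
    rw [mul_inv_cancel_left]
  right_inv p := by
    obtain ⟨⟨x, hx⟩, ⟨c, hc⟩⟩ := p
    have h1 : (sec o x * c : G) • o = x := by
      rw [mul_smul, MulAction.mem_stabilizer_iff.1 hc]
      exact sec_smul o x hx
    refine Prod.ext (Subtype.ext h1) (Subtype.ext ?_)
    show (sec o ((sec o x * c : G) • o))⁻¹ * (sec o x * c) = c
    rw [h1, inv_mul_cancel_left]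

lemma summable_sq {Y : Type v} (ξ : L2 Y) : Summable fun x => ‖ξ x‖ ^ 2 := by
  have h := (memℓp_gen_iff (by simp)).1 (lp.memℓp ξ)
  simpa using h

lemma norm_sq_eq {Y : Type v} (ξ : L2 Y) : ‖ξ‖ ^ 2 = ∑' x, ‖ξ x‖ ^ 2 := by
  have h := lp.norm_rpow_eq_tsum (p := 2) (by simp) ξ
  simpa using h

lemma lift_summable (w : L2 (MulAction.stabilizer G o)) (ξ : L2 X) :
    Summable fun p : MulAction.orbit G o × MulAction.stabilizer G o =>
      ‖ξ (p.1 : X)‖ ^ 2 * ‖w p.2‖ ^ 2 := by
  have h1 : Summable fun x : MulAction.orbit G o => ‖ξ (x : X)‖ ^ 2 :=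
    (summable_sq ξ).comp_injective Subtype.val_injective
  exact Summable.mul_of_nonneg (f := fun x : MulAction.orbit G o => ‖ξ (x : X)‖ ^ 2)
    (g := fun c => ‖w c‖ ^ 2) h1 (summable_sq w) (fun _ => sq_nonneg _) (fun _ => sq_nonneg _)

/-- the lift of a vector `ξ` of `ℓ²(X)` by a vector `w` of `ℓ²(C)`. -/
noncomputable def lift (w : L2 (MulAction.stabilizer G o)) (ξ : L2 X) : L2 G :=
  ⟨fun h => ξ (h • o) * w (crd o h), memℓp_gen (by
    have h := ((coords (G := G) o).summable_iff).2 (lift_summable o w ξ)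
    refine h.congr fun x => ?_
    simp [coords, mul_pow])⟩

lemma lift_apply (w : L2 (MulAction.stabilizer G o)) (ξ : L2 X) (h : G) :
    lift o w ξ h = ξ (h • o) * w (crd o h) := rfl

lemma lift_add (w : L2 (MulAction.stabilizer G o)) (ξ η : L2 X) :
    lift o w (ξ + η) = lift o w ξ + lift o w η := by
  ext h
  rw [lp.coeFn_add, Pi.add_apply, lift_apply, lift_apply, lift_apply, lp.coeFn_add, Pi.add_apply,
    add_mul]

lemma lift_smul (w : L2 (MulAction.stabilizer G o)) (c : ℂ) (ξ : L2 X) :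
    lift o w (c • ξ) = c • lift o w ξ := by
  ext h
  rw [lp.coeFn_smul, Pi.smul_apply, lift_apply, lift_apply, lp.coeFn_smul, Pi.smul_apply,
    smul_mul_assoc]

lemma lift_sub_left (w w' : L2 (MulAction.stabilizer G o)) (ξ : L2 X) :
    lift o (w - w') ξ = lift o w ξ - lift o w' ξ := by
  ext h
  rw [lp.coeFn_sub, Pi.sub_apply, lift_apply, lift_apply, lift_apply, lp.coeFn_sub, Pi.sub_apply,
    mul_sub]

lemma norm_lift_sq (w : L2 (MulAction.stabilizer G o)) (ξ : L2 X) :
    ‖lift o w ξ‖ ^ 2 = (∑' x : MulAction.orbit G o, ‖ξ (x : X)‖ ^ 2) * ‖w‖ ^ 2 := by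
  have h1 : Summable fun x : MulAction.orbit G o => ‖ξ (x : X)‖ ^ 2 :=
    (summable_sq ξ).comp_injective Subtype.val_injective
  rw [norm_sq_eq, norm_sq_eq w, h1.tsum_mul_tsum (summable_sq w) (lift_summable o w ξ),
    ← (coords (G := G) o).tsum_eq]
  refine tsum_congr fun h => ?_
  rw [lift_apply, norm_mul, mul_pow]
  rfl

lemma norm_lift_of_mem (w : L2 (MulAction.stabilizer G o)) (ξ : L2 X)
    (hξ : ∀ x, x ∉ MulAction.orbit G o → ξ x = 0) : ‖lift o w ξ‖ = ‖ξ‖ * ‖w‖ := by
  have h1 : (∑' x : MulAction.orbit G o, ‖ξ (x : X)‖ ^ 2) = ‖ξ‖ ^ 2 := by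
    rw [norm_sq_eq]
    refine tsum_subtype_eq_of_support_subset (f := fun x => ‖ξ x‖ ^ 2) fun x hx => ?_
    by_contra h
    exact hx (by simp [hξ x h])
  have h2 : ‖lift o w ξ‖ ^ 2 = (‖ξ‖ * ‖w‖) ^ 2 := by
    rw [norm_lift_sq, h1, mul_pow]
  exact (sq_eq_sq₀ (norm_nonneg _) (by positivity)).1 h2

lemma norm_lift_single [DecidableEq X] (w : L2 (MulAction.stabilizer G o)) {x : X}
    (hx : x ∈ MulAction.orbit G o) (c : ℂ) : ‖lift o w (lp.single 2 x c)‖ = ‖c‖ * ‖w‖ := by
  rw [norm_lift_of_mem, lp.norm_single (by simp)]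
  intro y hy
  rw [lp.single_apply_ne]
  rintro rfl
  exact hy hx

/-- the cocycle of the stabilizer. -/
noncomputable def coc (g : G) (x : X) (hx : x ∈ MulAction.orbit G o) :
    MulAction.stabilizer G o :=
  ⟨(sec o (g • x))⁻¹ * g * sec o x, by
    have hgx : g • x ∈ MulAction.orbit G o := by
      rw [← MulAction.orbit_eq_iff.2 hx]
      exact MulAction.mem_orbit x g
    rw [MulAction.mem_stabilizer_iff, mul_smul, mul_smul, sec_smul o x hx, inv_smul_eq_iff]
    exact (sec_smul o (g • x) hgx).symm⟩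

lemma tr_lift_single [DecidableEq X] (g : G) (w : L2 (MulAction.stabilizer G o)) {x : X}
    (hx : x ∈ MulAction.orbit G o) (c : ℂ) :
    tr g (lift o w (lp.single 2 x c)) = lift o (tr (coc o g x hx) w) (lp.single 2 (g • x) c) := by
  ext h
  rw [tr_apply, lift_apply, lift_apply, tr_apply]
  by_cases hh : h • o = g • x
  · have h1 : (g⁻¹ • h) • o = x := by
      rw [smul_assoc, hh, inv_smul_smul]
    rw [h1, hh, lp.single_apply_self, lp.single_apply_self]
    have h2 : crd o (g⁻¹ • h) = (coc o g x hx)⁻¹ • crd o h := by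
      apply Subtype.ext
      show (sec o ((g⁻¹ • h) • o))⁻¹ * (g⁻¹ • h) =
        ((sec o (g • x))⁻¹ * g * sec o x)⁻¹ * ((sec o (h • o))⁻¹ * h)
      rw [h1, hh, smul_eq_mul]
      group
    rw [h2]
  · have h1 : (g⁻¹ • h) • o ≠ x := by
      rw [smul_assoc]
      intro h2
      apply hh
      rw [← h2, smul_inv_smul]
    rw [lp.single_apply_ne 2 x _ h1, lp.single_apply_ne 2 (g • x) _ hh, zero_mul, zero_mul]

lemma norm_defect_single [DecidableEq X] (g : G) (w : L2 (MulAction.stabilizer G o)) {x : X}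
    (hx : x ∈ MulAction.orbit G o) (c : ℂ) :
    ‖(tr g (lift o w (lp.single 2 x c)) : L2 G) - lift o w (tr g (lp.single 2 x c))‖ =
      ‖c‖ * ‖(tr (coc o g x hx) w : L2 _) - w‖ := by
  have hgx : g • x ∈ MulAction.orbit G o := by
    rw [← MulAction.orbit_eq_iff.2 hx]
    exact MulAction.mem_orbit x g
  rw [tr_lift_single o g w hx, tr_single, ← lift_sub_left, norm_lift_single o _ hgx]

end lift

end Pool.Agent.LibZIS.Raw
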