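import Mathlib

/-!
Matrices over a ring acting on tuples of vectors of a module, contractions of complexes of free
modules.
-/

set_option autoImplicit false

namespace Pool.Agent.LibZIS

universe u v w

section mact

variable {K : Type u} [Ring K] [Algebra ℂ K] {M : Type v} [AddCommGroup M] [Module ℂ M]
  (α : K →ₐ[ℂ] Module.End ℂ M)

/-- a matrix over `K` acting on a tuple of vectors of a `K`-module. -/
noncomputable def mact {m n : ℕ} (N : Matrix (Fin m) (Fin n) K) (v : Fin n → M) : Fin m → M :=
  fun j => ∑ l, α (N j l) (v l)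

lemma mact_mul {m n p : ℕ} (N : Matrix (Fin m) (Fin n) K) (N' : Matrix (Fin n) (Fin p) K)
    (v : Fin p → M) : mact α (N * N') v = mact α N (mact α N' v) := by
  ext j
  simp only [mact, Matrix.mul_apply, map_sum, map_mul, LinearMap.sum_apply, Module.End.mul_apply]
  rw [Finset.sum_comm]

lemma mact_one {m : ℕ} (v : Fin m → M) : mact α (1 : Matrix (Fin m) (Fin m) K) v = v := by
  ext j
  simp only [mact]
  rw [Finset.sum_eq_single j]
  · simp
  · intro l _ hl
    rw [Matrix.one_apply_ne (Ne.symm hl), map_zero, LinearMap.zero_apply]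
  · intro h; exact absurd (Finset.mem_univ j) h

lemma mact_zero {m n : ℕ} (v : Fin n → M) : mact α (0 : Matrix (Fin m) (Fin n) K) v = 0 := by
  ext j
  simp [mact]

lemma mact_sub {m n : ℕ} (N N' : Matrix (Fin m) (Fin n) K) (v : Fin n → M) :
    mact α (N - N') v = mact α N v - mact α N' v := by
  ext j
  simp [mact]

lemma mact_add {m n : ℕ} (N N' : Matrix (Fin m) (Fin n) K) (v : Fin n → M) :
    mact α (N + N') v = mact α N v + mact α N' v := by
  ext j
  simp [mact, Finset.sum_add_distrib]

/-- intertwining operators. -/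
lemma mact_map {M' : Type w} [AddCommGroup M'] [Module ℂ M'] (α' : K →ₐ[ℂ] Module.End ℂ M')
    (f : M →ₗ[ℂ] M') (hf : ∀ κ v, f (α κ v) = α' κ (f v)) {m n : ℕ}
    (N : Matrix (Fin m) (Fin n) K) (v : Fin n → M) (j : Fin m) :
    f (mact α N v j) = mact α' N (fun l => f (v l)) j := by
  simp [mact, hf]

end mact

section contraction

variable {A : Type u} [Ring A] {n : ℕ → ℕ} (D : ∀ i, Matrix (Fin (n (i + 1))) (Fin (n i)) A)

/-- An acyclic complex of free modules has a contraction. -/
lemma exists_contraction (k : ℕ) (hDD : ∀ i, i + 1 ≤ k → D (i + 1) * D i = 0)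
    (h0 : ∀ a : Fin (n 0) → A, ∃ b, Matrix.vecMul b (D 0) = a)
    (h : ∀ i, i + 1 ≤ k → ∀ a : Fin (n (i + 1)) → A, Matrix.vecMul a (D i) = 0 →
      ∃ b, Matrix.vecMul b (D (i + 1)) = a) :
    ∃ s : ∀ i, Matrix (Fin (n i)) (Fin (n (i + 1))) A, s 0 * D 0 = 1 ∧
      ∀ i, i + 1 ≤ k → s (i + 1) * D (i + 1) + D i * s i = 1 := by
  classical
  induction k with
  | zero =>
    choose b hb using h0
    refine ⟨Function.update (fun _ => 0) 0 (Matrix.of fun j => b (Pi.single j 1)), ?_,
      fun i hi => absurd hi (by omega)⟩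
    rw [Function.update_self]
    ext j l
    have h1 := congrFun (hb (Pi.single j 1)) l
    rw [Matrix.mul_apply, Matrix.one_apply]
    simp only [Matrix.vecMul, dotProduct, Pi.single_apply] at h1
    simp only [Matrix.of_apply]
    rw [h1]
    simp only [eq_comm]
  | succ k ih =>
    obtain ⟨s, hs0, hs⟩ := ih (fun i hi => hDD i (by omega)) (fun i hi => h i (by omega))
    set P : Matrix (Fin (n (k + 1))) (Fin (n (k + 1))) A := 1 - D k * s k with hP
    have hcyc : P * D k = 0 := by
      rw [hP]
      rcases Nat.eq_zero_or_pos k with hk | hk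
      · subst hk
        rw [Matrix.sub_mul, Matrix.one_mul, Matrix.mul_assoc, hs0, Matrix.mul_one, sub_self]
      · obtain ⟨m, rfl⟩ : ∃ m, k = m + 1 := ⟨k - 1, by omega⟩
        have h1 := hs m le_rfl
        have h2 : s (m + 1) * D (m + 1) = 1 - D m * s m := by rw [← h1]; abel
        rw [Matrix.sub_mul, Matrix.one_mul, Matrix.mul_assoc, h2, Matrix.mul_sub, Matrix.mul_one,
          ← Matrix.mul_assoc, hDD m (by omega), Matrix.zero_mul, sub_zero, sub_self]
    have hrow : ∀ j, ∃ b, Matrix.vecMul b (D (k + 1)) = P j := by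
      intro j
      refine h k le_rfl _ ?_
      have h3 := congrFun hcyc j
      ext l
      have h4 := congrFun h3 l
      rw [Matrix.mul_apply] at h4
      exact h4
    choose b hb using hrow
    refine ⟨Function.update s (k + 1) (Matrix.of b), ?_, fun i hi => ?_⟩
    · rw [Function.update_of_ne (by omega)]
      exact hs0
    · rcases Nat.lt_or_ge i k with hi' | hi'
      · rw [Function.update_of_ne (by omega), Function.update_of_ne (by omega)]
        exact hs i (by omega)
      · have hik : i = k := by omega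
        subst hik
        rw [Function.update_self, Function.update_of_ne (by omega)]
        have h5 : Matrix.of b * D (i + 1) = P := by
          ext j l
          have h6 := congrFun (hb j) l
          rw [Matrix.mul_apply, ← h6]
          rfl
        rw [h5, hP]
        abel

end contraction

section neumann

variable {W : Type u} [NormedAddCommGroup W] [NormedSpace ℂ W]

lemma neumann_inj (E : W →L[ℂ] W) (hE : ‖E‖ < 1) {u u' : W} (h : u - E u = u' - E u') : u = u' := by
  have h1 : u - u' = E (u - u') := by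
    rw [map_sub]
    have : u - u' - (E u - E u') = 0 := by
      have h2 : u - u' - (E u - E u') = (u - E u) - (u' - E u') := by abel
      rw [h2, h, sub_self]
    exact sub_eq_zero.1 this
  have h3 : ‖u - u'‖ ≤ ‖E‖ * ‖u - u'‖ := by
    calc ‖u - u'‖ = ‖E (u - u')‖ := by rw [← h1]
      _ ≤ ‖E‖ * ‖u - u'‖ := E.le_opNorm _
  have h4 : ‖u - u'‖ = 0 := by
    by_contra h5
    have h6 : 0 < ‖u - u'‖ := lt_of_le_of_ne (norm_nonneg _) (Ne.symm h5)
    nlinarith
  exact sub_eq_zero.1 (norm_eq_zero.1 h4)

lemma neumann_surj [CompleteSpace W] (E : W →L[ℂ] W) (hE : ‖E‖ < 1) (v : W) : ∃ u : W, u - E u = v := by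
  obtain ⟨U, hU⟩ := isUnit_one_sub_of_norm_lt_one hE
  refine ⟨(↑U⁻¹ : W →L[ℂ] W) v, ?_⟩
  have h1 : ((1 - E) * (↑U⁻¹ : W →L[ℂ] W)) v = v := by
    rw [← hU, Units.mul_inv]
    rfl
  exact h1

end neumann

end Pool.Agent.LibZIS
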