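import Pool.Agent.LibZIS.Lift

/-!
The permutation representation on `ℓ²(X)` is weakly contained in the regular representation when
the point stabilizers are amenable.
-/

set_option autoImplicit false

namespace Pool.Agent.LibZIS.Raw

universe u v w

variable {G : Type u} [Group G] {X : Type v} [MulAction G X]

/-- the permutation representation. -/
noncomputable def trHom (G : Type u) [Group G] (X : Type v) [MulAction G X] :
    G →* (L2 X →L[ℂ] L2 X) where
  toFun := tr
  map_one' := tr_one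
  map_mul' := tr_mul

/-- the permutation representation of the group algebra. -/
noncomputable def T (G : Type u) [Group G] (X : Type v) [MulAction G X] :
    MonoidAlgebra ℂ G →ₐ[ℂ] (L2 X →L[ℂ] L2 X) := MonoidAlgebra.lift ℂ _ G (trHom G X)

lemma T_apply (f : MonoidAlgebra ℂ G) (ξ : L2 X) :
    T G X f ξ = ∑ g ∈ f.coeff.support, f.coeff g • tr g ξ := by
  rw [T, MonoidAlgebra.lift_apply, Finsupp.sum, sum_apply]
  rfl

/-- the lift as a linear map. -/
noncomputable def liftL (o : X) (w : L2 (MulAction.stabilizer G o)) : L2 X →ₗ[ℂ] L2 G where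
  toFun := lift o w
  map_add' := lift_add o w
  map_smul' := lift_smul o w

lemma exists_lift [DecidableEq X] (o : X) (hC : Amenable (MulAction.stabilizer G o))
    (f : MonoidAlgebra ℂ G) (s : Finset X) (hs : ∀ x ∈ s, x ∈ MulAction.orbit G o) (a : X → ℂ)
    {ε : ℝ} (hε : 0 < ε) : ∃ w : L2 (MulAction.stabilizer G o), ‖w‖ = 1 ∧
      ‖T G G f (lift o w (∑ x ∈ s, lp.single 2 x (a x))) -
        lift o w (T G X f (∑ x ∈ s, lp.single 2 x (a x)))‖ ≤ ε := by
  classical
  set K : ℝ := ∑ g ∈ f.coeff.support, ∑ x ∈ s, ‖f.coeff g‖ * ‖a x‖ with hK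
  have hK0 : 0 ≤ K := Finset.sum_nonneg fun g _ => Finset.sum_nonneg fun x _ => by positivity
  let κ : G × X → MulAction.stabilizer G o := fun p =>
    if h : p.2 ∈ MulAction.orbit G o then coc o p.1 p.2 h else 1
  obtain ⟨w, hw1, hw⟩ := exists_almost_inv hC ((f.coeff.support ×ˢ s).image κ)
    (ε := ε / (K + 1)) (by positivity)
  refine ⟨w, hw1, ?_⟩
  have h1 : T G G f (lift o w (∑ x ∈ s, lp.single 2 x (a x))) -
        lift o w (T G X f (∑ x ∈ s, lp.single 2 x (a x))) =
      ∑ g ∈ f.coeff.support, ∑ x ∈ s, f.coeff g • (tr g (lift o w (lp.single 2 x (a x))) -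
        lift o w (tr g (lp.single 2 x (a x)))) := by
    rw [T_apply, T_apply]
    show _ - liftL o w _ = _
    rw [map_sum, ← Finset.sum_sub_distrib]
    refine Finset.sum_congr rfl fun g _ => ?_
    rw [map_smul, ← smul_sub, ← Finset.smul_sum, Finset.sum_sub_distrib]
    congr 1
    show tr g (liftL o w _) - _ = _
    rw [map_sum, map_sum, map_sum, map_sum]
    rfl
  rw [h1]
  calc ‖∑ g ∈ f.coeff.support, ∑ x ∈ s, f.coeff g • (tr g (lift o w (lp.single 2 x (a x))) -
        lift o w (tr g (lp.single 2 x (a x))))‖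
      ≤ ∑ g ∈ f.coeff.support, ∑ x ∈ s, ‖f.coeff g • (tr g (lift o w (lp.single 2 x (a x))) -
        lift o w (tr g (lp.single 2 x (a x))))‖ :=
        (norm_sum_le _ _).trans (Finset.sum_le_sum fun g _ => norm_sum_le _ _)
    _ ≤ ∑ g ∈ f.coeff.support, ∑ x ∈ s, ‖f.coeff g‖ * ‖a x‖ * (ε / (K + 1)) := by
        refine Finset.sum_le_sum fun g hg => Finset.sum_le_sum fun x hx => ?_
        rw [norm_smul, norm_defect_single o g w (hs x hx), mul_assoc]
        refine mul_le_mul_of_nonneg_left (mul_le_mul_of_nonneg_left ?_ (norm_nonneg _))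
          (norm_nonneg _)
        have h2 := hw (κ (g, x)) (Finset.mem_image_of_mem _ (Finset.mk_mem_product hg hx))
        have h3 : κ (g, x) = coc o g x (hs x hx) := dif_pos (hs x hx)
        rw [h3] at h2
        exact h2
    _ = K * (ε / (K + 1)) := by
        rw [hK, Finset.sum_mul]
        exact Finset.sum_congr rfl fun g _ => (Finset.sum_mul _ _ _).symm
    _ ≤ ε := by
        rw [mul_div_assoc', div_le_iff₀ (by positivity)]
        nlinarith

/-- restriction to a subset. -/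
noncomputable def res (S : Set X) (ξ : L2 X) : L2 X :=
  open Classical in
  ⟨fun x => if x ∈ S then ξ x else 0, memℓp_gen (by
    have h : Summable fun x => ‖ξ x‖ ^ (2 : ENNReal).toReal :=
      (memℓp_gen_iff (by simp)).1 (lp.memℓp ξ)
    refine Summable.of_nonneg_of_le (fun x => by positivity) (fun x => ?_) h
    split_ifs
    · exact le_rfl
    · simp)⟩

open Classical in
lemma res_apply (S : Set X) (ξ : L2 X) (x : X) :
    res S ξ x = if x ∈ S then ξ x else 0 := by
  show (if x ∈ S then ξ x else 0) = _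
  rfl

lemma T_apply_apply (f : MonoidAlgebra ℂ G) (ξ : L2 X) (x : X) :
    T G X f ξ x = ∑ g ∈ f.coeff.support, f.coeff g * ξ (g⁻¹ • x) := by
  rw [T_apply]
  have h1 : ((∑ g ∈ f.coeff.support, f.coeff g • tr g ξ : L2 X) : ∀ _ : X, ℂ) =
      ∑ g ∈ f.coeff.support, ((f.coeff g • tr g ξ : L2 X) : ∀ _ : X, ℂ) := by
    exact map_sum (lp.coeFnAddMonoidHom (fun _ : X => ℂ) 2) _ _
  rw [h1, Finset.sum_apply]
  rfl

lemma T_res (f : MonoidAlgebra ℂ G) (S : Set X) (hS : ∀ (g : G) (x : X), g • x ∈ S ↔ x ∈ S)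
    (ξ : L2 X) : T G X f (res S ξ) = res S (T G X f ξ) := by
  classical
  ext x
  rw [res_apply, T_apply_apply, T_apply_apply]
  split_ifs with h
  · refine Finset.sum_congr rfl fun g _ => ?_
    rw [res_apply, if_pos ((hS _ _).2 h)]
  · refine Finset.sum_eq_zero fun g _ => ?_
    rw [res_apply, if_neg (fun h' => h ((hS _ _).1 h')), mul_zero]

lemma norm_res_sq (S : Set X) (ξ : L2 X) : ‖ξ‖ ^ 2 = ‖res S ξ‖ ^ 2 + ‖res Sᶜ ξ‖ ^ 2 := by
  classical
  rw [norm_sq_eq, norm_sq_eq (res S ξ), norm_sq_eq (res Sᶜ ξ),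
    ← (summable_sq _).tsum_add (summable_sq _)]
  refine tsum_congr fun x => ?_
  rw [res_apply, res_apply]
  by_cases h : x ∈ S <;> simp [h]

lemma norm_T_orbit [DecidableEq X] (o : X) (hC : Amenable (MulAction.stabilizer G o))
    (f : MonoidAlgebra ℂ G) (s : Finset X) (hs : ∀ x ∈ s, x ∈ MulAction.orbit G o) (a : X → ℂ) :
    ‖T G X f (∑ x ∈ s, lp.single 2 x (a x))‖ ≤
      ‖T G G f‖ * ‖(∑ x ∈ s, lp.single 2 x (a x) : L2 X)‖ := by
  refine le_of_forall_pos_le_add fun ε hε => ?_
  obtain ⟨w, hw1, hw⟩ := exists_lift o hC f s hs a hε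
  set ξ : L2 X := ∑ x ∈ s, lp.single 2 x (a x) with hξ
  have h0 : ∀ x, x ∉ MulAction.orbit G o → ξ x = 0 := by
    intro x hx
    rw [hξ, lpsum_apply, if_neg fun h => hx (hs x h)]
  have h1 : ∀ x, x ∉ MulAction.orbit G o → T G X f ξ x = 0 := by
    intro x hx
    rw [T_apply_apply]
    refine Finset.sum_eq_zero fun g _ => ?_
    rw [h0, mul_zero]
    intro h
    apply hx
    have h2 := MulAction.mem_orbit_of_mem_orbit (g : G) h
    rwa [smul_inv_smul] at h2
  calc ‖T G X f ξ‖ = ‖lift o w (T G X f ξ)‖ := by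
        rw [norm_lift_of_mem o w _ h1, hw1, mul_one]
    _ ≤ ‖T G G f (lift o w ξ)‖ + ‖T G G f (lift o w ξ) - lift o w (T G X f ξ)‖ := by
        have := norm_sub_norm_le (lift o w (T G X f ξ)) (T G G f (lift o w ξ))
        rw [norm_sub_rev] at this
        linarith
    _ ≤ ‖T G G f‖ * ‖lift o w ξ‖ + ε := add_le_add (ContinuousLinearMap.le_opNorm _ _) hw
    _ = ‖T G G f‖ * ‖ξ‖ + ε := by rw [norm_lift_of_mem o w _ h0, hw1, mul_one]

lemma norm_T_finite [DecidableEq X] (hst : ∀ x : X, Amenable (MulAction.stabilizer G x))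
    (f : MonoidAlgebra ℂ G) (a : X → ℂ) (n : ℕ) : ∀ s : Finset X, s.card ≤ n →
    ‖T G X f (∑ x ∈ s, lp.single 2 x (a x))‖ ≤
      ‖T G G f‖ * ‖(∑ x ∈ s, lp.single 2 x (a x) : L2 X)‖ := by
  classical
  induction n with
  | zero =>
    intro s hs
    have : s = ∅ := Finset.card_eq_zero.1 (Nat.le_zero.1 hs)
    subst this
    simp
  | succ n ih =>
    intro s hs
    by_cases hs0 : s = ∅
    · subst hs0; simp
    obtain ⟨o, ho⟩ := Finset.nonempty_iff_ne_empty.2 hs0
    set S : Set X := MulAction.orbit G o with hS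
    have hSinv : ∀ (g : G) (x : X), g • x ∈ S ↔ x ∈ S := by
      intro g x
      constructor
      · intro h
        have h2 := MulAction.mem_orbit_of_mem_orbit (g⁻¹ : G) h
        rwa [inv_smul_smul] at h2
      · exact MulAction.mem_orbit_of_mem_orbit g
    have hScinv : ∀ (g : G) (x : X), g • x ∈ Sᶜ ↔ x ∈ Sᶜ := by
      intro g x
      rw [Set.mem_compl_iff, Set.mem_compl_iff, hSinv]
    set ξ : L2 X := ∑ x ∈ s, lp.single 2 x (a x) with hξ
    have e1 : res S ξ = ∑ x ∈ s.filter (· ∈ S), lp.single 2 x (a x) := by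
      ext x
      rw [res_apply, lpsum_apply, lpsum_apply]
      by_cases h : x ∈ S <;> by_cases h' : x ∈ s <;> simp [h, h']
    have e2 : res Sᶜ ξ = ∑ x ∈ s.filter (· ∉ S), lp.single 2 x (a x) := by
      ext x
      rw [res_apply, lpsum_apply, lpsum_apply]
      by_cases h : x ∈ S <;> by_cases h' : x ∈ s <;> simp [h, h']
    have b1 : ‖res S (T G X f ξ)‖ ≤ ‖T G G f‖ * ‖res S ξ‖ := by
      rw [← T_res f S hSinv, e1]
      exact norm_T_orbit o (hst o) f _ (fun x hx => (Finset.mem_filter.1 hx).2) a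
    have b2 : ‖res Sᶜ (T G X f ξ)‖ ≤ ‖T G G f‖ * ‖res Sᶜ ξ‖ := by
      rw [← T_res f Sᶜ hScinv, e2]
      refine ih _ ?_
      have h3 : (s.filter (· ∉ S)).card < s.card := by
        refine Finset.card_lt_card (Finset.filter_ssubset.2 ⟨o, ho, ?_⟩)
        intro h
        exact h (MulAction.mem_orbit_self o)
      omega
    have b3 : ‖T G X f ξ‖ ^ 2 ≤ (‖T G G f‖ * ‖ξ‖) ^ 2 := by
      rw [norm_res_sq S (T G X f ξ), mul_pow, norm_res_sq S ξ, mul_add, ← mul_pow, ← mul_pow]
      exact add_le_add (pow_le_pow_left₀ (norm_nonneg _) b1 2)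
        (pow_le_pow_left₀ (norm_nonneg _) b2 2)
    exact le_of_sq_le_sq b3 (by positivity)

/-- The permutation representation is weakly contained in the regular representation. -/
theorem norm_T_le (hst : ∀ x : X, Amenable (MulAction.stabilizer G x))
    (f : MonoidAlgebra ℂ G) : ‖T G X f‖ ≤ ‖T G G f‖ := by
  classical
  refine ContinuousLinearMap.opNorm_le_bound _ (norm_nonneg _) fun ξ => ?_
  have h1 : HasSum (fun x => (lp.single 2 x (ξ x) : L2 X)) ξ := lp.hasSum_single (by simp) ξ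
  have h2 : Filter.Tendsto (fun s : Finset X => ∑ x ∈ s, (lp.single 2 x (ξ x) : L2 X))
    Filter.atTop (nhds ξ) := h1
  have h3 := ((T G X f).continuous.tendsto ξ).comp h2
  exact le_of_tendsto_of_tendsto' h3.norm (h2.norm.const_mul _)
    fun s => norm_T_finite hst f (fun x => ξ x) s.card s le_rfl

end Pool.Agent.LibZIS.Raw
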