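import Pool.Agent.LibZIS.SingC

/-!
Chains with coefficients as modules over the group algebra, pairing with homogeneous cochains,
and the vanishing of cohomology with coefficients in modules.
-/

set_option autoImplicit false

namespace Pool.Agent.LibZIS

universe u v w

open stdSimplex

variable {G : Type u} [Group G] {E : Type v} [TopologicalSpace E] [MulAction G E]
  [ContinuousConstSMul G E] {A : Type w} [Ring A] [Algebra ℂ A] (ρ : G →* A)

/-! ### module structures -/

/-- the complex vector space structure on the chains with coefficients. -/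
@[reducible] noncomputable def chC (n : ℕ) : Module ℂ (Ch ρ E n) where
  smul z x := lsm ρ n (algebraMap ℂ A z) x
  one_smul x := by
    obtain ⟨c, rfl⟩ := cls_surj ρ _ x
    show lsm ρ n (algebraMap ℂ A 1) (cls ρ n c) = _
    rw [map_one, lsm_cls, one_smul]
  mul_smul z z' x := by
    show lsm ρ n (algebraMap ℂ A (z * z')) x = lsm ρ n _ (lsm ρ n _ x)
    rw [map_mul, lsm_mul]
  smul_zero z := map_zero _
  smul_add z x y := map_add _ _ _
  add_smul z z' x := by
    obtain ⟨c, rfl⟩ := cls_surj ρ _ x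
    show lsm ρ n (algebraMap ℂ A (z + z')) (cls ρ n c) = lsm ρ n _ (cls ρ n c) +
      lsm ρ n _ (cls ρ n c)
    rw [lsm_cls, lsm_cls, lsm_cls, map_add, add_smul, cls_add]
  zero_smul x := by
    obtain ⟨c, rfl⟩ := cls_surj ρ _ x
    show lsm ρ n (algebraMap ℂ A 0) (cls ρ n c) = 0
    rw [map_zero, lsm_cls, zero_smul]
    rfl

attribute [local instance] chC

lemma chC_smul (n : ℕ) (z : ℂ) (x : Ch ρ E n) : z • x = lsm ρ n (algebraMap ℂ A z) x := rfl

lemma chC_cls (n : ℕ) (z : ℂ) (c : Sing n E →₀ A) :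
    z • cls ρ n c = cls ρ n (algebraMap ℂ A z • c) := rfl

/-- the action of the coefficients. -/
noncomputable def chA (n : ℕ) : A →ₐ[ℂ] Module.End ℂ (Ch ρ E n) where
  toFun a :=
    { toFun := lsm ρ n a
      map_add' := map_add _
      map_smul' := fun z x => by
        show lsm ρ n a (lsm ρ n (algebraMap ℂ A z) x) = lsm ρ n (algebraMap ℂ A z) (lsm ρ n a x)
        rw [← lsm_mul, ← lsm_mul, Algebra.commutes] }
  map_one' := by
    refine LinearMap.ext fun x => ?_
    obtain ⟨c, rfl⟩ := cls_surj ρ _ x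
    show lsm ρ n 1 (cls ρ n c) = cls ρ n c
    rw [lsm_cls, one_smul]
  map_mul' a b := by
    refine LinearMap.ext fun x => ?_
    show lsm ρ n (a * b) x = lsm ρ n a (lsm ρ n b x)
    rw [lsm_mul]
  map_zero' := by
    refine LinearMap.ext fun x => ?_
    obtain ⟨c, rfl⟩ := cls_surj ρ _ x
    show lsm ρ n 0 (cls ρ n c) = 0
    rw [lsm_cls, zero_smul]
    rfl
  map_add' a b := by
    refine LinearMap.ext fun x => ?_
    obtain ⟨c, rfl⟩ := cls_surj ρ _ x
    show lsm ρ n (a + b) (cls ρ n c) = lsm ρ n a (cls ρ n c) + lsm ρ n b (cls ρ n c)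
    rw [lsm_cls, lsm_cls, lsm_cls, add_smul, cls_add]
  commutes' z := by
    refine LinearMap.ext fun x => ?_
    rfl

lemma chA_apply (n : ℕ) (a : A) (x : Ch ρ E n) : chA ρ n a x = lsm ρ n a x := rfl

/-- the homomorphism from the group algebra. -/
noncomputable def kap : MonoidAlgebra ℂ G →ₐ[ℂ] A := MonoidAlgebra.lift ℂ A G ρ

lemma kap_single (g : G) : kap ρ (MonoidAlgebra.single g 1) = ρ g := by
  simp [kap]

/-- the action of the group algebra. -/
noncomputable def chK (n : ℕ) : MonoidAlgebra ℂ G →ₐ[ℂ] Module.End ℂ (Ch ρ E n) :=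
  (chA ρ n).comp (kap ρ)

lemma chK_apply (n : ℕ) (κ : MonoidAlgebra ℂ G) (x : Ch ρ E n) :
    chK ρ n κ x = lsm ρ n (kap ρ κ) x := rfl

/-- the differential as a linear map. -/
noncomputable def difL (n : ℕ) : Ch ρ E (n + 1) →ₗ[ℂ] Ch ρ E n where
  toFun := dif ρ E n
  map_add' := map_add _
  map_smul' z x := by
    show dif ρ E n (lsm ρ (n + 1) (algebraMap ℂ A z) x) = lsm ρ n (algebraMap ℂ A z) (dif ρ E n x)
    rw [lsm_dif]

lemma difL_apply (n : ℕ) (x : Ch ρ E (n + 1)) : difL ρ n x = dif ρ E n x := rfl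

lemma difL_chK (n : ℕ) (κ : MonoidAlgebra ℂ G) (x : Ch ρ E (n + 1)) :
    difL ρ n (chK ρ (n + 1) κ x) = chK ρ n κ (difL ρ n x) := lsm_dif ρ n _ x

/-- complex chains as classes of chains with coefficients. -/
noncomputable def iot (n : ℕ) : (Sing n E →₀ ℂ) →ₗ[ℂ] Ch ρ E n :=
  Finsupp.linearCombination ℂ fun s => cls ρ n (Finsupp.single s (1 : A))

lemma iot_single (n : ℕ) (s : Sing n E) (z : ℂ) :
    iot ρ n (Finsupp.single s z) = cls ρ n (Finsupp.single s (algebraMap ℂ A z)) := by
  rw [iot, Finsupp.linearCombination_single, chC_cls, Finsupp.smul_single, smul_eq_mul, mul_one]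

lemma iot_perm (n : ℕ) (κ : MonoidAlgebra ℂ G) (c : Sing n E →₀ ℂ) :
    iot ρ n (permAlg G (Sing n E) κ c) = chK ρ n κ (iot ρ n c) := by
  rw [iot]
  refine lc_perm (chK ρ n) _ (fun g s => ?_) κ c
  rw [chK_apply, kap_single, ← cls_act]
  rfl

lemma cls_zsmul (n : ℕ) (m : ℤ) (c : Sing n E →₀ A) : cls ρ n (m • c) = m • cls ρ n c := rfl

/-- classes as an additive map. -/
noncomputable def clsH (n : ℕ) : (Sing n E →₀ A) →+ Ch ρ E n := QuotientAddGroup.mk' _

lemma clsH_apply (n : ℕ) (c : Sing n E →₀ A) : clsH ρ n c = cls ρ n c := rfl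

lemma difL_iot (n : ℕ) (c : Sing (n + 1) E →₀ ℂ) :
    difL ρ n (iot ρ (n + 1) c) = iot ρ n (bdL E n c) := by
  induction c using Finsupp.induction_linear with
  | zero => simp
  | add x y hx hy => rw [map_add, map_add, hx, hy, map_add, map_add]
  | single s a =>
    have h1 : iot ρ (n + 1) (Finsupp.single s a) = a • iot ρ (n + 1) (Finsupp.single s 1) := by
      rw [← map_smul, Finsupp.smul_single, smul_eq_mul, mul_one]
    have h2 : bdL E n (Finsupp.single s a) = a • bdL E n (Finsupp.single s 1) := by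
      rw [← map_smul, Finsupp.smul_single, smul_eq_mul, mul_one]
    rw [h1, h2, map_smul, map_smul]
    congr 1
    rw [iot_single, difL_apply, dif_cls, bd_single, bdL, Finsupp.linearCombination_single,
      one_smul, map_sum, map_one, ← clsH_apply, map_sum]
    refine Finset.sum_congr rfl fun j _ => ?_
    rw [map_zsmul, (iot ρ n).map_smul, iot_single, map_one, clsH_apply, neg_one_pow_smul_eq]

/-! ### exactness -/

lemma exact_zero (h : ¬ Nontrivial (Hgy ρ E 0)) (x : Ch ρ E 0) : ∃ y, difL ρ 0 y = x := by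
  rw [not_nontrivial_iff_subsingleton] at h
  have h1 : (QuotientAddGroup.mk x : Ch ρ E 0 ⧸ (dif ρ E 0).range) = QuotientAddGroup.mk 0 :=
    h.elim _ _
  rw [QuotientAddGroup.eq] at h1
  have h2 : x ∈ (dif ρ E 0).range := by simpa using h1
  exact h2

lemma exact_succ (n : ℕ) (h : ¬ Nontrivial (Hgy ρ E (n + 1))) (x : Ch ρ E (n + 1))
    (hx : difL ρ n x = 0) : ∃ y, difL ρ (n + 1) y = x := by
  rw [not_nontrivial_iff_subsingleton] at h
  have h1 : (QuotientAddGroup.mk (⟨x, hx⟩ : (dif ρ E n).ker) :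
      (dif ρ E n).ker ⧸ ((dif ρ E (n + 1)).range.addSubgroupOf (dif ρ E n).ker)) =
        QuotientAddGroup.mk 0 := h.elim _ _
  rw [QuotientAddGroup.eq] at h1
  rw [AddSubgroup.mem_addSubgroupOf] at h1
  have h2 : x ∈ (dif ρ E (n + 1)).range := by simpa using h1
  exact h2

/-- If the homology vanishes in degrees at most `k`, the standard resolution maps to the chains
with coefficients by a null homotopic map. -/
lemma exists_s (k : ℕ) (h : ∀ i, i ≤ k → ¬ Nontrivial (Hgy ρ E i))
    (φ : ∀ i, Tup G i → (Sing i E →₀ ℂ)) (hφ : ∀ i, Eqv (permAlg G (Sing i E)) (φ i))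
    (hφ' : ∀ i, i + 1 ≤ k → ∀ e, bdL E i (φ (i + 1) e) = dlt (φ i) e) :
    ∃ s : ∀ i, Tup G i → Ch ρ E (i + 1), (∀ i, Eqv (chK ρ (i + 1)) (s i)) ∧
      (∀ e, difL ρ 0 (s 0 e) = iot ρ 0 (φ 0 e)) ∧
      ∀ i, i + 1 ≤ k → ∀ e, difL ρ (i + 1) (s (i + 1) e) + dlt (s i) e =
        iot ρ (i + 1) (φ (i + 1) e) := by
  refine exists_hpy (fun i => Ch ρ E i) (fun i => chK ρ i) (fun i => difL ρ i)
    (fun i g x => difL_chK ρ i _ x) k (fun i e => iot ρ i (φ i e)) (fun i g e => ?_)
    (fun i hi e => ?_) (fun e => exact_zero ρ (h 0 (by omega)) _)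
    (fun i hi x hx => exact_succ ρ i (h (i + 1) hi) x hx)
  · show iot ρ i (φ i (g • e)) = _
    rw [hφ i, iot_perm]
  · rw [difL_iot, hφ' i hi, dlt_map]

/-! ### the pairing -/

section pairing

variable {V : Type*} [AddCommGroup V] [Module A V] (r : E → G) {n : ℕ}

/-- the pairing with a cochain. -/
noncomputable def prr (b : Tup G n → V) : (Sing n E →₀ A) →+ V :=
  Finsupp.liftAddHom fun s =>
    (AddMonoidHom.flip (smulAddHom A V) (b (tupv r s)) : A →+ V)

omit [Group G] [MulAction G E] [ContinuousConstSMul G E] [Algebra ℂ A] in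
lemma prr_single (b : Tup G n → V) (s : Sing n E) (m : A) :
    prr r b (Finsupp.single s m) = m • b (tupv r s) := by
  simp [prr]

omit [Group G] [MulAction G E] [ContinuousConstSMul G E] [Algebra ℂ A] in
lemma prr_smul (b : Tup G n → V) (a : A) (c : Sing n E →₀ A) :
    prr r b (a • c) = a • prr r b c := by
  induction c using Finsupp.induction_linear with
  | zero => simp
  | add x y hx hy => rw [smul_add, map_add, map_add, hx, hy, smul_add]
  | single s m => rw [Finsupp.smul_single, prr_single, prr_single, smul_eq_mul, mul_smul]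

omit [Algebra ℂ A] in
lemma prr_rel (b : Tup G n → V) (hb : ∀ g e, b (g • e) = ρ g • b e)
    (hr : ∀ (g : G) (e : E), r (g • e) = g * r e) {c : Sing n E →₀ A}
    (hc : c ∈ rel ρ E n) : prr r b c = 0 := by
  have : rel ρ E n ≤ (prr r b : (Sing n E →₀ A) →+ V).ker := by
    rw [rel, AddSubgroup.closure_le]
    rintro _ ⟨g, s, m, rfl⟩
    show prr r b _ = 0
    rw [map_sub, prr_single, prr_single, act_eq, tupv_gsmul r hr, hb, mul_smul, sub_self]
  exact this hc

variable (hr : ∀ (g : G) (e : E), r (g • e) = g * r e)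

/-- the pairing of classes with a cochain. -/
noncomputable def pr (b : Tup G n → V) (hb : ∀ g e, b (g • e) = ρ g • b e) :
    Ch ρ E n →+ V :=
  QuotientAddGroup.lift _ (prr r b) (fun _ hc => prr_rel ρ r b hb hr hc)

omit [Algebra ℂ A] in
lemma pr_cls (b : Tup G n → V) (hb : ∀ g e, b (g • e) = ρ g • b e) (c : Sing n E →₀ A) :
    pr ρ r hr b hb (cls ρ n c) = prr r b c := rfl

omit [Algebra ℂ A] in
lemma pr_lsm (b : Tup G n → V) (hb : ∀ g e, b (g • e) = ρ g • b e) (a : A) (x : Ch ρ E n) :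
    pr ρ r hr b hb (lsm ρ n a x) = a • pr ρ r hr b hb x := by
  obtain ⟨c, rfl⟩ := cls_surj ρ _ x
  rw [lsm_cls, pr_cls, pr_cls, prr_smul]

variable [Module ℂ V] [IsScalarTower ℂ A V]

lemma prr_bd (b : Tup G n → V) (c : Sing (n + 1) E →₀ A) :
    prr r b (bd A E n c) = prr r (dlt b) c := by
  induction c using Finsupp.induction_linear with
  | zero => simp
  | add x y hx hy => rw [map_add, map_add, hx, hy, map_add]
  | single s m =>
    rw [bd_single, map_sum, prr_single, dlt, Finset.smul_sum]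
    refine Finset.sum_congr rfl fun j _ => ?_
    rw [map_zsmul, prr_single, tface_tupv, neg_one_pow_smul_eq, smul_algebra_smul_comm]

lemma dlt_rho (b : Tup G n → V) (hb : ∀ g e, b (g • e) = ρ g • b e) (g : G) (e : Tup G (n + 1)) :
    dlt b (g • e) = ρ g • dlt b e := by
  simp only [dlt, tface_smul, hb, Finset.smul_sum]
  exact Finset.sum_congr rfl fun j _ => (smul_algebra_smul_comm _ _ _).symm

lemma pr_dif (b : Tup G n → V) (hb : ∀ g e, b (g • e) = ρ g • b e) (x : Ch ρ E (n + 1)) :
    pr ρ r hr b hb (difL ρ n x) = pr ρ r hr (dlt b) (dlt_rho ρ b hb) x := by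
  obtain ⟨c, rfl⟩ := cls_surj ρ _ x
  rw [difL_apply, dif_cls, pr_cls, pr_cls, prr_bd]

/-- the pairing as a linear map. -/
noncomputable def prL (b : Tup G n → V) (hb : ∀ g e, b (g • e) = ρ g • b e) :
    Ch ρ E n →ₗ[ℂ] V where
  toFun := pr ρ r hr b hb
  map_add' := map_add _
  map_smul' z x := by
    rw [chC_smul, pr_lsm, algebraMap_smul]
    rfl

lemma prL_apply (b : Tup G n → V) (hb : ∀ g e, b (g • e) = ρ g • b e) (x : Ch ρ E n) :
    prL ρ r hr b hb x = pr ρ r hr b hb x := rfl

lemma prL_iot (b : Tup G n → V) (hb : ∀ g e, b (g • e) = ρ g • b e) (c : Sing n E →₀ ℂ) :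
    prL ρ r hr b hb (iot ρ n c) = Finsupp.linearCombination ℂ b (rp r n c) := by
  induction c using Finsupp.induction_linear with
  | zero => simp
  | add x y hx hy => rw [map_add, map_add, hx, hy, map_add, map_add]
  | single s a =>
    rw [iot_single, prL_apply, pr_cls, prr_single, rp_single, Finsupp.linearCombination_single,
      algebraMap_smul]

end pairing

/-! ### vanishing of cohomology -/

/-- If the homology with coefficients in `A` vanishes in degrees at most `m + 1`, all
`m + 1`-cocycles with values in `A`-modules are coboundaries. -/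
theorem coboundary_of_trivial_deg [PathConnectedSpace E]
    (hfree : ∀ (g : G) (e : E), g • e = e → g = 1) (m : ℕ) (hE : HZero E (m + 1))
    (h : ∀ i, i ≤ m + 1 → ¬ Nontrivial (Hgy ρ E i))
    {V : Type*} [AddCommGroup V] [Module A V] [Module ℂ V] [IsScalarTower ℂ A V]
    (b : Tup G (m + 1) → V) (hb : ∀ g e, b (g • e) = ρ g • b e) (hbd : ∀ e, dlt b e = 0) :
    ∃ c : Tup G m → V, (∀ g e, c (g • e) = ρ g • c e) ∧ ∀ e, dlt c e = b e := by
  obtain ⟨x₀⟩ : Nonempty E := inferInstance
  obtain ⟨r, hr, -⟩ := exists_equivariant (E := E) hfree x₀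
  obtain ⟨φ, hφ, hφ0, hφ'⟩ := exists_phi (G := G) (E := E) (m + 1) hE
  obtain ⟨s, hs, -, hs'⟩ := exists_s ρ (m + 1) h φ hφ hφ'
  let τ : MonoidAlgebra ℂ G →ₐ[ℂ] Module.End ℂ V := (Algebra.lsmul ℂ ℂ V).comp (kap ρ)
  have hτ : ∀ g v, τ (MonoidAlgebra.single g 1) v = ρ g • v := by
    intro g v
    show (Algebra.lsmul ℂ ℂ V) (kap ρ (MonoidAlgebra.single g 1)) v = _
    rw [kap_single]
    rfl
  have hbτ : Eqv τ b := fun g e => by rw [hτ, hb]
  obtain ⟨c', hc1, hc2⟩ := cob_of_pullback τ m (fun i e => rp r i (φ i e))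
    (fun i g e => by
      show rp r i (φ i (g • e)) = _
      rw [hφ i, rp_perm r hr]) (fun e => by rw [tot_rp, hφ0])
    (fun i hi e => by rw [← rp_bdL, hφ' i hi, dlt_map]) b hbτ hbd
    (fun e => prL ρ r hr b hb (s m e))
    (fun g e => by
      show prL ρ r hr b hb (s m (g • e)) = _
      rw [hs m, hτ, chK_apply, kap_single, prL_apply, pr_lsm]
      rfl)
    (fun e => by
      rw [← dlt_map]
      have h1 := congrArg (prL ρ r hr b hb) (hs' m le_rfl e)
      rw [map_add, prL_iot] at h1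
      rw [← h1]
      have h2 : prL ρ r hr b hb (difL ρ (m + 1) (s (m + 1) e)) = 0 := by
        rw [prL_apply, pr_dif]
        have h3 : ∀ x, pr ρ r hr (dlt b) (dlt_rho ρ b hb) x = 0 := by
          intro x
          obtain ⟨c, rfl⟩ := cls_surj ρ _ x
          rw [pr_cls]
          have h4 : dlt b = 0 := funext hbd
          rw [h4]
          induction c using Finsupp.induction_linear with
          | zero => simp
          | add x y hx hy => rw [map_add, hx, hy, add_zero]
          | single s m => rw [prr_single, Pi.zero_apply, smul_zero]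
        exact h3 _
      rw [h2, zero_add])
  exact ⟨c', fun g e => by rw [hc1, hτ], hc2⟩

end Pool.Agent.LibZIS
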