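import Pool.Agent.LibZIS.NormIneq

/-!
When the point stabilizers are amenable the reduced group C*-algebra acts on `ℓ²(X)`.
-/

set_option autoImplicit false

namespace Pool.Agent.LibZIS.Raw

universe u v w

variable {G : Type u} [Group G] {X : Type v} [MulAction G X]

/-- the closure of the image of the group algebra in the two operator algebras. -/
noncomputable def gr (G : Type u) [Group G] (X : Type v) [MulAction G X] :
    Subalgebra ℂ ((L2 G →L[ℂ] L2 G) × (L2 X →L[ℂ] L2 X)) :=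
  ((T G G).prod (T G X)).range.topologicalClosure

lemma gr_norm_le (hst : ∀ x : X, Amenable (MulAction.stabilizer G x))
    {p : (L2 G →L[ℂ] L2 G) × (L2 X →L[ℂ] L2 X)} (hp : p ∈ gr G X) : ‖p.2‖ ≤ ‖p.1‖ := by
  have h1 : IsClosed {p : (L2 G →L[ℂ] L2 G) × (L2 X →L[ℂ] L2 X) | ‖p.2‖ ≤ ‖p.1‖} :=
    isClosed_le continuous_snd.norm continuous_fst.norm
  have h2 : closure (((T G G).prod (T G X)).range :
      Set ((L2 G →L[ℂ] L2 G) × (L2 X →L[ℂ] L2 X))) ⊆ {p | ‖p.2‖ ≤ ‖p.1‖} := by
    refine closure_minimal ?_ h1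
    rintro _ ⟨f, rfl⟩
    exact norm_T_le hst f
  exact h2 hp

lemma gr_unique (hst : ∀ x : X, Amenable (MulAction.stabilizer G x))
    {a : L2 G →L[ℂ] L2 G} {b b' : L2 X →L[ℂ] L2 X} (h : (a, b) ∈ gr G X) (h' : (a, b') ∈ gr G X) :
    b = b' := by
  have h1 := gr_norm_le hst (Subalgebra.sub_mem _ h h')
  have h2 : ‖b - b'‖ ≤ ‖a - a‖ := h1
  rw [sub_self, norm_zero] at h2
  exact sub_eq_zero.1 (norm_le_zero_iff.1 h2)

lemma gr_tr (g : G) : ((tr g : L2 G →L[ℂ] L2 G), (tr g : L2 X →L[ℂ] L2 X)) ∈ gr G X := by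
  refine subset_closure ⟨MonoidAlgebra.single g 1, ?_⟩
  show (T G G _, T G X _) = _
  rw [T, T, MonoidAlgebra.lift_single, MonoidAlgebra.lift_single, one_smul, one_smul]
  rfl

lemma gr_exists (hst : ∀ x : X, Amenable (MulAction.stabilizer G x))
    {a : L2 G →L[ℂ] L2 G} (ha : a ∈ crAlg G) : ∃ b : L2 X →L[ℂ] L2 X, (a, b) ∈ gr G X := by
  have h1 : Algebra.adjoin ℂ (Set.range (tr : G → (L2 G →L[ℂ] L2 G))) ≤ (T G G).range := by
    refine Algebra.adjoin_le ?_
    rintro _ ⟨g, rfl⟩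
    refine ⟨MonoidAlgebra.single g 1, ?_⟩
    show T G G _ = _
    rw [T, MonoidAlgebra.lift_single, one_smul]
    rfl
  have h2 : a ∈ closure ((T G G).range : Set (L2 G →L[ℂ] L2 G)) := closure_mono h1 ha
  obtain ⟨u, hu, hlim⟩ := mem_closure_iff_seq_limit.1 h2
  choose f hf using hu
  have hf' : ∀ n, T G G (f n) = u n := hf
  have hcau : CauchySeq fun n => T G X (f n) := by
    have h3 := hlim.cauchySeq
    rw [Metric.cauchySeq_iff] at h3 ⊢
    intro ε hε
    obtain ⟨N, hN⟩ := h3 ε hε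
    refine ⟨N, fun m hm n hn => lt_of_le_of_lt ?_ (hN m hm n hn)⟩
    rw [dist_eq_norm, dist_eq_norm, ← hf', ← hf', ← map_sub, ← map_sub]
    exact norm_T_le hst _
  obtain ⟨b, hb⟩ := cauchySeq_tendsto_of_complete hcau
  refine ⟨b, mem_closure_of_tendsto (hlim.prodMk_nhds hb) (Filter.Eventually.of_forall fun n => ?_)⟩
  refine ⟨f n, ?_⟩
  show (T G G (f n), T G X (f n)) = _
  rw [hf']

/-- the reduced group C*-algebra acts on `ℓ²(X)`. -/
noncomputable def rep (hst : ∀ x : X, Amenable (MulAction.stabilizer G x)) :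
    Cr G →+* (L2 X →L[ℂ] L2 X) where
  toFun a := (gr_exists (X := X) hst a.2).choose
  map_one' := gr_unique hst (gr_exists (X := X) hst (1 : Cr G).2).choose_spec
    (Subalgebra.one_mem (gr G X))
  map_zero' := gr_unique hst (gr_exists (X := X) hst (0 : Cr G).2).choose_spec
    (Subalgebra.zero_mem (gr G X))
  map_mul' a b := gr_unique hst (gr_exists (X := X) hst (a * b).2).choose_spec
    (Subalgebra.mul_mem (gr G X) (gr_exists (X := X) hst a.2).choose_spec
      (gr_exists (X := X) hst b.2).choose_spec)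
  map_add' a b := gr_unique hst (gr_exists (X := X) hst (a + b).2).choose_spec
    (Subalgebra.add_mem (gr G X) (gr_exists (X := X) hst a.2).choose_spec
      (gr_exists (X := X) hst b.2).choose_spec)

lemma rep_lam (hst : ∀ x : X, Amenable (MulAction.stabilizer G x)) (g : G) :
    rep hst (lam G g) = tr g :=
  gr_unique hst (gr_exists (X := X) hst (lam G g).2).choose_spec (gr_tr g)

end Pool.Agent.LibZIS.Raw
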