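import Pool.Agent.LibZIS.Weight

/-!
Solving the coboundary equation in a Banach space on which an almost contraction acts.
-/

set_option autoImplicit false

namespace Pool.Agent.LibZIS

universe u v w

variable {K : Type u} [Ring K] [Algebra ℂ K] {V : Type v} [NormedAddCommGroup V] [NormedSpace ℂ V]
  (τ : K →ₐ[ℂ] (V →L[ℂ] V))

/-- the underlying action by linear maps. -/
noncomputable def toEnd : K →ₐ[ℂ] Module.End ℂ V where
  toFun κ := (τ κ : V →ₗ[ℂ] V)
  map_one' := by rw [map_one]; rfl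
  map_mul' a b := by rw [map_mul]; rfl
  map_zero' := by rw [map_zero]; rfl
  map_add' a b := by rw [map_add]; rfl
  commutes' r := by rw [AlgHomClass.commutes]; rfl

lemma toEnd_apply (κ : K) (v : V) : toEnd τ κ v = τ κ v := rfl

/-- the operator of a matrix on tuples. -/
noncomputable def matOp {n : ℕ} (P : Matrix (Fin n) (Fin n) K) :
    (Fin n → V) →L[ℂ] (Fin n → V) :=
  ContinuousLinearMap.pi fun j => ∑ l, (τ (P j l)).comp (ContinuousLinearMap.proj l)

lemma matOp_apply {n : ℕ} (P : Matrix (Fin n) (Fin n) K) (v : Fin n → V) :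
    matOp τ P v = mact (toEnd τ) P v := by
  ext j
  simp [matOp, mact, toEnd_apply, sum_apply]

lemma norm_matOp_le {n : ℕ} (P : Matrix (Fin n) (Fin n) K) {η : ℝ} (hη : 0 ≤ η)
    (hP : ∀ j l, ‖τ (P j l)‖ ≤ η) : ‖matOp τ P‖ ≤ n * η := by
  refine ContinuousLinearMap.opNorm_le_bound _ (by positivity) fun v => ?_
  rw [pi_norm_le_iff_of_nonneg (by positivity)]
  intro j
  have h1 : matOp τ P v j = ∑ l, τ (P j l) (v l) := by
    rw [matOp_apply]
    rfl
  rw [h1]
  refine (norm_sum_le _ _).trans ?_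
  have h2 : ∀ l, ‖τ (P j l) (v l)‖ ≤ η * ‖v‖ := fun l =>
    ((τ (P j l)).le_opNorm _).trans
      (mul_le_mul (hP j l) (norm_le_pi_norm v l) (norm_nonneg _) hη)
  refine (Finset.sum_le_sum fun l _ => h2 l).trans (le_of_eq ?_)
  rw [Finset.sum_const, Finset.card_univ, Fintype.card_fin, nsmul_eq_mul, mul_assoc]

lemma solve [CompleteSpace V] {a b c : ℕ} (D : Matrix (Fin b) (Fin a) K)
    (D' : Matrix (Fin c) (Fin b) K) (s : Matrix (Fin a) (Fin b) K) (s' : Matrix (Fin b) (Fin c) K)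
    (P : Matrix (Fin b) (Fin b) K) (Q : Matrix (Fin a) (Fin a) K) (hP : 1 - P = s' * D' + D * s)
    (hPQ : P * D = D * Q) (η : ℝ) (hη : 0 ≤ η) (hPη : ∀ j l, ‖τ (P j l)‖ ≤ η)
    (hQη : ∀ j l, ‖τ (Q j l)‖ ≤ η) (ha : a * η < 1) (hb : b * η < 1) (v : Fin b → V)
    (hv : mact (toEnd τ) D' v = 0) : ∃ u : Fin a → V, mact (toEnd τ) D u = v := by
  obtain ⟨u, hu⟩ := neumann_surj (matOp τ Q) ((norm_matOp_le τ Q hη hQη).trans_lt ha)
    (mact (toEnd τ) s v)
  refine ⟨u, ?_⟩
  refine neumann_inj (matOp τ P) ((norm_matOp_le τ P hη hPη).trans_lt hb) ?_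
  have h1 : mact (toEnd τ) D u - matOp τ P (mact (toEnd τ) D u) =
      mact (toEnd τ) D (mact (toEnd τ) s v) := by
    rw [← hu, matOp_apply, matOp_apply, ← mact_mul, hPQ, mact_mul]
    ext j
    simp [mact, Finset.sum_sub_distrib]
  have h2 : v - matOp τ P v = mact (toEnd τ) D (mact (toEnd τ) s v) := by
    have h3 : mact (toEnd τ) (1 - P) v = v - matOp τ P v := by
      rw [mact_sub, mact_one, matOp_apply]
    rw [← h3, hP, mact_add, mact_mul, hv, mact_mul]
    have h4 : mact (toEnd τ) s' (0 : Fin c → V) = 0 := by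
      ext j
      simp [mact]
    rw [h4, zero_add]
  rw [h1, h2]

end Pool.Agent.LibZIS
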