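import Pool.Agent.LibZIS.Tup
import Pool.Agent.LibZIS.Solve

/-!
Partial resolutions of finite type and comparison with the standard resolution.
-/

set_option autoImplicit false

namespace Pool.Agent.LibZIS

universe u v w

/-- A partial resolution of `ℂ` by finitely generated free modules over the complex group algebra,
exact in degrees `≤ k`. The maps are given by matrices acting on row vectors from the right. -/
structure Res (G : Type u) [Group G] (k : ℕ) where
  /-- the ranks -/
  n : ℕ → ℕ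
  /-- the differentials -/
  D : ∀ i, Matrix (Fin (n (i + 1))) (Fin (n i)) (MonoidAlgebra ℂ G)
  /-- the augmentation -/
  e : Fin (n 0) → ℂ
  comp : ∀ i, D (i + 1) * D i = 0
  comp0 : ∀ j, ∑ l, aug G (D 0 j l) * e l = 0
  surj : ∃ a : Fin (n 0) → MonoidAlgebra ℂ G, ∑ l, aug G (a l) * e l = 1
  exact0 : ∀ a : Fin (n 0) → MonoidAlgebra ℂ G, ∑ l, aug G (a l) * e l = 0 →
    ∃ b, Matrix.vecMul b (D 0) = a
  exact : ∀ i, i + 1 ≤ k → ∀ a : Fin (n (i + 1)) → MonoidAlgebra ℂ G,
    Matrix.vecMul a (D i) = 0 → ∃ b, Matrix.vecMul b (D (i + 1)) = a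

section vecMul

variable {K : Type u} [Ring K] [Algebra ℂ K]

/-- right multiplication by a matrix on row vectors. -/
noncomputable def vmL {a b : ℕ} (D : Matrix (Fin a) (Fin b) K) :
    (Fin a → K) →ₗ[ℂ] (Fin b → K) where
  toFun v := Matrix.vecMul v D
  map_add' v w := Matrix.add_vecMul _ _ _
  map_smul' c v := by
    ext l
    simp [Matrix.vecMul, dotProduct, Finset.smul_sum]

lemma vmL_apply {a b : ℕ} (D : Matrix (Fin a) (Fin b) K) (v : Fin a → K) :
    vmL D v = Matrix.vecMul v D := rfl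

lemma vmL_row {a b : ℕ} (D : Matrix (Fin a) (Fin b) K) (κ : K) (v : Fin a → K) :
    vmL D (rowAlg K a κ v) = rowAlg K b κ (vmL D v) := by
  ext l
  simp [vmL_apply, rowAlg_apply, Matrix.vecMul, dotProduct, Finset.mul_sum, mul_assoc]

end vecMul

section homotopy

variable {A : Type u} [Ring A] {n : ℕ → ℕ} (D : ∀ i, Matrix (Fin (n (i + 1))) (Fin (n i)) A)

/-- A self map of a complex of free modules which is trivial in degree zero is null homotopic. -/
lemma exists_homotopy (N : ∀ i, Matrix (Fin (n i)) (Fin (n i)) A) (k : ℕ)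
    (hDD : ∀ i, i + 1 ≤ k → D (i + 1) * D i = 0)
    (hN : ∀ i, i + 1 ≤ k → N (i + 1) * D i = D i * N i)
    (h0 : ∀ j, ∃ b, Matrix.vecMul b (D 0) = N 0 j)
    (h : ∀ i, i + 1 ≤ k → ∀ a : Fin (n (i + 1)) → A, Matrix.vecMul a (D i) = 0 →
      ∃ b, Matrix.vecMul b (D (i + 1)) = a) :
    ∃ s : ∀ i, Matrix (Fin (n i)) (Fin (n (i + 1))) A, s 0 * D 0 = N 0 ∧
      ∀ i, i + 1 ≤ k → s (i + 1) * D (i + 1) + D i * s i = N (i + 1) := by
  classical
  induction k with
  | zero =>
    choose b hb using h0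
    refine ⟨Function.update (fun _ => 0) 0 (Matrix.of b), ?_, fun i hi => absurd hi (by omega)⟩
    rw [Function.update_self]
    ext j l
    have h1 := congrFun (hb j) l
    rw [Matrix.mul_apply, ← h1]
    rfl
  | succ k ih =>
    obtain ⟨s, hs0, hs⟩ := ih (fun i hi => hDD i (by omega)) (fun i hi => hN i (by omega))
      (fun i hi => h i (by omega))
    set P : Matrix (Fin (n (k + 1))) (Fin (n (k + 1))) A := N (k + 1) - D k * s k with hP
    have hcyc : P * D k = 0 := by
      rw [hP, Matrix.sub_mul, hN k le_rfl, Matrix.mul_assoc]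
      rcases Nat.eq_zero_or_pos k with hk | hk
      · subst hk
        rw [hs0, sub_self]
      · obtain ⟨m, rfl⟩ : ∃ m, k = m + 1 := ⟨k - 1, by omega⟩
        have h1 := hs m le_rfl
        have h2 : s (m + 1) * D (m + 1) = N (m + 1) - D m * s m := by rw [← h1]; abel
        rw [h2, Matrix.mul_sub, ← Matrix.mul_assoc (D (m + 1)) (D m), hDD m (by omega),
          Matrix.zero_mul, sub_zero, sub_self]
    have hrow : ∀ j, ∃ b, Matrix.vecMul b (D (k + 1)) = P j := by
      intro j
      refine h k le_rfl _ ?_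
      have h3 := congrFun hcyc j
      ext l
      have h4 := congrFun h3 l
      rw [Matrix.mul_apply] at h4
      exact h4
    choose b hb using hrow
    refine ⟨Function.update s (k + 1) (Matrix.of b), ?_, fun i hi => ?_⟩
    · rw [Function.update_of_ne (by omega)]
      exact hs0
    · rcases Nat.lt_or_ge i k with hi' | hi'
      · rw [Function.update_of_ne (by omega), Function.update_of_ne (by omega)]
        exact hs i (by omega)
      · have hik : i = k := by omega
        subst hik
        rw [Function.update_self, Function.update_of_ne (by omega)]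
        have h5 : Matrix.of b * D (i + 1) = P := by
          ext j l
          have h6 := congrFun (hb j) l
          rw [Matrix.mul_apply, ← h6]
          rfl
        rw [h5, hP]
        abel

end homotopy

variable {G : Type u} [Group G] {k : ℕ} (F : Res G k)

/-! ### from the standard resolution to `F` -/

lemma dlt_map {M : Type v} [AddCommGroup M] [Module ℂ M] {M' : Type w} [AddCommGroup M']
    [Module ℂ M'] {i : ℕ} (L : M →ₗ[ℂ] M') (f : Tup G i → M) (e : Tup G (i + 1)) :
    L (dlt f e) = dlt (fun e => L (f e)) e := by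
  simp [dlt, map_sum]

lemma dlt_one {i : ℕ} (hi : Even i) (e : Tup G (i + 1)) : dlt (fun _ : Tup G i => (1 : ℂ)) e = 0 := by
  simp only [dlt, smul_eq_mul, mul_one]
  rw [Fin.sum_univ_eq_sum_range (fun j => (-1 : ℂ) ^ j) (i + 2)]
  rw [neg_one_geom_sum]
  rw [if_pos (by obtain ⟨r, hr⟩ := hi; exact ⟨r + 1, by omega⟩)]

/-- the functional `∑ aug (a l) * e l`. -/
noncomputable def augL : (Fin (F.n 0) → MonoidAlgebra ℂ G) →ₗ[ℂ] ℂ where
  toFun a := ∑ l, aug G (a l) * F.e l
  map_add' a b := by
    simp [add_mul, Finset.sum_add_distrib]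
  map_smul' c a := by
    simp only [Pi.smul_apply, map_smul, smul_eq_mul, RingHom.id_apply, Finset.mul_sum]
    exact Finset.sum_congr rfl fun l _ => by ring

lemma augL_apply (a : Fin (F.n 0) → MonoidAlgebra ℂ G) :
    augL F a = ∑ l, aug G (a l) * F.e l := rfl

lemma augL_row (κ : MonoidAlgebra ℂ G) (a : Fin (F.n 0) → MonoidAlgebra ℂ G) :
    augL F (rowAlg _ _ κ a) = aug G κ * augL F a := by
  simp only [augL_apply, rowAlg_apply, map_mul, Finset.mul_sum]
  exact Finset.sum_congr rfl fun l _ => by ring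

lemma exists_psi : ∃ ψ : ∀ i, Tup G i → (Fin (F.n i) → MonoidAlgebra ℂ G),
    (∀ i g e, ψ i (g • e) = rowAlg _ _ (MonoidAlgebra.single g 1) (ψ i e)) ∧
    (∀ e, augL F (ψ 0 e) = 1) ∧
    ∀ i, i ≤ k → ∀ e, Matrix.vecMul (ψ (i + 1) e) (F.D i) = dlt (ψ i) e := by
  classical
  suffices H : ∀ m, m ≤ k + 1 → ∃ ψ : ∀ i, Tup G i → (Fin (F.n i) → MonoidAlgebra ℂ G),
      (∀ i g e, ψ i (g • e) = rowAlg _ _ (MonoidAlgebra.single g 1) (ψ i e)) ∧
      (∀ e, augL F (ψ 0 e) = 1) ∧
      ∀ i, i < m → ∀ e, Matrix.vecMul (ψ (i + 1) e) (F.D i) = dlt (ψ i) e by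
    obtain ⟨ψ, h1, h2, h3⟩ := H (k + 1) le_rfl
    exact ⟨ψ, h1, h2, fun i hi => h3 i (by omega)⟩
  intro m
  induction m with
  | zero =>
    intro _
    obtain ⟨a, ha⟩ := F.surj
    refine ⟨Function.update (fun _ _ => 0) 0
      (fun e => rowAlg _ _ (MonoidAlgebra.single (e 0) 1) a), ?_, ?_, fun i hi => absurd hi (by omega)⟩
    · intro i g e
      rcases Nat.eq_zero_or_pos i with hi | hi
      · subst hi
        rw [Function.update_self]
        have h1 : (g • e) 0 = g * e 0 := rfl
        have h2 : (MonoidAlgebra.single (g * e 0) 1 : MonoidAlgebra ℂ G) =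
            MonoidAlgebra.single g 1 * MonoidAlgebra.single (e 0) 1 := by simp
        show rowAlg _ _ (MonoidAlgebra.single ((g • e) 0) 1) a = _
        rw [h1, h2, map_mul]
        rfl
      · rw [Function.update_of_ne (by omega)]
        simp
    · intro e
      rw [Function.update_self, augL_row, aug_single, one_mul]
      exact ha
  | succ m ih =>
    intro hm
    obtain ⟨ψ, h1, h2, h3⟩ := ih (by omega)
    have hex : ∀ e : Tup G (m + 1), ∃ b, Matrix.vecMul b (F.D m) = dlt (ψ m) e := by
      intro e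
      rcases Nat.eq_zero_or_pos m with hm0 | hm0
      · subst hm0
        refine F.exact0 _ ?_
        have h4 : augL F (dlt (ψ 0) e) = 0 := by
          rw [dlt_map]
          simp only [h2]
          exact dlt_one (Even.zero) e
        exact h4
      · obtain ⟨m', rfl⟩ : ∃ m', m = m' + 1 := ⟨m - 1, by omega⟩
        refine F.exact m' (by omega) _ ?_
        rw [← vmL_apply, dlt_map]
        simp only [vmL_apply, h3 m' (by omega)]
        exact dlt_dlt _ e
    choose b hb using hex
    refine ⟨Function.update ψ (m + 1)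
      (fun e => rowAlg _ _ (MonoidAlgebra.single (e 0) 1) (b ((e 0)⁻¹ • e))), ?_, ?_, ?_⟩
    · intro i g e
      by_cases hi : i = m + 1
      · subst hi
        rw [Function.update_self]
        have h4 : (g • e) 0 = g * e 0 := rfl
        have h5 : (MonoidAlgebra.single (g * e 0) 1 : MonoidAlgebra ℂ G) =
            MonoidAlgebra.single g 1 * MonoidAlgebra.single (e 0) 1 := by simp
        show rowAlg _ _ (MonoidAlgebra.single ((g • e) 0) 1) (b (((g • e) 0)⁻¹ • g • e)) = _
        rw [h4, h5, map_mul, mul_inv_rev, mul_smul, inv_smul_smul]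
        rfl
      · rw [Function.update_of_ne hi]
        exact h1 i g e
    · rw [Function.update_of_ne (by omega)]
      exact h2
    · intro i hi e
      by_cases him : i = m
      · subst him
        rw [Function.update_self, Function.update_of_ne (by omega), ← vmL_apply, vmL_row,
          vmL_apply, hb, ← dlt_smul (rowAlg _ _) (ψ i) (h1 i), smul_inv_smul]
      · rw [Function.update_of_ne (by omega), Function.update_of_ne (by omega)]
        exact h3 i (by omega) e

/-! ### from `F` to itself through the standard resolution -/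

section compare

variable (Φ : ∀ i, Fin (F.n i) → (Tup G i →₀ ℂ))
  (hΦ0 : ∀ l, Finsupp.linearCombination ℂ (fun _ => (1 : ℂ)) (Φ 0 l) = F.e l)
  (hΦ : ∀ i, i + 1 ≤ k → ∀ j, bdT G i (Φ (i + 1) j) =
    mact (permAlg G (Tup G i)) (F.D i) (Φ i) j)
  (ψ : ∀ i, Tup G i → (Fin (F.n i) → MonoidAlgebra ℂ G))
  (hψ : ∀ i g e, ψ i (g • e) = rowAlg _ _ (MonoidAlgebra.single g 1) (ψ i e))
  (hψ0 : ∀ e, augL F (ψ 0 e) = 1)
  (hψD : ∀ i, i ≤ k → ∀ e, Matrix.vecMul (ψ (i + 1) e) (F.D i) = dlt (ψ i) e)

/-- the composition as a matrix. -/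
noncomputable def cmat (i : ℕ) : Matrix (Fin (F.n i)) (Fin (F.n i)) (MonoidAlgebra ℂ G) :=
  Matrix.of fun j => Finsupp.linearCombination ℂ (ψ i) (Φ i j)

include hψ in
lemma lc_psi_mact (i : ℕ) {a : ℕ} (N : Matrix (Fin a) (Fin (F.n i)) (MonoidAlgebra ℂ G))
    (j : Fin a) : Finsupp.linearCombination ℂ (ψ i)
      (mact (permAlg G (Tup G i)) N (Φ i) j) = (N * cmat F Φ ψ i) j := by
  have h1 := mact_map (permAlg G (Tup G i)) (rowAlg (MonoidAlgebra ℂ G) (F.n i))
    (Finsupp.linearCombination ℂ (ψ i)) (fun κ c => lc_perm (rowAlg _ _) (ψ i) (hψ i) κ c)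
    N (Φ i) j
  rw [h1]
  ext l
  simp only [mact, Finset.sum_apply, rowAlg_apply]
  rw [Matrix.mul_apply]
  rfl

include hψ hψD hΦ in
lemma cmat_comm (i : ℕ) (hi : i + 1 ≤ k) :
    cmat F Φ ψ (i + 1) * F.D i = F.D i * cmat F Φ ψ i := by
  refine funext fun j => ?_
  rw [← lc_psi_mact F Φ ψ hψ, ← hΦ i hi, lc_bdT]
  have h1 : (cmat F Φ ψ (i + 1) * F.D i) j =
      vmL (F.D i) (Finsupp.linearCombination ℂ (ψ (i + 1)) (Φ (i + 1) j)) := by
    ext l
    rw [Matrix.mul_apply]
    rfl
  rw [h1]
  have h2 : (fun e => vmL (F.D i) (ψ (i + 1) e)) = dlt (ψ i) := by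
    funext e
    exact hψD i (by omega) e
  rw [← h2]
  generalize Φ (i + 1) j = c
  induction c using Finsupp.induction_linear with
  | zero => simp
  | add x y hx hy => rw [map_add, map_add, hx, hy, map_add]
  | single e a =>
    rw [Finsupp.linearCombination_single, Finsupp.linearCombination_single, map_smul]

include hΦ0 hψ hψ0 in
lemma augL_cmat (j : Fin (F.n 0)) : augL F (cmat F Φ ψ 0 j) = F.e j := by
  rw [← hΦ0 j]
  show augL F (Finsupp.linearCombination ℂ (ψ 0) (Φ 0 j)) = _
  generalize Φ 0 j = c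
  induction c using Finsupp.induction_linear with
  | zero => simp
  | add x y hx hy => rw [map_add, map_add, hx, hy, map_add]
  | single e a =>
    rw [Finsupp.linearCombination_single, Finsupp.linearCombination_single, map_smul, hψ0]

include hΦ0 hψ hψ0 hψD hΦ in
/-- the composition is homotopic to the identity. -/
lemma exists_theta : ∃ Θ : ∀ i, Matrix (Fin (F.n i)) (Fin (F.n (i + 1))) (MonoidAlgebra ℂ G),
    Θ 0 * F.D 0 = cmat F Φ ψ 0 - 1 ∧
    ∀ i, i + 1 ≤ k → Θ (i + 1) * F.D (i + 1) + F.D i * Θ i = cmat F Φ ψ (i + 1) - 1 := by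
  refine exists_homotopy F.D (fun i => cmat F Φ ψ i - 1) k (fun i _ => F.comp i)
    (fun i hi => ?_) (fun j => ?_) F.exact
  · rw [Matrix.sub_mul, Matrix.mul_sub, cmat_comm F Φ hΦ ψ hψ hψD i hi, Matrix.one_mul,
      Matrix.mul_one]
  · refine F.exact0 _ ?_
    have h1 : augL F ((cmat F Φ ψ 0 - 1) j) = 0 := by
      have h2 : (cmat F Φ ψ 0 - 1) j = cmat F Φ ψ 0 j - (1 : Matrix _ _ (MonoidAlgebra ℂ G)) j :=
        rfl
      rw [h2, map_sub, augL_cmat F Φ hΦ0 ψ hψ hψ0, augL_apply, Finset.sum_eq_single j]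
      · simp
      · intro l _ hl
        rw [Matrix.one_apply_ne (Ne.symm hl), map_zero, zero_mul]
      · intro h; exact absurd (Finset.mem_univ j) h
    exact h1

end compare

end Pool.Agent.LibZIS
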