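import Pool.Agent.LibZIS.Equi

/-!
Complex singular chains of a space with a free action, compared with the standard resolution.
-/

set_option autoImplicit false

namespace Pool.Agent.LibZIS

universe u v w

open stdSimplex

variable {G : Type u} [Group G] {E : Type v} [TopologicalSpace E]

/-- the boundary of complex singular chains. -/
noncomputable def bdL (E : Type v) [TopologicalSpace E] (n : ℕ) :
    (Sing (n + 1) E →₀ ℂ) →ₗ[ℂ] (Sing n E →₀ ℂ) :=
  Finsupp.linearCombination ℂ fun s =>
    ∑ j : Fin (n + 2), (-1 : ℂ) ^ (j : ℕ) • Finsupp.single (face j s) (1 : ℂ)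

lemma neg_one_pow_smul_eq {V : Type w} [AddCommGroup V] [Module ℂ V] (j : ℕ) (v : V) :
    (-1 : ℤ) ^ j • v = (-1 : ℂ) ^ j • v := by
  rcases Nat.even_or_odd j with h | h
  · rw [h.neg_one_pow, h.neg_one_pow, one_smul, one_smul]
  · rw [h.neg_one_pow, h.neg_one_pow, neg_smul, neg_smul, one_smul, one_smul]

lemma bdL_eq (n : ℕ) (c : Sing (n + 1) E →₀ ℂ) : bdL E n c = bd ℂ E n c := by
  induction c using Finsupp.induction_linear with
  | zero => simp
  | add x y hx hy => rw [map_add, map_add, hx, hy]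
  | single s a =>
    rw [bdL, Finsupp.linearCombination_single, bd_single, Finset.smul_sum]
    refine Finset.sum_congr rfl fun j _ => ?_
    rw [neg_one_pow_smul_eq, smul_comm, Finsupp.smul_single, smul_eq_mul, mul_one]

section act

variable [MulAction G E] [ContinuousConstSMul G E]

lemma act_eq {n : ℕ} (g : G) (s : Sing n E) : act g s = g • s := rfl

lemma face_gsmul {n : ℕ} (j : Fin (n + 2)) (g : G) (s : Sing (n + 1) E) :
    face j (g • s) = g • face j s := rfl

lemma vtx_gsmul {n : ℕ} (g : G) (s : Sing n E) (i : Fin (n + 1)) :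
    vtx (g • s) i = g • vtx s i := rfl

lemma bdL_perm (n : ℕ) (κ : MonoidAlgebra ℂ G) (c : Sing (n + 1) E →₀ ℂ) :
    bdL E n (permAlg G (Sing (n + 1) E) κ c) = permAlg G (Sing n E) κ (bdL E n c) := by
  rw [bdL]
  refine lc_perm (permAlg G (Sing n E)) _ (fun g s => ?_) κ c
  rw [map_sum]
  refine Finset.sum_congr rfl fun j _ => ?_
  rw [map_smul, permAlg_single, one_mul, face_gsmul]

end act

/-- zero-chains of total zero are boundaries. -/
lemma exists_bdL_zero [PathConnectedSpace E] (c : Sing 0 E →₀ ℂ) (hc : tot (Sing 0 E) c = 0) :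
    ∃ y, bdL E 0 y = c := by
  obtain ⟨x₀⟩ : Nonempty E := inferInstance
  have hpath : ∀ x : E, Nonempty (Path x₀ x) := fun x => PathConnectedSpace.joined _ _
  let p : ∀ x : E, Path x₀ x := fun x => (hpath x).some
  let L : (Sing 0 E →₀ ℂ) →ₗ[ℂ] (Sing 1 E →₀ ℂ) :=
    Finsupp.linearCombination ℂ fun s => Finsupp.single (ofPath (p (vtx s 0))) (1 : ℂ)
  have key : ∀ c, bdL E 0 (L c) = c - tot (Sing 0 E) c • Finsupp.single (pt x₀) 1 := by
    intro c
    induction c using Finsupp.induction_linear with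
    | zero => simp
    | add x y hx hy => rw [map_add, map_add, hx, hy, map_add, add_smul]; abel
    | single s a =>
      show bdL E 0 (Finsupp.linearCombination ℂ _ (Finsupp.single s a)) = _
      rw [Finsupp.linearCombination_single, map_smul, bdL_eq, bd_ofPath, tot_single, smul_sub]
      congr 1
      rw [← eq_pt, Finsupp.smul_single, smul_eq_mul, mul_one]
  refine ⟨L c, ?_⟩
  rw [key, hc, zero_smul, sub_zero]

/-- The complex homology of `E` vanishes in the degrees from `1` to `k - 1`. -/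
def HZero (E : Type v) [TopologicalSpace E] (k : ℕ) : Prop :=
  ∀ i, i + 2 ≤ k → ∀ z : Sing (i + 1) E →₀ ℂ, bd ℂ E i z = 0 →
    ∃ y : Sing (i + 2) E →₀ ℂ, bd ℂ E (i + 1) y = z

section phi

variable [MulAction G E] [ContinuousConstSMul G E]

lemma exists_phi [PathConnectedSpace E] (k : ℕ) (hE : HZero E k) :
    ∃ φ : ∀ i, Tup G i → (Sing i E →₀ ℂ), (∀ i, Eqv (permAlg G (Sing i E)) (φ i)) ∧
      (∀ e, tot (Sing 0 E) (φ 0 e) = 1) ∧
      ∀ i, i + 1 ≤ k → ∀ e, bdL E i (φ (i + 1) e) = dlt (φ i) e := by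
  obtain ⟨x₀⟩ : Nonempty E := inferInstance
  have hf0 : Eqv (permAlg G (Sing 0 E))
      (fun e : Tup G 0 => Finsupp.single (e 0 • (pt x₀ : Sing 0 E)) (1 : ℂ)) := by
    intro g e
    show Finsupp.single ((g • e) 0 • (pt x₀ : Sing 0 E)) (1 : ℂ) = _
    have h1 : (g • e) 0 = g * e 0 := rfl
    rw [permAlg_single, one_mul, h1, mul_smul]
  have h0 : ∀ e : Tup G 1, ∃ y, bdL E 0 y =
      dlt (fun e : Tup G 0 => Finsupp.single (e 0 • (pt x₀ : Sing 0 E)) (1 : ℂ)) e := by
    intro e
    refine exists_bdL_zero _ ?_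
    rw [dlt_map]
    simp only [tot_single]
    exact dlt_one Even.zero e
  have hex : ∀ i, i + 2 ≤ k → ∀ x : Sing (i + 1) E →₀ ℂ, bdL E i x = 0 →
      ∃ y, bdL E (i + 1) y = x := by
    intro i hi x hx
    rw [bdL_eq] at hx
    obtain ⟨y, hy⟩ := hE i hi x hx
    refine ⟨y, ?_⟩
    rw [bdL_eq]
    exact hy
  obtain ⟨φ, h1, h2, h3⟩ := exists_lift (fun i => Sing i E →₀ ℂ)
    (fun i => permAlg G (Sing i E)) (fun i => bdL E i) (fun i g x => bdL_perm _ _ _) k
    _ hf0 h0 hex
  refine ⟨φ, h1, fun e => ?_, h3⟩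
  rw [h2, tot_single]

end phi

section push

variable (r : E → G)

/-- the tuple of the vertices of a singular simplex. -/
noncomputable def tupv {n : ℕ} (s : Sing n E) : Tup G n := fun m => r (vtx s m)

omit [Group G] in
lemma tface_tupv {n : ℕ} (j : Fin (n + 2)) (s : Sing (n + 1) E) :
    tface j (tupv r s) = tupv r (face j s) := by
  funext m
  show r (vtx s (j.succAbove m)) = r (vtx (face j s) m)
  rw [vtx_face]

lemma tupv_gsmul [MulAction G E] [ContinuousConstSMul G E]
    (hr : ∀ (g : G) (e : E), r (g • e) = g * r e) {n : ℕ} (g : G) (s : Sing n E) :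
    tupv r (g • s) = g • tupv r s := by
  funext m
  show r (vtx (g • s) m) = g * r (vtx s m)
  rw [vtx_gsmul, hr]

/-- the push-forward of singular chains. -/
noncomputable def rp (n : ℕ) : (Sing n E →₀ ℂ) →ₗ[ℂ] (Tup G n →₀ ℂ) :=
  Finsupp.linearCombination ℂ fun s => Finsupp.single (tupv r s) (1 : ℂ)

omit [Group G] in
lemma rp_single (n : ℕ) (s : Sing n E) (a : ℂ) :
    rp r n (Finsupp.single s a) = Finsupp.single (tupv r s) a := by
  rw [rp, Finsupp.linearCombination_single, Finsupp.smul_single, smul_eq_mul, mul_one]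

omit [Group G] in
lemma rp_bdL (n : ℕ) (c : Sing (n + 1) E →₀ ℂ) :
    rp r n (bdL E n c) = bdT G n (rp r (n + 1) c) := by
  induction c using Finsupp.induction_linear with
  | zero => simp
  | add x y hx hy => rw [map_add, map_add, hx, hy, map_add, map_add]
  | single s a =>
    rw [rp_single, bdL, Finsupp.linearCombination_single, map_smul, bdT,
      Finsupp.linearCombination_single, map_sum, dlt]
    congr 1
    refine Finset.sum_congr rfl fun j _ => ?_
    rw [map_smul, rp_single, tface_tupv]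

lemma rp_perm [MulAction G E] [ContinuousConstSMul G E]
    (hr : ∀ (g : G) (e : E), r (g • e) = g * r e) (n : ℕ) (κ : MonoidAlgebra ℂ G)
    (c : Sing n E →₀ ℂ) :
    rp r n (permAlg G (Sing n E) κ c) = permAlg G (Tup G n) κ (rp r n c) := by
  rw [rp]
  refine lc_perm (permAlg G (Tup G n)) _ (fun g s => ?_) κ c
  rw [permAlg_single, one_mul, tupv_gsmul r hr]

omit [Group G] in
lemma tot_rp (n : ℕ) (c : Sing n E →₀ ℂ) : tot (Tup G n) (rp r n c) = tot (Sing n E) c := by
  induction c using Finsupp.induction_linear with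
  | zero => simp
  | add x y hx hy => rw [map_add, map_add, hx, hy, map_add]
  | single s a => rw [rp_single, tot_single, tot_single]

end push

end Pool.Agent.LibZIS
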