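import Pool.Agent.LibZIS.Two
import Pool.Agent.LibZIS.Mat

/-!
Homogeneous chains and cochains of a group, modules over the complex group algebra.
-/

set_option autoImplicit false

namespace Pool.Agent.LibZIS

universe u v w

/-! ### modules over the group algebra -/

section modules

variable {G : Type u} [Group G]

/-- the augmentation. -/
noncomputable def aug (G : Type u) [Group G] : MonoidAlgebra ℂ G →ₐ[ℂ] ℂ :=
  MonoidAlgebra.lift ℂ ℂ G 1

lemma aug_single (g : G) (z : ℂ) : aug G (MonoidAlgebra.single g z) = z := by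
  simp [aug]

/-- the group algebra acting on the chains of a `G`-set. -/
noncomputable def permAlg (G : Type u) [Group G] (Y : Type v) [MulAction G Y] :
    MonoidAlgebra ℂ G →ₐ[ℂ] Module.End ℂ (Y →₀ ℂ) :=
  MonoidAlgebra.lift ℂ _ G
    { toFun := fun g => Finsupp.lmapDomain ℂ ℂ (fun y : Y => g • y)
      map_one' := by
        ext y
        simp
      map_mul' := fun g h => by
        ext y
        simp [mul_smul] }

lemma permAlg_single {Y : Type v} [MulAction G Y] (g : G) (z a : ℂ) (y : Y) :
    permAlg G Y (MonoidAlgebra.single g z) (Finsupp.single y a) =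
      Finsupp.single (g • y) (z * a) := by
  simp [permAlg]

/-- the group algebra acting on the functions on a `G`-set. -/
noncomputable def funAlg (G : Type u) [Group G] (X : Type v) [MulAction G X] :
    MonoidAlgebra ℂ G →ₐ[ℂ] Module.End ℂ (X → ℂ) :=
  MonoidAlgebra.lift ℂ _ G
    { toFun := fun g =>
        { toFun := fun f x => f (g⁻¹ • x)
          map_add' := fun _ _ => rfl
          map_smul' := fun _ _ => rfl }
      map_one' := by
        ext f x
        simp
      map_mul' := fun g h => by
        ext f x
        simp [mul_smul] }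

lemma funAlg_single {X : Type v} [MulAction G X] (g : G) (z : ℂ) (f : X → ℂ) (x : X) :
    funAlg G X (MonoidAlgebra.single g z) f x = z * f (g⁻¹ • x) := by
  simp [funAlg]

/-- left multiplication on row vectors. -/
noncomputable def rowAlg (K : Type u) [Ring K] [Algebra ℂ K] (n : ℕ) :
    K →ₐ[ℂ] Module.End ℂ (Fin n → K) where
  toFun κ :=
    { toFun := fun v l => κ * v l
      map_add' := fun v w => by ext l; simp [mul_add]
      map_smul' := fun c v => by ext l; simp }
  map_one' := by ext v l; simp
  map_mul' a b := by ext v l; simp [mul_assoc]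
  map_zero' := by ext v l; simp
  map_add' a b := by ext v l; simp [add_mul]
  commutes' c := by ext v l; simp [Algebra.smul_def]

lemma rowAlg_apply (K : Type u) [Ring K] [Algebra ℂ K] (n : ℕ) (κ : K) (v : Fin n → K)
    (l : Fin n) : rowAlg K n κ v l = κ * v l := rfl

/-- equivariant functions extend to intertwining operators. -/
lemma lc_perm {Y : Type v} [MulAction G Y] {M : Type w} [AddCommGroup M] [Module ℂ M]
    (α : MonoidAlgebra ℂ G →ₐ[ℂ] Module.End ℂ M) (f : Y → M)
    (hf : ∀ g y, f (g • y) = α (MonoidAlgebra.single g 1) (f y)) (κ : MonoidAlgebra ℂ G)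
    (c : Y →₀ ℂ) : Finsupp.linearCombination ℂ f (permAlg G Y κ c) =
      α κ (Finsupp.linearCombination ℂ f c) := by
  induction κ using MonoidAlgebra.induction_linear with
  | zero => simp
  | add x y hx hy => rw [map_add, LinearMap.add_apply, map_add, hx, hy, map_add]; rfl
  | single g z =>
    induction c using Finsupp.induction_linear with
    | zero => simp
    | add x y hx hy => rw [map_add, map_add, hx, hy, map_add, map_add]
    | single y a =>
      rw [permAlg_single, Finsupp.linearCombination_single, Finsupp.linearCombination_single, hf]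
      have h1 : (MonoidAlgebra.single g z : MonoidAlgebra ℂ G) =
          z • MonoidAlgebra.single g 1 := by simp
      have h2 : α (z • MonoidAlgebra.single g 1) = z • α (MonoidAlgebra.single g 1) :=
        map_smul α z _
      rw [h1, h2, LinearMap.smul_apply, map_smul, smul_smul, mul_comm]

end modules

/-! ### tuples -/

section tuples

variable {G : Type u}

/-- tuples of group elements: the simplices of the standard resolution. -/
abbrev Tup (G : Type u) (i : ℕ) := Fin (i + 1) → G

/-- the faces of a tuple. -/
def tface {i : ℕ} (j : Fin (i + 2)) (e : Tup G (i + 1)) : Tup G i := fun m => e (j.succAbove m)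

variable {M : Type v} [AddCommGroup M] [Module ℂ M]

/-- the coboundary of a homogeneous cochain. -/
noncomputable def dlt {i : ℕ} (f : Tup G i → M) (e : Tup G (i + 1)) : M :=
  ∑ j : Fin (i + 2), (-1 : ℂ) ^ (j : ℕ) • f (tface j e)

lemma dlt_dlt {i : ℕ} (f : Tup G i → M) (e : Tup G (i + 2)) : dlt (dlt f) e = 0 := by
  simp only [dlt, Finset.smul_sum]
  rw [← Finset.sum_product' Finset.univ Finset.univ
    (fun (x : Fin (i + 1 + 2)) (y : Fin (i + 2)) =>
      (-1 : ℂ) ^ (x : ℕ) • (-1 : ℂ) ^ (y : ℕ) • f (tface y (tface x e)))]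
  refine Finset.sum_involution
    (fun (p : Fin (i + 1 + 2) × Fin (i + 2)) _ => (p.1.succAbove p.2, p.2.predAbove p.1)) ?_ ?_ ?_ ?_
  · rintro ⟨a, b⟩ _
    have h1 : tface (b.predAbove a) (tface (a.succAbove b) e) = tface b (tface a e) := by
      funext m
      show e ((a.succAbove b).succAbove ((b.predAbove a).succAbove m)) = e _
      rw [Fin.succAbove_succAbove_succAbove_predAbove]
    simp only
    rw [h1, smul_smul, smul_smul, ← pow_add, ← pow_add, Fin.neg_one_pow_succAbove_add_predAbove,
      neg_smul, add_neg_cancel]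
  · rintro ⟨a, b⟩ _ _ h
    have h1 := congrArg Prod.fst h
    exact Fin.succAbove_ne _ _ h1
  · intro p _
    exact Finset.mem_univ _
  · rintro ⟨a, b⟩ _
    simp only
    rw [Fin.succAbove_succAbove_predAbove, Fin.predAbove_predAbove_succAbove]

/-- the boundary of a homogeneous chain. -/
noncomputable def bdT (G : Type u) (i : ℕ) : (Tup G (i + 1) →₀ ℂ) →ₗ[ℂ] (Tup G i →₀ ℂ) :=
  Finsupp.linearCombination ℂ (dlt fun e => Finsupp.single e (1 : ℂ))

lemma lc_dlt {i : ℕ} (f : Tup G i → M) (e : Tup G (i + 1)) :
    Finsupp.linearCombination ℂ f (dlt (fun e => Finsupp.single e (1 : ℂ)) e) = dlt f e := by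
  simp [dlt, map_sum]

lemma lc_bdT {i : ℕ} (f : Tup G i → M) (c : Tup G (i + 1) →₀ ℂ) :
    Finsupp.linearCombination ℂ f (bdT G i c) = Finsupp.linearCombination ℂ (dlt f) c := by
  rw [bdT]
  induction c using Finsupp.induction_linear with
  | zero => simp
  | add x y hx hy => rw [map_add, map_add, hx, hy, map_add]
  | single e a =>
    rw [Finsupp.linearCombination_single, Finsupp.linearCombination_single, map_smul, lc_dlt]

lemma bdT_bdT {i : ℕ} (c : Tup G (i + 2) →₀ ℂ) : bdT G i (bdT G (i + 1) c) = 0 := by
  have h1 : bdT G i (bdT G (i + 1) c) =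
      Finsupp.linearCombination ℂ (dlt (dlt fun e : Tup G i => Finsupp.single e (1 : ℂ))) c := by
    rw [← lc_bdT]
    rfl
  have h2 : dlt (dlt fun e : Tup G i => Finsupp.single e (1 : ℂ)) = 0 := by
    funext e
    exact dlt_dlt _ e
  rw [h1, h2]
  simp

variable [Group G]

lemma tface_smul {i : ℕ} (j : Fin (i + 2)) (g : G) (e : Tup G (i + 1)) :
    tface j (g • e) = g • tface j e := rfl

lemma dlt_smul {i : ℕ} (α : MonoidAlgebra ℂ G →ₐ[ℂ] Module.End ℂ M) (f : Tup G i → M)
    (hf : ∀ g e, f (g • e) = α (MonoidAlgebra.single g 1) (f e)) (g : G) (e : Tup G (i + 1)) :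
    dlt f (g • e) = α (MonoidAlgebra.single g 1) (dlt f e) := by
  simp only [dlt, map_sum, tface_smul, hf, map_smul]

/-- the group algebra acts on homogeneous chains, the boundary is equivariant. -/
lemma bdT_perm {i : ℕ} (κ : MonoidAlgebra ℂ G) (c : Tup G (i + 1) →₀ ℂ) :
    bdT G i (permAlg G (Tup G (i + 1)) κ c) = permAlg G (Tup G i) κ (bdT G i c) := by
  rw [bdT]
  refine lc_perm (permAlg G (Tup G i)) _ (fun g e => ?_) κ c
  refine dlt_smul (permAlg G (Tup G i)) _ (fun g e => ?_) g e
  rw [permAlg_single, one_mul]

/-! ### the cone -/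

/-- the cone on a tuple with apex `1`. -/
def cone {i : ℕ} (e : Tup G i) : Tup G (i + 1) := Fin.cons 1 e

/-- the cone on chains. -/
noncomputable def coneT (G : Type u) [Group G] (i : ℕ) :
    (Tup G i →₀ ℂ) →ₗ[ℂ] (Tup G (i + 1) →₀ ℂ) :=
  Finsupp.linearCombination ℂ fun e => Finsupp.single (cone e) (1 : ℂ)

lemma tface_zero_cone {i : ℕ} (e : Tup G i) : tface 0 (cone e) = e := by
  funext m
  simp [tface, cone]

lemma tface_succ_cone {i : ℕ} (j : Fin (i + 2)) (e : Tup G (i + 1)) :
    tface j.succ (cone e) = cone (tface j e) := by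
  funext m
  refine Fin.cases ?_ (fun m => ?_) m
  · simp [tface, cone]
  · simp [tface, cone]

lemma bdT_cone_succ {i : ℕ} (c : Tup G (i + 1) →₀ ℂ) :
    bdT G (i + 1) (coneT G (i + 1) c) = c - coneT G i (bdT G i c) := by
  induction c using Finsupp.induction_linear with
  | zero => simp
  | add x y hx hy => rw [map_add, map_add, hx, hy, map_add, map_add]; abel
  | single e a =>
    rw [coneT, Finsupp.linearCombination_single, map_smul, bdT,
      Finsupp.linearCombination_single, one_smul, dlt, Fin.sum_univ_succ]
    simp only [tface_zero_cone, tface_succ_cone]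
    rw [bdT, Finsupp.linearCombination_single, map_smul, coneT, lc_dlt, dlt, smul_add]
    simp only [Fin.val_zero, pow_zero, one_smul, Fin.val_succ, pow_succ, mul_neg, mul_one,
      neg_smul, Finset.sum_neg_distrib, smul_neg, Finsupp.smul_single, smul_eq_mul]
    rw [sub_eq_add_neg]

lemma bdT_cone_zero (c : Tup G 0 →₀ ℂ) :
    bdT G 0 (coneT G 0 c) =
      c - Finsupp.single (1 : Tup G 0) (Finsupp.linearCombination ℂ (fun _ => (1 : ℂ)) c) := by
  induction c using Finsupp.induction_linear with
  | zero => simp
  | add x y hx hy =>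
    rw [map_add, map_add, hx, hy, map_add, Finsupp.single_add]; abel
  | single e a =>
    rw [coneT, Finsupp.linearCombination_single, map_smul, bdT,
      Finsupp.linearCombination_single, one_smul, dlt, Fin.sum_univ_two, tface_zero_cone,
      Finsupp.linearCombination_single]
    have h1 : tface 1 (cone e) = (1 : Tup G 0) := by
      funext m
      have hm : m = 0 := Fin.eq_zero m
      subst hm
      rfl
    rw [h1]
    simp [sub_eq_add_neg]

end tuples

end Pool.Agent.LibZIS
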