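import Pool.Agent.LibZIS.Pairing

/-!
Pairing of two-dimensional chains with a group cocycle, and the torus of two commuting elements.
-/

set_option autoImplicit false

namespace Pool.Agent.LibZIS

universe u v w

open stdSimplex

variable {G : Type u} [Group G] {E : Type v} [TopologicalSpace E] [MulAction G E]
  [ContinuousConstSMul G E] {A : Type w} [Ring A] (ρ : G →* A)

/-! ### the action of coefficients on classes of chains -/

/-- left multiplication on the chains. -/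
noncomputable def lsm (n : ℕ) (a : A) : Ch ρ E n →+ Ch ρ E n :=
  QuotientAddGroup.map _ _ (DistribSMul.toAddMonoidHom (Sing n E →₀ A) a)
    (fun _ hc => rel_smul ρ n a hc)

/-- the class of a chain. -/
noncomputable def cls (n : ℕ) (c : Sing n E →₀ A) : Ch ρ E n := QuotientAddGroup.mk c

lemma cls_add (n : ℕ) (c d : Sing n E →₀ A) : cls ρ n (c + d) = cls ρ n c + cls ρ n d := rfl

lemma cls_sub (n : ℕ) (c d : Sing n E →₀ A) : cls ρ n (c - d) = cls ρ n c - cls ρ n d := rfl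

lemma cls_surj (n : ℕ) (x : Ch ρ E n) : ∃ c, cls ρ n c = x := QuotientAddGroup.mk_surjective x

lemma lsm_cls (n : ℕ) (a : A) (c : Sing n E →₀ A) : lsm ρ n a (cls ρ n c) = cls ρ n (a • c) :=
  rfl

lemma dif_cls (n : ℕ) (c : Sing (n + 1) E →₀ A) :
    dif ρ E n (cls ρ (n + 1) c) = cls ρ n (bd A E n c) := rfl

lemma lsm_dif (n : ℕ) (a : A) (x : Ch ρ E (n + 1)) :
    dif ρ E n (lsm ρ (n + 1) a x) = lsm ρ n a (dif ρ E n x) := by
  obtain ⟨c, rfl⟩ := cls_surj ρ _ x
  rw [lsm_cls, dif_cls, dif_cls, lsm_cls, bd_smul]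

lemma lsm_mul (n : ℕ) (a b : A) (x : Ch ρ E n) : lsm ρ n (a * b) x = lsm ρ n a (lsm ρ n b x) := by
  obtain ⟨c, rfl⟩ := cls_surj ρ _ x
  rw [lsm_cls, lsm_cls, lsm_cls, mul_smul]

lemma cls_act (n : ℕ) (g : G) (s : Sing n E) :
    cls ρ n (Finsupp.single (act g s) (1 : A)) =
      lsm ρ n (ρ g) (cls ρ n (Finsupp.single s 1)) := by
  rw [lsm_cls, Finsupp.smul_single, smul_eq_mul, mul_one]
  have h : Finsupp.single (act g s) (1 : A) - Finsupp.single s (1 * ρ g) ∈ rel ρ E n :=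
    AddSubgroup.subset_closure ⟨g, s, 1, rfl⟩
  rw [one_mul] at h
  have h2 : -Finsupp.single s (ρ g) + Finsupp.single (act g s) (1 : A) ∈ rel ρ E n := by
    rw [neg_add_eq_sub]; exact h
  exact ((QuotientAddGroup.eq).2 h2).symm

/-! ### integral chains -/

/-- integral chains as chains with coefficients in `A`. -/
noncomputable def cst (A : Type w) [Ring A] (n : ℕ) : (Sing n E →₀ ℤ) →+ (Sing n E →₀ A) :=
  Finsupp.mapRange.addMonoidHom (Int.castAddHom A)

lemma cst_single (n : ℕ) (s : Sing n E) (m : ℤ) :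
    cst A n (Finsupp.single s m) = Finsupp.single s (m : A) := by
  simp [cst]

lemma bd_cst (n : ℕ) (c : Sing (n + 1) E →₀ ℤ) :
    bd A E n (cst A (n + 1) c) = cst A n (bd ℤ E n c) := by
  induction c using Finsupp.induction_linear with
  | zero => simp
  | add x y hx hy => rw [map_add, map_add, hx, hy, map_add, map_add]
  | single s m =>
    rw [cst_single, bd_single, bd_single, map_sum]
    refine Finset.sum_congr rfl fun i _ => ?_
    rw [map_zsmul, cst_single]

/-! ### homogeneous cochains -/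

section cochain

variable {V : Type*} [AddCommGroup V] [Module A V] (b : G → G → V)

/-- the homogeneous cochain. -/
noncomputable def hom2 (g₀ g₁ g₂ : G) : V := ρ g₀ • b (g₀⁻¹ * g₁) (g₁⁻¹ * g₂)

lemma hom2_mul (g g₀ g₁ g₂ : G) :
    hom2 ρ b (g * g₀) (g * g₁) (g * g₂) = ρ g • hom2 ρ b g₀ g₁ g₂ := by
  rw [hom2, hom2, map_mul, mul_smul]
  congr 3 <;> group

lemma hom2_cocycle (hb : ∀ g h k, ρ g • b h k - b (g * h) k + b g (h * k) - b g h = 0)
    (g₀ g₁ g₂ g₃ : G) :
    hom2 ρ b g₁ g₂ g₃ - hom2 ρ b g₀ g₂ g₃ + hom2 ρ b g₀ g₁ g₃ - hom2 ρ b g₀ g₁ g₂ = 0 := by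
  have h := hb (g₀⁻¹ * g₁) (g₁⁻¹ * g₂) (g₂⁻¹ * g₃)
  have e1 : g₀⁻¹ * g₁ * (g₁⁻¹ * g₂) = g₀⁻¹ * g₂ := by group
  have e2 : g₁⁻¹ * g₂ * (g₂⁻¹ * g₃) = g₁⁻¹ * g₃ := by group
  rw [e1, e2] at h
  have h2 := congrArg (fun v => ρ g₀ • v) h
  simp only [smul_zero, smul_sub, smul_add] at h2
  rw [← mul_smul, ← map_mul, mul_inv_cancel_left] at h2
  exact h2

/-- the pairing of two-chains. -/
noncomputable def pair2 (r : E → G) : (Sing 2 E →₀ A) →+ V :=
  Finsupp.liftAddHom fun s =>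
    (AddMonoidHom.flip (smulAddHom A V)
      (hom2 ρ b (r (vtx s 0)) (r (vtx s 1)) (r (vtx s 2))) : A →+ V)

lemma pair2_single (r : E → G) (s : Sing 2 E) (m : A) :
    pair2 ρ b r (Finsupp.single s m) =
      m • hom2 ρ b (r (vtx s 0)) (r (vtx s 1)) (r (vtx s 2)) := by
  simp [pair2]

lemma pair2_smul (r : E → G) (a : A) (c : Sing 2 E →₀ A) :
    pair2 ρ b r (a • c) = a • pair2 ρ b r c := by
  induction c using Finsupp.induction_linear with
  | zero => simp
  | add x y hx hy => rw [smul_add, map_add, map_add, hx, hy, smul_add]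
  | single s m => rw [Finsupp.smul_single, pair2_single, pair2_single, smul_eq_mul, mul_smul]

lemma pair2_rel (r : E → G) (hr : ∀ (g : G) (e : E), r (g • e) = g * r e) {c : Sing 2 E →₀ A}
    (hc : c ∈ rel ρ E 2) : pair2 ρ b r c = 0 := by
  have : rel ρ E 2 ≤ (pair2 ρ b r : (Sing 2 E →₀ A) →+ V).ker := by
    rw [rel, AddSubgroup.closure_le]
    rintro _ ⟨g, s, m, rfl⟩
    show pair2 ρ b r _ = 0
    rw [map_sub, pair2_single, pair2_single, vtx_act, vtx_act, vtx_act, hr, hr, hr, hom2_mul,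
      mul_smul, sub_self]
  exact this hc

lemma pair2_bd (hb : ∀ g h k, ρ g • b h k - b (g * h) k + b g (h * k) - b g h = 0)
    (r : E → G) (d : Sing 3 E →₀ A) : pair2 ρ b r (bd A E 2 d) = 0 := by
  induction d using Finsupp.induction_linear with
  | zero => simp
  | add x y hx hy => rw [map_add, map_add, hx, hy, add_zero]
  | single s m =>
    rw [bd_single, Fin.sum_univ_four]
    simp only [map_add, map_zsmul, pair2_single, vtx_face]
    have e1 : (0 : Fin 4).succAbove 0 = 1 := rfl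
    have e2 : (0 : Fin 4).succAbove 1 = 2 := rfl
    have e3 : (0 : Fin 4).succAbove 2 = 3 := rfl
    have e4 : (1 : Fin 4).succAbove 0 = 0 := rfl
    have e5 : (1 : Fin 4).succAbove 1 = 2 := rfl
    have e6 : (1 : Fin 4).succAbove 2 = 3 := rfl
    have e7 : (2 : Fin 4).succAbove 0 = 0 := rfl
    have e8 : (2 : Fin 4).succAbove 1 = 1 := rfl
    have e9 : (2 : Fin 4).succAbove 2 = 3 := rfl
    have e10 : (3 : Fin 4).succAbove 0 = 0 := rfl
    have e11 : (3 : Fin 4).succAbove 1 = 1 := rfl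
    have e12 : (3 : Fin 4).succAbove 2 = 2 := rfl
    rw [e1, e2, e3, e4, e5, e6, e7, e8, e9, e10, e11, e12]
    have h := hom2_cocycle ρ b hb (r (vtx s 0)) (r (vtx s 1)) (r (vtx s 2)) (r (vtx s 3))
    have h2 := congrArg (fun v => m • v) h
    simp only [smul_zero, smul_sub, smul_add] at h2
    have s0 : ((-1 : ℤ) ^ ((0 : Fin (2 + 2)) : ℕ)) = 1 := rfl
    have s1 : ((-1 : ℤ) ^ ((1 : Fin (2 + 2)) : ℕ)) = -1 := rfl
    have s2 : ((-1 : ℤ) ^ ((2 : Fin (2 + 2)) : ℕ)) = 1 := rfl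
    have s3 : ((-1 : ℤ) ^ ((3 : Fin (2 + 2)) : ℕ)) = -1 := rfl
    rw [s0, s1, s2, s3]
    simp only [one_smul, neg_smul]
    rw [← h2]
    abel

/-- the pairing of integral one-chains with the cochain coned off at the identity. -/
noncomputable def cone1 (r : E → G) : (Sing 1 E →₀ ℤ) →+ V :=
  Finsupp.liftAddHom fun s =>
    (AddMonoidHom.flip (smulAddHom ℤ V) (hom2 ρ b 1 (r (vtx s 0)) (r (vtx s 1))) : ℤ →+ V)

lemma cone1_single (r : E → G) (s : Sing 1 E) (m : ℤ) :
    cone1 ρ b r (Finsupp.single s m) = m • hom2 ρ b 1 (r (vtx s 0)) (r (vtx s 1)) := by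
  simp [cone1]

lemma pair2_cst (hb : ∀ g h k, ρ g • b h k - b (g * h) k + b g (h * k) - b g h = 0)
    (r : E → G) (d : Sing 2 E →₀ ℤ) :
    pair2 ρ b r (cst A 2 d) = cone1 ρ b r (bd ℤ E 1 d) := by
  induction d using Finsupp.induction_linear with
  | zero => simp
  | add x y hx hy => rw [map_add, map_add, hx, hy, map_add, map_add]
  | single s m =>
    rw [cst_single, pair2_single, bd_single, Fin.sum_univ_three]
    simp only [map_add, map_zsmul, cone1_single, vtx_face]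
    have e1 : (0 : Fin 3).succAbove 0 = 1 := rfl
    have e2 : (0 : Fin 3).succAbove 1 = 2 := rfl
    have e3 : (1 : Fin 3).succAbove 0 = 0 := rfl
    have e4 : (1 : Fin 3).succAbove 1 = 2 := rfl
    have e5 : (2 : Fin 3).succAbove 0 = 0 := rfl
    have e6 : (2 : Fin 3).succAbove 1 = 1 := rfl
    rw [e1, e2, e3, e4, e5, e6]
    have h := hom2_cocycle ρ b hb 1 (r (vtx s 0)) (r (vtx s 1)) (r (vtx s 2))
    have h2 : hom2 ρ b (r (vtx s 0)) (r (vtx s 1)) (r (vtx s 2)) =
        hom2 ρ b 1 (r (vtx s 1)) (r (vtx s 2)) - hom2 ρ b 1 (r (vtx s 0)) (r (vtx s 2)) +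
          hom2 ρ b 1 (r (vtx s 0)) (r (vtx s 1)) := by
      rw [← sub_eq_zero, ← h]
      abel
    have s0 : ((-1 : ℤ) ^ ((0 : Fin (1 + 2)) : ℕ)) = 1 := rfl
    have s1 : ((-1 : ℤ) ^ ((1 : Fin (1 + 2)) : ℕ)) = -1 := rfl
    have s2 : ((-1 : ℤ) ^ ((2 : Fin (1 + 2)) : ℕ)) = 1 := rfl
    rw [s0, s1, s2, h2, Int.cast_smul_eq_zsmul]
    simp only [one_smul, neg_smul, smul_sub, smul_add]
    abel

end cochain

/-! ### sections -/

omit [TopologicalSpace E] [ContinuousConstSMul G E] in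
/-- for a free action there is an equivariant map to the group. -/
lemma exists_equivariant (hfree : ∀ (g : G) (e : E), g • e = e → g = 1) (x₀ : E) :
    ∃ r : E → G, (∀ (g : G) (e : E), r (g • e) = g * r e) ∧ r x₀ = 1 := by
  have hex : ∀ e : E, ∃ g : G,
      g • (Quotient.out (s := MulAction.orbitRel G E) (Quotient.mk _ e)) = e := by
    intro e
    have h := Quotient.mk_out (s := MulAction.orbitRel G E) e
    exact (MulAction.orbitRel G E).symm h
  choose γ hγ using hex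
  have key : ∀ (g : G) (e : E), γ (g • e) = g * γ e := by
    intro g e
    have h1 : (Quotient.mk (MulAction.orbitRel G E) (g • e)) = Quotient.mk _ e :=
      Quotient.sound (s := MulAction.orbitRel G E) ⟨g, rfl⟩
    have h2 := hγ (g • e)
    rw [h1] at h2
    have h3 : ((g * γ e)⁻¹ * γ (g • e)) •
        (Quotient.out (s := MulAction.orbitRel G E) (Quotient.mk _ e)) =
        (Quotient.out (s := MulAction.orbitRel G E) (Quotient.mk _ e)) := by
      rw [mul_smul, h2, inv_smul_eq_iff, mul_smul, hγ e]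
    have h4 := hfree _ _ h3
    rw [inv_mul_eq_one] at h4
    exact h4.symm
  refine ⟨fun e => γ e * (γ x₀)⁻¹, fun g e => ?_, mul_inv_cancel _⟩
  show γ (g • e) * (γ x₀)⁻¹ = g * (γ e * (γ x₀)⁻¹)
  rw [key, mul_assoc]

/-! ### the torus -/

/-- The integral homology of `E` in degree one vanishes. -/
def H1Zero (E : Type v) [TopologicalSpace E] : Prop :=
  ∀ z : Sing 1 E →₀ ℤ, bd ℤ E 0 z = 0 → ∃ D : Sing 2 E →₀ ℤ, bd ℤ E 1 D = z

lemma bd_ofPath {R : Type w} [Ring R] {x y : E} (p : Path x y) :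
    bd R E 0 (Finsupp.single (ofPath p) (1 : R)) =
      Finsupp.single (pt y) 1 - Finsupp.single (pt x) 1 := by
  rw [bd_single, Fin.sum_univ_two]
  have e1 : face 0 (ofPath p) = pt y := by
    rw [eq_pt (face 0 (ofPath p)), vtx_face]
    congr 1
    exact vtx_ofPath_one p
  have e2 : face 1 (ofPath p) = pt x := by
    rw [eq_pt (face 1 (ofPath p)), vtx_face]
    congr 1
    exact vtx_ofPath_zero p
  rw [e1, e2]
  simp [sub_eq_add_neg]

lemma bd_act_ofPath {R : Type w} [Ring R] (g : G) {x y : E} (p : Path x y) :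
    bd R E 0 (Finsupp.single (act g (ofPath p)) (1 : R)) =
      Finsupp.single (pt (g • y)) 1 - Finsupp.single (pt (g • x)) 1 := by
  rw [bd_single, Fin.sum_univ_two]
  have e1 : face 0 (act g (ofPath p)) = pt (g • y) := by
    rw [eq_pt (face 0 (act g (ofPath p))), vtx_face, vtx_act]
    congr 2
    exact vtx_ofPath_one p
  have e2 : face 1 (act g (ofPath p)) = pt (g • x) := by
    rw [eq_pt (face 1 (act g (ofPath p))), vtx_face, vtx_act]
    congr 2
    exact vtx_ofPath_zero p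
  rw [e1, e2]
  simp [sub_eq_add_neg]

/-- If the homology with coefficients in `A` vanishes in degrees zero, one and two, two-cocycles
with values in an `A`-module are coboundaries. -/
theorem coboundary2_of_trivial [PathConnectedSpace E]
    (hfree : ∀ (g : G) (e : E), g • e = e → g = 1) (hE : H1Zero E)
    (h0 : ¬ Nontrivial (Hgy ρ E 0)) (h1 : ¬ Nontrivial (Hgy ρ E 1))
    (h2 : ¬ Nontrivial (Hgy ρ E 2))
    {V : Type*} [AddCommGroup V] [Module A V] (b : G → G → V)
    (hb : ∀ g h k, ρ g • b h k - b (g * h) k + b g (h * k) - b g h = 0) :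
    ∃ c : G → V, ∀ g h, b g h = ρ g • c h - c (g * h) + c g := by
  rw [not_nontrivial_iff_subsingleton] at h0 h1 h2
  have H0 : ∀ x : Ch ρ E 0, ∃ y, dif ρ E 0 y = x := by
    intro x
    have : (QuotientAddGroup.mk x : Ch ρ E 0 ⧸ (dif ρ E 0).range) = QuotientAddGroup.mk 0 :=
      h0.elim _ _
    rw [QuotientAddGroup.eq] at this
    have h : x ∈ (dif ρ E 0).range := by simpa using this
    exact h
  have H1 : ∀ x : Ch ρ E 1, dif ρ E 0 x = 0 → ∃ y, dif ρ E 1 y = x := by
    intro x hx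
    have : (QuotientAddGroup.mk (⟨x, hx⟩ : (dif ρ E 0).ker) :
      (dif ρ E 0).ker ⧸ ((dif ρ E 1).range.addSubgroupOf (dif ρ E 0).ker)) =
        QuotientAddGroup.mk 0 := h1.elim _ _
    rw [QuotientAddGroup.eq] at this
    rw [AddSubgroup.mem_addSubgroupOf] at this
    have h : x ∈ (dif ρ E 1).range := by simpa using this
    exact h
  have H2 : ∀ x : Ch ρ E 2, dif ρ E 1 x = 0 → ∃ y, dif ρ E 2 y = x := by
    intro x hx
    have : (QuotientAddGroup.mk (⟨x, hx⟩ : (dif ρ E 1).ker) :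
      (dif ρ E 1).ker ⧸ ((dif ρ E 2).range.addSubgroupOf (dif ρ E 1).ker)) =
        QuotientAddGroup.mk 0 := h2.elim _ _
    rw [QuotientAddGroup.eq] at this
    rw [AddSubgroup.mem_addSubgroupOf] at this
    have h : x ∈ (dif ρ E 2).range := by simpa using this
    exact h
  obtain ⟨x₀⟩ : Nonempty E := inferInstance
  obtain ⟨r, hr, hr0⟩ := exists_equivariant (E := E) hfree x₀
  obtain ⟨c, hc⟩ := H0 (cls ρ 0 (Finsupp.single (pt x₀) 1))
  have hpath : ∀ g : G, Nonempty (Path x₀ (g • x₀)) := fun g => PathConnectedSpace.joined _ _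
  let p : ∀ g : G, Path x₀ (g • x₀) := fun g => (hpath g).some
  -- the fillings of the paths
  have fill : ∀ g : G, ∃ d : Ch ρ E 2,
      dif ρ E 1 d = lsm ρ 1 (ρ g) c - c - cls ρ 1 (Finsupp.single (ofPath (p g)) 1) := by
    intro g
    refine H1 _ ?_
    rw [map_sub, map_sub, lsm_dif, hc, dif_cls, bd_ofPath, cls_sub, ← act_pt, cls_act]
    abel
  choose d hd using fill
  -- the pairing
  let β : Ch ρ E 2 →+ V := QuotientAddGroup.lift _ (pair2 ρ b r)
    (fun _ hc => pair2_rel ρ b r hr hc)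
  have hβ : ∀ c, β (cls ρ 2 c) = pair2 ρ b r c := fun c => rfl
  have hβs : ∀ (a : A) x, β (lsm ρ 2 a x) = a • β x := by
    intro a x
    obtain ⟨c, rfl⟩ := cls_surj ρ _ x
    rw [lsm_cls, hβ, hβ, pair2_smul]
  have hb1 : ∀ k, b 1 k = b 1 1 := by
    intro k
    have h := hb 1 1 k
    rw [map_one, one_smul, one_mul, one_mul, sub_self, zero_add, sub_eq_zero] at h
    exact h
  refine ⟨fun g => -β (d g), fun g h => ?_⟩
  -- the triangle
  set z : Sing 1 E →₀ ℤ := Finsupp.single (ofPath (p g)) 1 +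
    Finsupp.single (act g (ofPath (p h))) 1 - Finsupp.single (ofPath (p (g * h))) 1 with hz
  have hz0 : bd ℤ E 0 z = 0 := by
    rw [hz, map_sub, map_add, bd_ofPath, bd_ofPath, bd_act_ofPath, mul_smul]
    abel
  obtain ⟨D, hD⟩ := hE z hz0
  have hDc : dif ρ E 1 (cls ρ 2 (cst A 2 D)) =
      cls ρ 1 (Finsupp.single (ofPath (p g)) 1) +
        lsm ρ 1 (ρ g) (cls ρ 1 (Finsupp.single (ofPath (p h)) 1)) -
        cls ρ 1 (Finsupp.single (ofPath (p (g * h))) 1) := by
    rw [dif_cls, bd_cst, hD, hz, map_sub, map_add, cst_single, cst_single, cst_single,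
      Int.cast_one, cls_sub, cls_add, cls_act]
  have hcomm : lsm ρ 1 (ρ (g * h)) c = lsm ρ 1 (ρ g) (lsm ρ 1 (ρ h) c) := by
    rw [← lsm_mul, ← map_mul]
  obtain ⟨y, hy⟩ := H2 (cls ρ 2 (cst A 2 D) + d g + lsm ρ 2 (ρ g) (d h) - d (g * h)) (by
    rw [map_sub, map_add, map_add, hDc, lsm_dif, hd, hd, hd, hcomm]
    simp only [map_sub]
    abel)
  have hβd : β (dif ρ E 2 y) = 0 := by
    obtain ⟨c, rfl⟩ := cls_surj ρ _ y
    rw [dif_cls, hβ, pair2_bd ρ b hb]
  rw [hy, map_sub, map_add, map_add, hβs, hβ, pair2_cst ρ b hb, hD, hz, map_sub,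
    map_add, cone1_single, cone1_single, cone1_single, vtx_act, vtx_act] at hβd
  simp only [vtx_ofPath_zero, vtx_ofPath_one, hr, hr0, mul_one] at hβd
  simp only [one_smul, hom2, map_one, inv_one, one_mul, inv_mul_cancel_left] at hβd
  rw [hb1 g, hb1 (g * h)] at hβd
  show b g h = ρ g • -β (d h) - -β (d (g * h)) + -β (d g)
  rw [smul_neg]
  have h5 : b g h - (-(ρ g • β (d h)) - -β (d (g * h)) + -β (d g)) = 0 := by
    rw [← hβd]
    abel
  exact sub_eq_zero.1 h5

end Pool.Agent.LibZIS
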