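import Pool.Agent.LibZIS.Rep
import Pool.Agent.LibZIS.Mat

/-!
Permutation representations on weighted `ℓ²` spaces, written as non-isometric representations on
`ℓ²(X)`.
-/

set_option autoImplicit false

namespace Pool.Agent.LibZIS.Raw

universe u v w

section mulop

variable {X : Type v}

lemma memℓp_mul (m : X → ℝ) (C : ℝ) (hm : ∀ x, |m x| ≤ C) (ξ : L2 X) :
    Memℓp (fun x => (m x : ℂ) * ξ x) 2 := by
  refine memℓp_gen ?_
  have h1 : Summable fun x => C ^ 2 * ‖ξ x‖ ^ 2 := (summable_sq ξ).mul_left _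
  simp only [ENNReal.toReal_ofNat, Real.rpow_ofNat]
  refine h1.of_nonneg_of_le (fun x => by positivity) fun x => ?_
  rw [norm_mul, Complex.norm_real, mul_pow, Real.norm_eq_abs]
  exact mul_le_mul_of_nonneg_right (pow_le_pow_left₀ (abs_nonneg _) (hm x) 2) (by positivity)

/-- multiplication by a bounded function. -/
noncomputable def mulOp (m : X → ℝ) (C : ℝ) (hm : ∀ x, |m x| ≤ C) : L2 X →L[ℂ] L2 X :=
  LinearMap.mkContinuous
    { toFun := fun ξ => ⟨fun x => (m x : ℂ) * ξ x, memℓp_mul m C hm ξ⟩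
      map_add' := fun ξ η => by
        ext x
        show (m x : ℂ) * (ξ + η : L2 X) x = (m x : ℂ) * ξ x + (m x : ℂ) * η x
        rw [lp.coeFn_add, Pi.add_apply, mul_add]
      map_smul' := fun c ξ => by
        ext x
        show (m x : ℂ) * (c • ξ : L2 X) x = c * ((m x : ℂ) * ξ x)
        rw [lp.coeFn_smul, Pi.smul_apply, smul_eq_mul]
        ring } |C| (by
    intro ξ
    have hb : ∀ x, |m x| ≤ |C| := fun x => (hm x).trans (le_abs_self C)
    refine le_of_sq_le_sq ?_ (by positivity)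
    rw [mul_pow, norm_sq_eq, norm_sq_eq, ← tsum_mul_left]
    have h1 : ∀ x, ‖(m x : ℂ) * ξ x‖ ^ 2 ≤ |C| ^ 2 * ‖ξ x‖ ^ 2 := by
      intro x
      rw [norm_mul, Complex.norm_real, mul_pow, Real.norm_eq_abs]
      exact mul_le_mul_of_nonneg_right (pow_le_pow_left₀ (abs_nonneg _) (hb x) 2) (by positivity)
    refine Summable.tsum_le_tsum h1 ?_ ((summable_sq ξ).mul_left _)
    exact ((summable_sq ξ).mul_left _).of_nonneg_of_le (fun x => by positivity) h1)

lemma mulOp_apply (m : X → ℝ) (C : ℝ) (hm : ∀ x, |m x| ≤ C) (ξ : L2 X) (x : X) :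
    mulOp m C hm ξ x = (m x : ℂ) * ξ x := rfl

lemma norm_mulOp_le (m : X → ℝ) (C : ℝ) (hm : ∀ x, |m x| ≤ C) : ‖mulOp m C hm‖ ≤ |C| :=
  LinearMap.mkContinuous_norm_le _ (abs_nonneg _) _

end mulop

variable {G : Type u} [Group G] {X : Type v} [MulAction G X]

/-- Functions with bounded displacement. -/
def BddDisp (G : Type u) [Group G] {X : Type v} [MulAction G X] (len : X → ℝ) : Prop :=
  ∀ g : G, ∃ c : ℝ, ∀ x : X, |len (g • x) - len x| ≤ c

variable {len : X → ℝ} (hlen : BddDisp G len)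

/-- a bound for the displacement. -/
noncomputable def dsp (hlen : BddDisp G len) (g : G) : ℝ := |(hlen g).choose|

lemma dsp_nonneg (g : G) : 0 ≤ dsp hlen g := abs_nonneg _

lemma le_dsp (g : G) (x : X) : |len x - len (g⁻¹ • x)| ≤ dsp hlen g := by
  have h1 := (hlen g).choose_spec (g⁻¹ • x)
  rw [smul_inv_smul] at h1
  exact h1.trans (le_abs_self _)

lemma mult_bound {δ : ℝ} (hδ : 0 ≤ δ) (g : G) (x : X) :
    |Real.exp (δ * (len x - len (g⁻¹ • x)))| ≤ Real.exp (δ * dsp hlen g) := by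
  rw [abs_of_pos (Real.exp_pos _)]
  refine Real.exp_le_exp.2 (mul_le_mul_of_nonneg_left ?_ hδ)
  exact (le_abs_self _).trans (le_dsp hlen g x)

/-- the twisted translation. -/
noncomputable def tw (δ : NNReal) (g : G) : L2 X →L[ℂ] L2 X :=
  (mulOp (fun x => Real.exp (δ * (len x - len (g⁻¹ • x)))) _
    (fun x => mult_bound hlen δ.2 g x)) * tr g

lemma tw_apply (δ : NNReal) (g : G) (ξ : L2 X) (x : X) :
    tw hlen δ g ξ x = (Real.exp (δ * (len x - len (g⁻¹ • x))) : ℂ) * ξ (g⁻¹ • x) := rfl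

/-- the twisted representation. -/
noncomputable def twHom (δ : NNReal) : G →* (L2 X →L[ℂ] L2 X) where
  toFun := tw hlen δ
  map_one' := by
    ext ξ x
    rw [tw_apply, inv_one, one_smul, sub_self, mul_zero, Real.exp_zero, Complex.ofReal_one,
      one_mul]
    rfl
  map_mul' g h := by
    ext ξ x
    show tw hlen δ (g * h) ξ x = tw hlen δ g (tw hlen δ h ξ) x
    rw [tw_apply, tw_apply, tw_apply, mul_inv_rev, mul_smul, ← mul_assoc, ← Complex.ofReal_mul,
      ← Real.exp_add]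
    congr 3
    ring

/-- the twisted representation of the group algebra. -/
noncomputable def Tw (δ : NNReal) : MonoidAlgebra ℂ G →ₐ[ℂ] (L2 X →L[ℂ] L2 X) :=
  MonoidAlgebra.lift ℂ _ G (twHom hlen δ)

lemma norm_tw_sub (δ : NNReal) (g : G) :
    ‖tw hlen δ g - (tr g : L2 X →L[ℂ] L2 X)‖ ≤ Real.exp (δ * dsp hlen g) - 1 := by
  have hb : ∀ x : X, |Real.exp (δ * (len x - len (g⁻¹ • x))) - 1| ≤
      Real.exp (δ * dsp hlen g) - 1 := by
    intro x
    have h1 := abs_le.1 (le_dsp hlen g x)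
    have h2 : (0 : ℝ) ≤ δ := δ.2
    have h3 : δ * (len x - len (g⁻¹ • x)) ≤ δ * dsp hlen g := mul_le_mul_of_nonneg_left h1.2 h2
    have h4 : -(δ * dsp hlen g) ≤ δ * (len x - len (g⁻¹ • x)) := by
      have := mul_le_mul_of_nonneg_left h1.1 h2
      linarith
    have h5 := Real.exp_le_exp.2 h3
    have h6 := Real.exp_le_exp.2 h4
    rw [abs_le]
    refine ⟨?_, by linarith⟩
    have h7 : 2 ≤ Real.exp (δ * dsp hlen g) + Real.exp (-(δ * dsp hlen g)) := by
      have h8 := Real.add_one_le_exp (δ * dsp hlen g)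
      have h9 := Real.add_one_le_exp (-(δ * dsp hlen g))
      linarith
    linarith
  have h0 : 0 ≤ Real.exp (δ * dsp hlen g) - 1 := by
    have : 0 ≤ (δ : ℝ) * dsp hlen g := mul_nonneg δ.2 (dsp_nonneg hlen g)
    have := Real.one_le_exp this
    linarith
  have h1 : tw hlen δ g - (tr g : L2 X →L[ℂ] L2 X) =
      (mulOp (fun x => Real.exp (δ * (len x - len (g⁻¹ • x))) - 1) _ hb) * tr g := by
    ext ξ x
    show tw hlen δ g ξ x - tr g ξ x = _
    rw [tw_apply]
    show _ = ((Real.exp (δ * (len x - len (g⁻¹ • x))) - 1 : ℝ) : ℂ) * tr g ξ x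
    rw [tr_apply]
    push_cast
    ring
  rw [h1]
  refine ContinuousLinearMap.opNorm_le_bound _ h0 fun ξ => ?_
  show ‖mulOp _ _ hb (tr g ξ)‖ ≤ _
  refine (ContinuousLinearMap.le_opNorm _ _).trans ?_
  rw [norm_tr]
  refine mul_le_mul_of_nonneg_right ?_ (norm_nonneg _)
  exact (norm_mulOp_le _ _ hb).trans (abs_of_nonneg h0).le

lemma norm_Tw_sub (δ : NNReal) (f : MonoidAlgebra ℂ G) :
    ‖Tw hlen δ f - T G X f‖ ≤
      ∑ g ∈ f.coeff.support, ‖f.coeff g‖ * (Real.exp (δ * dsp hlen g) - 1) := by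
  rw [Tw, T, MonoidAlgebra.lift_apply, MonoidAlgebra.lift_apply, Finsupp.sum, Finsupp.sum,
    ← Finset.sum_sub_distrib]
  refine (norm_sum_le _ _).trans (Finset.sum_le_sum fun g _ => ?_)
  rw [← smul_sub, norm_smul]
  exact mul_le_mul_of_nonneg_left (norm_tw_sub hlen δ g) (norm_nonneg _)

lemma eventually_norm_Tw (hst : ∀ x : X, Amenable (MulAction.stabilizer G x))
    (f : MonoidAlgebra ℂ G) {η : ℝ} (hf : ‖T G G f‖ < η) :
    ∀ᶠ δ : NNReal in nhds 0, ‖Tw hlen δ f‖ < η := by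
  have h1 : Filter.Tendsto (fun δ : NNReal =>
      ∑ g ∈ f.coeff.support, ‖f.coeff g‖ * (Real.exp (δ * dsp hlen g) - 1)) (nhds 0)
      (nhds (∑ g ∈ f.coeff.support, ‖f.coeff g‖ * (Real.exp ((0 : NNReal) * dsp hlen g) - 1))) := by
    refine Continuous.tendsto ?_ 0
    fun_prop
  simp only [NNReal.coe_zero, zero_mul, Real.exp_zero, sub_self, mul_zero,
    Finset.sum_const_zero] at h1
  have h2 : ∀ᶠ δ : NNReal in nhds 0,
      ∑ g ∈ f.coeff.support, ‖f.coeff g‖ * (Real.exp (δ * dsp hlen g) - 1) < η - ‖T G G f‖ :=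
    h1.eventually (gt_mem_nhds (by linarith))
  filter_upwards [h2] with δ hδ
  have h3 : ‖Tw hlen δ f‖ ≤ ‖T G X f‖ + ‖Tw hlen δ f - T G X f‖ := by
    calc ‖Tw hlen δ f‖ = ‖T G X f + (Tw hlen δ f - T G X f)‖ := by congr 1; abel
      _ ≤ _ := norm_add_le _ _
  have h4 := norm_T_le hst f
  have h5 := norm_Tw_sub hlen δ f
  linarith

end Pool.Agent.LibZIS.Raw
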